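import Pool.Agent.MP_57f271_lc.H4.Mach

/-!
Every run is a tower over the quotients of the operands of its additions of high degree.
-/

set_option autoImplicit false

namespace Pool.Agent.MP_57f271_lc.H4

open Pool.Agent.MP_57f271_lc.H18 Pool.Agent.MP_57f271_lc.H7 MvPolynomial
open Function hiding eval
open scoped Classical

variable {S : System}

/-- Evaluation at `S`. -/
noncomputable def ev (S : System) : MvPolynomial (Slot S.n S.k S.deg) ℂ →+* ℂ :=
  eval fun s => coeff s.2.1 (S.f s.1)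

/-- Defined and different from zero at `S`. -/
def NZ (S : System) (v : RF S) : Prop := ∃ z, z ≠ 0 ∧ Rel (ev S) v z

theorem NZ.nonzeroAt {v : RF S} : NZ S v → NonzeroAt S v :=
  fun ⟨_, h0, a, b, h1, h2, h3⟩ => ⟨a, b, fun h => mul_ne_zero h0 h1 (h3.trans h), h2⟩

theorem NZ.ne {v : RF S} : NZ S v → v ≠ 0 := fun ⟨_, h0, h⟩ h1 => h0 (h.zero h1)

theorem mon_of {A : Set (RF S)} {a : RF S} (h : a ∈ A) : a ∈ mon S A :=
  Submonoid.subset_closure (.inl h)

theorem mon_mono {A B : Set (RF S)} (h : A ⊆ B) {u : RF S} (hu : u ∈ mon S A) : u ∈ mon S B :=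
  Submonoid.closure_mono (fun _ hx => hx.imp (@h _) fun h1 => ⟨h h1.1, h1.2⟩) hu

theorem mon_inv {A : Set (RF S)} (hA : ∀ a ∈ A, NZ S a) {u : RF S} (hu : u ∈ mon S A) :
    u⁻¹ ∈ mon S A := by
  induction hu using Submonoid.closure_induction with
  | mem x hx =>
    rcases hx with hx | ⟨hx, -⟩
    · exact Submonoid.subset_closure (.inr (by rw [inv_inv]; exact ⟨hx, (hA x hx).nonzeroAt⟩))
    · exact mon_of hx
  | one => simp
  | mul x y _ _ hx hy => exact mul_inv x y ▸ mul_mem hx hy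

/-- A tower with set of factors `A`. -/
def St (T N : Set (RF S)) (D l : ℕ) (A : Set (RF S)) : Prop :=
  ∃ f : ℕ → RF S, A = f '' Set.Iio l ∧
    ∀ i < l, Low D (T ∩ mon S (f '' Set.Iio i) ∪ N) (f i) ∧ NZ S (f i)

variable {T N A : Set (RF S)} {D l : ℕ}

theorem St.nz (h : St T N D l A) : ∀ a ∈ A, NZ S a := by
  obtain ⟨f, rfl, h⟩ := h
  rintro _ ⟨i, hi, rfl⟩
  exact (h i hi).2

theorem St.ins (h : St T N D l A) {y : RF S} (h1 : Low D (T ∩ mon S A ∪ N) y) (h2 : NZ S y) :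
    St T N D (l + 1) (insert y A) := by
  obtain ⟨f, rfl, h⟩ := h
  have e : ∀ i ≤ l, update f l y '' Set.Iio i = f '' Set.Iio i := fun i hi =>
    Set.image_congr fun j hj => update_of_ne (by rintro rfl; exact absurd hj (not_lt.2 hi)) _ _
  refine ⟨update f l y, ?_, fun i hi => ?_⟩
  · rw [← Nat.succ_eq_add_one, ← Nat.succ_eq_succ, Order.Iio_succ, ← Set.Iio_insert,
      Set.image_insert_eq, update_self, e l le_rfl]
  · rw [e i (by omega)]
    rcases Nat.lt_succ_iff_lt_or_eq.1 hi with hi | rfl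
    · rw [update_of_ne hi.ne]
      exact h i hi
    · rw [update_self]
      exact ⟨h1, h2⟩

theorem St.poly (h : St T N D l A) {a : MvPolynomial (Slot S.n S.k S.deg) ℂ}
    (h1 : a.totalDegree ≤ D) (h2 : ev S a ≠ 0) : St T N D (l + 1) (insert (toFrac a) A) :=
  h.ins (Submodule.subset_span ⟨a, h1, rfl⟩) ⟨_, h2, Rel.of a⟩

theorem St.add (h : St T N D l A) {u w : RF S} (hu : u ∈ mon S A) (h1 : NZ S u) (h2 : NZ S w)
    (e : w / u ∈ Algebra.adjoin ℂ (T ∩ mon S A ∪ N)) :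
    ∃ A', A ⊆ A' ∧ St T N D (l + 1) A' ∧ w ∈ mon S A' := by
  refine ⟨_, Set.subset_insert (w / u) A, h.ins ?_ ?_, ?_⟩
  · have := Submodule.smul_mem (Submodule.span (Algebra.adjoin ℂ (T ∩ mon S A ∪ N))
      {u | ∃ a : MvPolynomial (Slot S.n S.k S.deg) ℂ, a.totalDegree ≤ D ∧ u = toFrac a}) ⟨_, e⟩
      (Submodule.subset_span ⟨1, by simp, rfl⟩)
    rwa [toFrac, map_one, Subalgebra.smul_def, smul_eq_mul, mul_one] at this
  · obtain ⟨y, h3, h4⟩ := h1
    obtain ⟨z, h5, h6⟩ := h2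
    exact ⟨_, mul_ne_zero h5 (inv_ne_zero h3), div_eq_mul_inv w u ▸ h6.mul (h4.inv h3)⟩
  · rw [← div_mul_cancel₀ w h1.ne]
    exact mul_mem (mon_of (by simp [h1.ne])) (mon_mono (Set.subset_insert _ _) hu)

theorem St.conv (h : St T N D l A) {v : RF S} {z : ℂ} (hr : Rel (ev S) v z)
    (hv : z ≠ 0 → LowDeg D v ∨ v ∈ mon S A) :
    ∃ l' ≤ l + 2, ∃ A', A ⊆ A' ∧ St T N D l' A' ∧ (z ≠ 0 → v ∈ mon S A') := by
  by_cases h0 : z = 0
  · exact ⟨l, by omega, A, subset_rfl, h, fun h => absurd h0 h⟩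
  rcases hv h0 with ⟨a, b, h1, h2, h3, rfl⟩ | hv
  swap
  · exact ⟨l, by omega, A, subset_rfl, h, fun _ => hv⟩
  unfold toFrac at hr
  have ha : a ≠ 0 := by
    rintro rfl
    exact h0 (hr.zero (by simp))
  obtain ⟨a', b', h4, h5, h6⟩ := hr
  obtain ⟨b1, a1, g, h7, rfl, rfl⟩ := UniqueFactorizationMonoid.exists_reduced_factors b h1 a
  have inj := IsFractionRing.injective (MvPolynomial (Slot S.n S.k S.deg) ℂ) (RF S)
  have h8 : a1 * b' = a' * b1 := mul_left_cancel₀ (left_ne_zero_of_mul h1) (inj (by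
    have := (map_ne_zero_iff _ inj).2 h1
    rw [div_mul_eq_mul_div, div_eq_iff this] at h5
    simp only [map_mul] at h5 ⊢
    linear_combination h5))
  obtain ⟨k, rfl⟩ : b1 ∣ b' := h7.dvd_of_dvd_mul_left (h8 ▸ dvd_mul_left _ _)
  have d : ∀ y : MvPolynomial (Slot S.n S.k S.deg) ℂ, g * y ≠ 0 → (g * y).totalDegree ≤ D →
      y.totalDegree ≤ D := fun y y0 hy =>
    (totalDegree_le_of_dvd_of_isDomain (dvd_mul_left _ _) y0).trans hy
  have h9 := congrArg (ev S) h8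
  rw [map_mul] at h4
  rw [map_mul, map_mul, map_mul, ← h6, map_mul] at h9
  have e1 : ev S a1 ≠ 0 := fun e1 => mul_ne_zero (mul_ne_zero h0 h4) (left_ne_zero_of_mul h4)
    (by rw [← h9, e1, zero_mul])
  have e2 := (h.poly (d a1 ha h2) e1).poly (d b1 h1 h3) (left_ne_zero_of_mul h4)
  refine ⟨_, le_rfl, _, (Set.subset_insert _ _).trans (Set.subset_insert _ _), e2, fun _ => ?_⟩
  unfold toFrac at e2 ⊢
  rw [map_mul, map_mul, mul_div_mul_left _ _
    ((map_ne_zero_iff _ inj).2 (left_ne_zero_of_mul h1)), div_eq_mul_inv]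
  exact mul_mem (mon_of (.inr (.inl rfl))) (mon_inv e2.nz (mon_of (.inl rfl)))

theorem step_st {Q : Type} (I : Instr Q) {x : ℤ → ℂ} {v : ℤ → RF S}
    (hr : ∀ n, Rel (ev S) (v n) (x n)) (hN : ∀ n u, x n = 0 → NZ S u → v n / u ∈ N)
    (hT : ∀ o i j k q, I = .arith o i j k q → (o = .add ∨ o = .sub) →
      ¬ LowDeg D (symStep (fun c => toFrac (C c)) I x v k) → v i / v j ∈ T)
    (h : St T N D l A) (hQ : ∀ n, x n ≠ 0 → LowDeg D (v n) ∨ v n ∈ mon S A) :
    ∃ l' ≤ l + 5, ∃ A', A ⊆ A' ∧ St T N D l' A' ∧ (x (cr I) ≠ 0 → v (cr I) ∈ mon S A') ∧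
      ∀ n, symStep (fun a => a) I x x n ≠ 0 → LowDeg D (symStep (fun c => toFrac (C c)) I x v n) ∨
        symStep (fun c => toFrac (C c)) I x v n ∈ mon S A' := by
  obtain ⟨l1, a1, A1, a2, a3, a4⟩ := h.conv (hr I.r1) (hQ _)
  obtain ⟨l2, b1, A2, b2, b3, b4⟩ := a3.conv (hr (cr I)) fun h =>
    (hQ _ h).imp_right (mon_mono a2)
  have b5 := fun h => mon_mono b2 (a4 h)
  have upd : ∀ (k : ℤ) (z : ℂ) (w : RF S), (z ≠ 0 → ¬ LowDeg D w →
      ∃ A', A2 ⊆ A' ∧ (St T N D l2 A' ∨ St T N D (l2 + 1) A') ∧ w ∈ mon S A') →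
      ∃ l' ≤ l + 5, ∃ A', A ⊆ A' ∧ St T N D l' A' ∧ (x (cr I) ≠ 0 → v (cr I) ∈ mon S A') ∧
        ∀ n, update x k z n ≠ 0 → LowDeg D (update v k w n) ∨ update v k w n ∈ mon S A' := by
    intro k z w hw
    obtain ⟨l', c1, A', c2, c3, c4⟩ : ∃ l' ≤ l2 + 1, ∃ A', A2 ⊆ A' ∧ St T N D l' A' ∧
        (z ≠ 0 → LowDeg D w ∨ w ∈ mon S A') := by
      by_cases h1 : z ≠ 0 ∧ ¬ LowDeg D w
      · obtain ⟨A', c1, c2 | c2, c3⟩ := hw h1.1 h1.2
        exacts [⟨_, by omega, A', c1, c2, fun _ => .inr c3⟩,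
          ⟨_, le_rfl, A', c1, c2, fun _ => .inr c3⟩]
      · exact ⟨l2, by omega, A2, subset_rfl, b3, fun h2 => .inl (by_contra fun h3 => h1 ⟨h2, h3⟩)⟩
    refine ⟨l', by omega, A', (a2.trans b2).trans c2, c3, fun h => mon_mono c2 (b4 h), fun n => ?_⟩
    by_cases hn : n = k
    · subst hn
      rwa [update_self, update_self]
    · rw [update_of_ne hn, update_of_ne hn]
      exact fun h => (hQ n h).imp_right (mon_mono ((a2.trans b2).trans c2))
  have sum : ∀ (i j : ℤ) (ε : ℂ), (x i ≠ 0 → v i ∈ mon S A2) → (x j ≠ 0 → v j ∈ mon S A2) →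
      x i + ε * x j ≠ 0 → v i / v j ∈ T → ∃ A', A2 ⊆ A' ∧
        (St T N D l2 A' ∨ St T N D (l2 + 1) A') ∧ v i + toFrac (C ε) * v j ∈ mon S A' := by
    intro i j ε h1 h2 h3 h4
    have h5 : NZ S (v i + toFrac (C ε) * v j) :=
      ⟨_, h3, (hr i).add (by simpa [ev, toFrac] using (Rel.of (φ := ev S) (C ε)).mul (hr j))⟩
    have h6 : toFrac (C ε) ∈ Algebra.adjoin ℂ (T ∩ mon S A2 ∪ N) := Subalgebra.algebraMap_mem _ ε
    by_cases h7 : x j = 0
    · have h8 : x i ≠ 0 := by simpa [h7] using h3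
      have h9 : NZ S (v i) := ⟨_, h8, hr i⟩
      refine (b3.add (h1 h8) h9 h5 ?_).imp fun _ h => ⟨h.1, .inr h.2.1, h.2.2⟩
      rw [add_div, div_self h9.ne, mul_div_assoc]
      exact add_mem (one_mem _) (mul_mem h6 (Algebra.subset_adjoin (.inr (hN j _ h7 h9))))
    · have h9 : NZ S (v j) := ⟨_, h7, hr j⟩
      refine (b3.add (h2 h7) h9 h5 ?_).imp fun _ h => ⟨h.1, .inr h.2.1, h.2.2⟩
      rw [add_div, mul_div_assoc, div_self h9.ne, mul_one]
      refine add_mem (Algebra.subset_adjoin ?_) h6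
      by_cases h8 : x i = 0
      · exact .inr (hN i _ h8 h9)
      · exact .inl ⟨h4, div_eq_mul_inv (v i) (v j) ▸ mul_mem (h1 h8) (mon_inv b3.nz (h2 h7))⟩
  have h0 := fun n h => (hQ n h).imp_right (mon_mono (a2.trans b2))
  rcases I with ⟨o, i, j, k, q⟩ | ⟨a, i, k, q⟩ | ⟨a, k, q⟩ | ⟨l, q⟩ | ⟨i, y, n⟩ | b
  · refine upd _ _ _ fun h1 h2 => ?_
    have h3 := fun h => hT o i j k q rfl h (by rwa [symStep, update_self])
    cases o <;> simp only [symOp] at h1 ⊢
    · simpa [toFrac] using sum i j 1 b5 b4 (by rwa [one_mul]) (h3 (.inl rfl))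
    · simpa [toFrac, sub_eq_add_neg] using sum i j (-1) b5 b4 (by rwa [neg_one_mul, ← sub_eq_add_neg])
        (h3 (.inr rfl))
    · exact ⟨_, subset_rfl, .inl b3,
        mul_mem (b5 (left_ne_zero_of_mul h1)) (b4 (right_ne_zero_of_mul h1))⟩
    · split_ifs at h1 ⊢ with h4
      · exact absurd rfl h1
      · exact ⟨_, subset_rfl, .inl b3, div_eq_mul_inv (v i) (v j) ▸
          mul_mem (b5 (div_ne_zero_iff.1 h1).1) (mon_inv b3.nz (b4 h4))⟩
  · exact upd _ _ _ fun h1 _ => ⟨_, Set.subset_insert _ _, .inr (b3.poly (a := C a) (by simp)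
      (by simpa [ev] using left_ne_zero_of_mul h1)), mul_mem (mon_of (.inl rfl))
        (mon_mono (Set.subset_insert _ _) (b5 (right_ne_zero_of_mul h1)))⟩
  · exact upd _ _ _ fun _ h2 => absurd ⟨C a, 1, one_ne_zero, by simp, by simp, by simp [toFrac]⟩ h2
  all_goals exact ⟨l2, by omega, A2, a2.trans b2, b3, b4, fun _ => h0 _⟩

variable (M : Machine) (E : Encoding) (S : System)

theorem run_succ (t : ℕ) : (run M E S (t + 1)).2 =
    symStep (fun a => a) (M.instr (run M E S t).1) (run M E S t).2 (run M E S t).2 := by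
  rw [run, iterate_succ_apply', step_snd]
  rfl

theorem rel_run (t : ℕ) (n : ℤ) : Rel (ev S) (sym M E S t n) ((run M E S t).2 n) := by
  induction t generalizing n with
  | zero =>
    have := Rel.ext (φ := ev S) (E.inj S.n S.k S.deg) X (E.rest S.n S.k S.deg) n
    simp only [ev, eval_X] at this
    simp only [sym, symRun, symInit, toFrac, map_natCast]
    exact this
  | succ t ih =>
    have := rel_step (φ := ev S) C (M.instr (run M E S t).1) ih Iff.rfl Iff.rfl n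
    simp only [ev, eval_C] at this
    rw [run_succ]
    exact this

theorem run_st {D : ℕ} (hD : 1 ≤ D) (t s : ℕ) (hs : s ≤ t) :
    ∃ l ≤ 5 * s, ∃ A, St (ratios M E S D t) (Null M E S) D l A ∧
      (∀ i < s, (run M E S i).2 (cr (M.instr (run M E S i).1)) ≠ 0 →
        sym M E S i (cr (M.instr (run M E S i).1)) ∈ mon S A) ∧
      ∀ n, (run M E S s).2 n ≠ 0 → LowDeg D (sym M E S s n) ∨ sym M E S s n ∈ mon S A := by
  induction s with
  | zero =>
    refine ⟨0, le_rfl, ∅, ⟨fun _ => 0, by simp, by simp⟩, by simp, fun n _ => .inl ?_⟩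
    simp only [sym, symRun, symInit]
    by_cases hj : ∃ s, E.pos S.n S.k S.deg s = n
    · obtain ⟨s, rfl⟩ := hj
      rw [(E.inj _ _ _).extend_apply]
      exact ⟨X s, 1, one_ne_zero, by simpa using hD, by simp, by simp [toFrac]⟩
    · rw [extend_apply' _ _ _ hj]
      exact ⟨C (E.rest S.n S.k S.deg n), 1, one_ne_zero, by rw [totalDegree_C]; omega, by simp,
        by simp [toFrac]⟩
  | succ s ih =>
    obtain ⟨l, h1, A, h2, h3, h4⟩ := ih (by omega)
    obtain ⟨l', a1, A', a2, a3, a4, a5⟩ := step_st (M.instr (run M E S s).1) (rel_run M E S s)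
      (N := Null M E S) (T := ratios M E S D t) (fun n u h5 ⟨z, h6, h7⟩ => by
        obtain ⟨a, b, h8, h9, -⟩ := h7.inv h6
        exact ⟨s, n, a, b, h5, h8, by rw [div_eq_mul_inv, mul_assoc]; exact congrArg _ h9⟩)
      (fun o i j k q h5 h6 h7 => ⟨s, by omega, o, i, j, k, q, h5, h6, h7, rfl⟩) h2 h4
    refine ⟨l', by omega, A', a3, fun i hi => ?_, by rw [run_succ]; exact a5⟩
    rcases Nat.lt_succ_iff_lt_or_eq.1 hi with hi | rfl
    exacts [fun h => mon_mono a2 (h3 i hi h), a4]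

theorem run_rep {D r : ℕ} (hD : 1 ≤ D) (t : ℕ) (hr : trd (ratios M E S D t) ≤ r) :
    ∃ l ≤ 5 * t, ∀ i < t, ∀ a, Tested (M.instr (run M E S i).1) a → (run M E S i).2 a ≠ 0 →
      Rep S (Null M E S) D l 0 0 r (sym M E S i a) := by
  obtain ⟨l, h1, _, ⟨f, rfl, h2⟩, h3, -⟩ := run_st M E S hD t t le_rfl
  refine ⟨l, h1, fun i hi a h4 h5 => ?_⟩
  obtain rfl : a = cr (M.instr (run M E S i).1) := by
    rcases h4 with ⟨y, n, h4⟩ | ⟨j, k, q, h4⟩ <;> exact (congrArg cr h4).symm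
  refine ⟨f, fun i => ratios M E S D t ∩ mon S (f '' Set.Iio i), ∅,
    ⟨fun _ _ => Set.inter_subset_right, fun i hi => (h2 i hi).1⟩, by simp, ?_, ?_,
    _, h3 i hi h5, 1, one_mem (Algebra.adjoin ℂ _), 1, one_mem (Algebra.adjoin ℂ _),
    ⟨1, 1, by simp [valAt], by simp [toFrac]⟩, rfl⟩
  · rw [trd, Algebra.adjoin_empty]
    exact (trdeg_le_of_surjective (Algebra.botEquiv ℂ _).symm.toAlgHom
      (Algebra.botEquiv ℂ _).symm.surjective).trans (by simp [trdeg_eq_zero])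
  · exact (trdeg_le_of_injective (Subalgebra.inclusion (Algebra.adjoin_mono (by
      simp [Set.inter_subset_left]))) (Subalgebra.inclusion_injective _)).trans hr

theorem tests_le (t : ℕ) : tests M E S t ≤ t := by
  rw [tests]
  exact (Set.ncard_le_ncard (t := Set.Iio t) (fun _ h => h.1)).trans (by simp)

theorem main' (n d K : ℕ) (hd : 2 ≤ d) (hn : K + d ≤ n) (M : Machine) (E : Encoding)
    (hM : Decides M E n d) : ∃ S : System, Format n d S ∧
      S.size = (n + d).choose d + n * (n + 2).choose 2 ∧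
      ∀ t b D r, M.Outputs (E.state S) t b → 1 ≤ D → r + 2 < (n - K).choose d →
        trd (ratios M E S D t) ≤ r → 2 ^ K ≤ 500 * (n - K).choose d ^ 3 * t ^ 3 * D := by
  obtain ⟨S, h1, h2, h3⟩ := main n d K hd hn M E hM
  refine ⟨S, h1, h2, fun t b D r h4 hD h5 hr => ?_⟩
  obtain ⟨l, h6, h7⟩ := run_rep M E S hD t hr
  have := tests_le M E S t
  calc _ ≤ _ := (h3 t b D l 0 0 r h4 h7).resolve_right h5.not_ge
    _ ≤ 20 * t * (n - K).choose d ^ 3 * (5 * t) ^ 2 * D * (0 + 1) ^ (3 * 0) := by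
      gcongr
    _ = _ := by ring

end Pool.Agent.MP_57f271_lc.H4
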