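import Pool.Agent.MP_57f271_lc.H4.Wron

/-!
Counting hyperplanes in general position along the integral curves of a vector field.
-/

set_option autoImplicit false

namespace Pool.Agent.MP_57f271_lc.H4

open MvPolynomial Finset Pool.Agent.MP_57f271_lc.H7 WithZero
open scoped Classical

variable {m : ℕ}

/-- The constant `1` and the variables. -/
noncomputable def bb (m : ℕ) : Fin (m + 1) → RR m := Fin.cons 1 X

/-- An affine form. -/
noncomputable def lf (a : Fin (m + 1) → ℂ) : RR m := ∑ j, C (a j) * bb m j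

theorem bb_deg (j : Fin (m + 1)) : (bb m j).totalDegree ≤ 1 := by
  refine Fin.cases ?_ (fun k => ?_) j <;> simp [bb]

theorem lf_deg (a : Fin (m + 1) → ℂ) : (lf a).totalDegree ≤ 1 :=
  totalDegree_finsetSum_le fun j _ => (totalDegree_mul _ _).trans (by simpa using bb_deg j)

variable {ξ : Dr m} {v : Valuation (LL m) ℤᵐ⁰} {h lam : ℤᵐ⁰}

theorem v_der (hv : ∀ z, v z < 1 → v (ξ z) = lam * v z) {y : LL m} (h0 : y ≠ 0) (hy : v y < 1)
    (z : LL m) : v (ξ z) ≤ lam * v z := by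
  have h1 : 0 < v y := zero_lt_iff.2 ((map_ne_zero v).2 h0)
  rcases le_or_gt (v z) 1 with hz | hz
  · have h2 := hv (z * y) (by rw [map_mul]; exact mul_lt_one_of_nonneg_of_lt_one_right hz zero_le hy)
    refine le_of_mul_le_mul_left ?_ h1
    rw [← map_mul, show y * ξ z = ξ (z * y) - z * ξ y by simp [Derivation.leibniz]]
    refine v.map_sub_le ?_ ?_
    · rw [h2, map_mul]
      exact le_of_eq (by ac_rfl)
    · rw [map_mul, hv y hy]
      exact le_of_eq (by ac_rfl)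
  · have h2 : v z ≠ 0 := (zero_lt_one.trans hz).ne'
    have h3 := hv z⁻¹ (by rw [map_inv₀]; exact inv_lt_one_of_one_lt₀ hz)
    rw [Derivation.leibniz_inv, smul_eq_mul, map_mul, Valuation.map_neg, map_pow, map_inv₀] at h3
    field_simp at h3
    rw [h3, mul_comm]

theorem v_iter (hv : ∀ z, v (ξ z) ≤ lam * v z) (z : LL m) (k : ℕ) :
    v (ξ^[k] z) ≤ max 1 lam ^ k * v z := by
  induction k with
  | zero => simp
  | succ k ih =>
    rw [Function.iterate_succ_apply', pow_succ', mul_assoc]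
    exact (hv _).trans (mul_le_mul' (le_max_right _ _) ih)

theorem lo_iter {D₁ : ℕ} (hM1 : ∀ k, ξ (io (X k)) ∈ Lo io (kr ξ) D₁) (j : Fin (m + 1)) (k : ℕ) :
    ξ^[k] (io (bb m j)) ∈ Lo io (kr ξ) (1 + k * D₁) := by
  induction k with
  | zero => exact Lo.poly (by simpa using bb_deg j)
  | succ k ih =>
    rw [Function.iterate_succ_apply', add_one_mul, ← add_assoc]
    exact Lo.der (fun _ => mem_kr.1) hM1 ih

theorem exists_wr {D₁ : ℕ} (hM1 : ∀ k, ξ (io (X k)) ∈ Lo io (kr ξ) D₁) :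
    ∃ Wr ∈ Lo io (kr ξ) ((m + 1) * (1 + m * D₁)), Wr ≠ 0 ∧
      ∀ (v : Valuation (LL m) ℤᵐ⁰) (lam h : ℤᵐ⁰), (∀ e, ξ e = 0 → e ≠ 0 → v e = 1) →
        (∀ z, v (ξ z) ≤ lam * v z) → 1 ≤ h → (∀ k, v (io (X k)) ≤ h) → ∀ a, lf a ≠ 0 →
        v Wr ≤ max 1 lam ^ m * v (io (lf a)) * h ^ ((m + 1) * (1 + m * D₁)) := by
  obtain ⟨r, γ, μ, h1, h2, h3, h4⟩ := wronski ξ (fun k j => ξ^[k] (io (bb m j)))
    fun k j => Function.iterate_succ_apply' _ _ _
  rw [Fintype.card_fin] at h1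
  have h5 : ∀ (k : Fin r) j, ξ^[k] (io (bb m j)) ∈ Lo io (kr ξ) (1 + m * D₁) := fun k j =>
    Lo.mono (lo_iter hM1 j k) (by gcongr; omega)
  refine ⟨_, Lo.mono (Lo.det _ fun k i => h5 k _) (by gcongr), h2,
    fun v lam h hE hv h6 hx a ha => ?_⟩
  have h7 : ∀ k, ξ^[k] (io (lf a)) = ∑ j, io (C (a j)) * ξ^[k] (io (bb m j)) := fun k => by
    induction k with
    | zero => simp [lf]
    | succ k ih => simp [Function.iterate_succ_apply', ih, der_C]
  have h8 : ∀ k ≤ r, ξ^[k] (io (lf a)) =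
      ∑ i, (∑ j, io (C (a j)) * μ j i) * ξ^[k] (io (bb m (γ i))) := fun k hk => by
    rw [h7, sum_congr rfl fun j _ => by rw [h4 j k hk]]
    simp only [sum_mul, mul_sum, mul_assoc]
    exact sum_comm
  obtain ⟨i, hi⟩ : ∃ i, ∑ j, io (C (a j)) * μ j i ≠ 0 := by
    by_contra h9
    push Not at h9
    exact io_ne ha (by simpa [h9] using h8 0 (Nat.zero_le _))
  obtain ⟨n, rfl⟩ : ∃ n, r = n + 1 := ⟨r - 1, by have := i.2; omega⟩
  have h9 := Matrix.det_updateCol_sum (Matrix.of fun k i : Fin (n + 1) => ξ^[k] (io (bb m (γ i))))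
    i fun i => ∑ j, io (C (a j)) * μ j i
  have h10 := congrArg v h9
  rw [smul_eq_mul, map_mul, hE _ (by simp [der_C, h3]) hi, one_mul,
    Matrix.det_succ_column _ i] at h10
  refine h10.symm.trans_le (v.map_sum_le fun k _ => ?_)
  rw [map_mul, map_mul, map_pow, Valuation.map_neg, map_one, one_pow, one_mul,
    Matrix.updateCol_self]
  refine mul_le_mul' ?_ ((v_lo hE h6 hx (Lo.det (d := 1 + m * D₁) _ fun k' i' => ?_)).trans
    (pow_le_pow_right' h6 (by gcongr; omega)))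
  · simp only [smul_eq_mul, Matrix.of_apply, ← h8 k k.2.le]
    exact (v_iter hv _ _).trans (mul_le_mul' (pow_le_pow_right' (le_max_left _ _)
      (by have := k.2; omega)) le_rfl)
  · rw [Matrix.submatrix_apply, Matrix.updateCol_ne (Fin.succAbove_ne i i')]
    exact h5 _ _

theorem few {ι : Type} {a : ι → Fin (m + 1) → ℂ} {W : Finset ι}
    (hE : ∀ e, ξ e = 0 → e ≠ 0 → v e = 1)
    (hg : ∀ g : Fin (m + 1) → ι, Function.Injective g → (∀ i, g i ∈ W) →
      (Matrix.of fun i j => a (g i) j).det ≠ 0) (j : Fin (m + 1)) :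
    (W.filter fun w => v (io (lf (a w))) < v (io (bb m j))).card ≤ m := by
  by_contra h1
  obtain ⟨s, h2, h3⟩ := exists_subset_card_eq (not_le.1 h1)
  let g := (equivFinOfCardEq h3).symm
  have h4 := hg (fun i => g i) (Subtype.val_injective.comp g.injective)
    fun i => (mem_filter.1 (h2 (g i).2)).1
  have h5 := Matrix.nonsing_inv_mul _ (Ne.isUnit h4)
  generalize (Matrix.of fun i j => a (g i) j)⁻¹ = B at h5
  have h6 : bb m j = ∑ i, C (B j i) * lf (a (g i)) := by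
    simp only [lf, mul_sum, ← mul_assoc, ← map_mul]
    rw [sum_comm]
    simp only [← sum_mul, ← map_sum]
    have := fun k => congrFun (congrFun h5 j) k
    simp only [Matrix.mul_apply, Matrix.of_apply] at this
    simp [this, Matrix.one_apply, apply_ite C]
  have h7 : v (io (bb m j)) ≠ 0 := (zero_le.trans_lt (mem_filter.1 (h2 (g 0).2)).2).ne'
  refine lt_irrefl (v (io (bb m j))) ?_
  nth_rewrite 1 [h6]
  rw [map_sum]
  refine v.map_sum_lt h7 fun i _ => ?_
  rw [map_mul, map_mul]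
  exact (mul_le_of_le_one_left' (v_const hE (der_C ξ _))).trans_lt (mem_filter.1 (h2 (g i).2)).2

theorem countG {ι : Type} {a : ι → Fin (m + 1) → ℂ} {c : Fin m} (hc : ξ (io (X c)) ≠ 0)
    {D D₁ D₂ : ℕ} (hM1 : ∀ k, ξ (io (X k)) ∈ Lo io (kr ξ) D₁)
    (hu : ∀ D : Dr m, (∀ z, ξ z = 0 → D z = 0) → ∃ a, ∀ z, D z = a * ξ z) {Ψ : LL m}
    (hΨ : Ψ ∈ Lo io (kr ξ) D₂) (hΨ0 : Ψ ≠ 0)
    (hd : ∀ v : Valuation (LL m) ℤᵐ⁰, (∀ e, ξ e = 0 → e ≠ 0 → v e = 1) → (∀ p, v (io p) ≤ 1) →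
      v Ψ = 1 →
      ∃ (s : RR m) (N : Fin m → RR m), v (io s) = 1 ∧ ∀ k, io s * ξ (io (X k)) = io (N k))
    {Z : LL m} (hZ : Z ∈ Lo io (kr ξ) D) (hZ0 : Z ≠ 0) (W : Finset ι)
    (hp : ∀ w ∈ W, Prime (lf (a w)))
    (hg : ∀ g : Fin (m + 1) → ι, Function.Injective g → (∀ i, g i ∈ W) →
      (Matrix.of fun i j => a (g i) j).det ≠ 0)
    (hW : ∀ w ∈ W, ∃ x b, ¬ lf (a w) ∣ b ∧ Z * io b = io (lf (a w) * x)) :
    W.card ≤ m * (D + ((m + 1) * (1 + m * D₁) + m * (D₂ + D₁)) + 1) := by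
  have : Algebra.EssFiniteType (RR m) (LL m) :=
    Algebra.EssFiniteType.of_isLocalization _ (nonZeroDivisors (RR m))
  have : Algebra.EssFiniteType ℂ (LL m) := Algebra.EssFiniteType.comp ℂ (RR m) (LL m)
  obtain ⟨Wr, a1, a2, a3⟩ := exists_wr hM1
  have a4 : Wr * Ψ ^ m ∈ Lo io (kr ξ) ((m + 1) * (1 + m * D₁) + m * (D₂ + D₁)) :=
    Lo.mul a1 (by simpa using Lo.prod (range m) fun _ _ => Lo.mono hΨ (Nat.le_add_right _ D₁))
  generalize (m + 1) * (1 + m * D₁) = Dw at a1 a3 a4 ⊢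
  by_contra hlt
  rw [not_le] at hlt
  set Q : LL m := (Z * (Wr * Ψ ^ m)) ^ m / ∏ w ∈ W, io (lf (a w)) with hQ
  have hp0 : ∏ w ∈ W, io (lf (a w)) ≠ 0 := prod_ne_zero_iff.2 fun w hw => io_ne (hp w hw).ne_zero
  have hQ0 : Q ≠ 0 :=
    div_ne_zero (pow_ne_zero _ (mul_ne_zero hZ0 (mul_ne_zero a2 (pow_ne_zero _ hΨ0)))) hp0
  have key : ∀ {y : LL m}, ξ y ≠ 0 → ∃ v : Valuation (LL m) ℤᵐ⁰, v y < 1 ∧
      (∀ e, ξ e = 0 → e ≠ 0 → v e = 1) ∧ v Q ≤ 1 ∧ (1 < v (io (X c)) → v Q < 1) := by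
    intro y hy
    obtain ⟨v, lam, -, h1, hE, hv⟩ := place ξ hu hy
    obtain ⟨j, -, hj⟩ := exists_max_image univ (fun j => v (io (bb m j))) ⟨0, mem_univ _⟩
    set h := v (io (bb m j)) with hh
    have h2 : 1 ≤ h := by simpa [bb] using hj 0 (mem_univ _)
    have hx : ∀ k, v (io (X k)) ≤ h := fun k => hj k.succ (mem_univ _)
    have hv' := v_der hv (fun h => hy (by rw [h, map_zero])) h1
    have b1 := v_lo hE h2 hx (Lo.mul hZ a4)
    have b2 : ∀ w ∈ W, v (Z * (Wr * Ψ ^ m)) ≤ v (io (lf (a w))) * h ^ (D + (Dw + m * (D₂ + D₁))) :=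
      fun w hw => by
      have c1 := v_lo hE h2 hx hΨ
      have fin : max 1 lam * v Ψ ≤ h ^ (D₂ + D₁) → v (Z * (Wr * Ψ ^ m)) ≤
          v (io (lf (a w))) * h ^ (D + (Dw + m * (D₂ + D₁))) := fun c2 => by
        calc _ = v Z * (v Wr * v Ψ ^ m) := by simp
          _ ≤ h ^ D * (max 1 lam ^ m * v (io (lf (a w))) * h ^ Dw * v Ψ ^ m) :=
            mul_le_mul' (v_lo hE h2 hx hZ)
              (mul_le_mul' (a3 v lam h hE hv' h2 hx _ (hp w hw).ne_zero) le_rfl)
          _ = v (io (lf (a w))) * (h ^ D * (h ^ Dw * (max 1 lam * v Ψ) ^ m)) := by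
            simp only [mul_pow, mul_assoc, mul_left_comm, mul_comm]
          _ ≤ _ := by
            rw [pow_add, pow_add, mul_comm m, pow_mul]
            gcongr
      rcases le_or_gt lam 1 with c2 | c2
      · exact fin (by rw [max_eq_left c2, one_mul]; exact c1.trans (pow_le_pow_right' h2 (by omega)))
      rw [max_eq_right c2.le] at fin
      rcases lt_or_ge (v Ψ) 1 with c3 | c3
      · exact fin (hv _ c3 ▸ v_lo hE h2 hx (Lo.der (fun _ => mem_kr.1) hM1 hΨ))
      rcases h2.eq_or_lt with c4 | c4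
      swap
      · refine fin ?_
        obtain ⟨k, rfl⟩ := (Fin.exists_succ_eq (x := j)).2 (by rintro rfl; simp [hh, bb] at c4)
        have c5 : h ≠ 0 := (zero_lt_one.trans c4).ne'
        have c6 := hv (io (X k))⁻¹ (by rw [map_inv₀]; exact inv_lt_one_of_one_lt₀ c4)
        rw [Derivation.leibniz_inv, smul_eq_mul, map_mul, Valuation.map_neg, map_pow, map_inv₀,
          show v (io (X k)) = h from rfl] at c6
        field_simp at c6
        rw [pow_add, mul_comm]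
        refine mul_le_mul' c1 ((le_mul_of_one_le_left' h2).trans (c6 ▸ v_lo hE h2 hx (hM1 k)))
      rw [← c4] at hx c1 ⊢
      have c5 : ∀ p, v (io p) ≤ 1 := fun p => by
        simpa using v_poly hE le_rfl hx (le_refl p.totalDegree)
      obtain ⟨s, N, h3, h4⟩ := hd v hE c5 (le_antisymm (by simpa using c1) c3)
      have h5 : io s ≠ 0 := fun h => by simp [h] at h3
      obtain ⟨P, R, h6, h7⟩ := darboux (ξ := io s • ξ) (lam := lam) (d := D) (z := Z)
        (fun e he => hE e ((mul_eq_zero.1 he).resolve_left h5)) hx h4 c2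
        (fun z hz => by rw [← hv z hz, ← one_mul (v (ξ z)), ← h3, ← map_mul]; rfl)
        (Lo.map (φ := io) (φ' := io) (A := kr ξ) (RingHom.id _) (fun a ha => show io s * ξ a = 0 by
          rw [mem_kr.1 ha, mul_zero]) (fun _ hp => Lo.poly hp) hZ)
      obtain ⟨x, b, hb, hx'⟩ := hW w hw
      have e : P * b = lf (a w) * (x * R) :=
        io_inj (by rw [map_mul, ← h7, ← mul_assoc, map_mul, ← hx']; ring)
      obtain ⟨P', rfl⟩ := ((hp w hw).dvd_or_dvd ⟨_, e⟩).resolve_right hb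
      have e1 := congrArg v h7
      rw [map_mul, h6, mul_one, map_mul, map_mul] at e1
      rw [map_mul, e1, one_pow, mul_one]
      exact (mul_le_of_le_one_right' (by simpa using v_lo hE le_rfl hx a4)).trans
        (mul_le_of_le_one_right' (c5 P'))
    generalize D + (Dw + m * (D₂ + D₁)) = Dy at hlt b1 b2
    have b3 := few hE hg j
    rw [← hh] at b3
    set B := W.filter fun w => v (io (lf (a w))) < h
    have b4 : v Q * h * h ^ (m * (Dy + 1)) ≤ 1 * h ^ (m * (Dy + 1)) := by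
      have c1 : h ^ (W.card - B.card) ≤ ∏ w ∈ W with ¬ v (io (lf (a w))) < h, v (io (lf (a w))) := by
        rw [← card_filter_add_card_filter_not (s := W) fun w => v (io (lf (a w))) < h,
          Nat.add_sub_cancel_left, ← prod_const]
        exact prod_le_prod' fun w hw => not_lt.1 (mem_filter.1 hw).2
      have c2 : v (Z * (Wr * Ψ ^ m)) ^ B.card ≤ (∏ w ∈ B, v (io (lf (a w)))) * (h ^ Dy) ^ B.card := by
        rw [← prod_const, ← prod_const, ← prod_mul_distrib]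
        exact prod_le_prod' fun w hw => b2 w (mem_filter.1 hw).1
      have c3 : B.card ≤ W.card := card_filter_le _ _
      rw [hQ, map_div₀, mul_assoc, div_mul_eq_mul_div,
        div_le_iff₀ (zero_lt_iff.2 ((map_ne_zero v).2 hp0)), map_prod, map_pow, ← pow_succ',
        ← prod_filter_mul_prod_filter_not W fun w => v (io (lf (a w))) < h]
      calc _ ≤ v (Z * (Wr * Ψ ^ m)) ^ B.card * v (Z * (Wr * Ψ ^ m)) ^ (m - B.card) *
            (h ^ (W.card - B.card) * h ^ m) := by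
            rw [← pow_add, ← pow_add, Nat.add_sub_cancel' b3]
            exact mul_le_mul' le_rfl (pow_le_pow_right' h2 (by omega))
        _ ≤ (∏ w ∈ B, v (io (lf (a w)))) * (h ^ Dy) ^ B.card * (h ^ Dy) ^ (m - B.card) *
            ((∏ w ∈ W with ¬ v (io (lf (a w))) < h, v (io (lf (a w)))) * h ^ m) := by gcongr
        _ = _ := by
            rw [mul_assoc _ _ ((h ^ Dy) ^ _), ← pow_add, Nat.add_sub_cancel' b3, mul_add, mul_one,
              pow_add, mul_comm m, pow_mul, one_mul, mul_mul_mul_comm, mul_comm]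
    have a5 := le_of_mul_le_mul_right b4 (pow_pos (zero_lt_one.trans_le h2) _)
    refine ⟨v, h1, hE, (le_mul_of_one_le_right' h2).trans a5, fun h3 => ?_⟩
    by_contra h4
    exact (h3.trans_le (hx c)).not_ge ((le_mul_of_one_le_left' (not_lt.1 h4)).trans a5)
  by_cases hq : ξ Q = 0
  · have hx : (io (X c) : LL m) ≠ 0 := io_ne (X_ne_zero c)
    obtain ⟨v, h1, h2, -, h3⟩ := key (y := (io (X c))⁻¹) (by
      rw [Derivation.leibniz_inv, smul_eq_mul]
      exact mul_ne_zero (neg_ne_zero.2 (pow_ne_zero _ (inv_ne_zero hx))) hc)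
    rw [map_inv₀, inv_lt_one₀ (zero_lt_iff.2 ((map_ne_zero v).2 hx))] at h1
    exact (h3 h1).ne (h2 Q hq hQ0)
  · obtain ⟨v, h1, -, h2, -⟩ := key (y := Q⁻¹) (by
      rw [Derivation.leibniz_inv, smul_eq_mul]
      exact mul_ne_zero (neg_ne_zero.2 (pow_ne_zero _ (inv_ne_zero hQ0))) hq)
    rw [map_inv₀, inv_lt_one₀ (zero_lt_iff.2 (by simpa using hQ0))] at h1
    exact h1.not_ge h2

end Pool.Agent.MP_57f271_lc.H4
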