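import Pool.Agent.MP_57f271_lc.H7.Alg

/-!
Derivations of a rational function field and polynomials of low degree over a subring.
-/

set_option autoImplicit false

namespace Pool.Agent.MP_57f271_lc.H4

open MvPolynomial Finset Pool.Agent.MP_57f271_lc.H7

variable {m : ℕ}

abbrev Dr (m : ℕ) : Type := Derivation ℂ (LL m) (LL m)

theorem io_C (c : ℂ) : io (C c : RR m) = algebraMap ℂ (LL m) c :=
  (IsScalarTower.algebraMap_apply ℂ (RR m) (LL m) c).symm

theorem der_C (D : Dr m) (c : ℂ) : D (io (C c)) = 0 := by rw [io_C, D.map_algebraMap]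

theorem der_io (D : Dr m) (p : RR m) : D (io p) = ∑ k, io (pderiv k p) * D (io (X k)) := by
  classical
  induction p using MvPolynomial.induction_on with
  | C c => simp [der_C]
  | add a b ha hb => simp only [map_add, ha, hb, add_mul, sum_add_distrib]
  | mul_X a j ha =>
    rw [map_mul, D.leibniz, ha]
    simp only [Derivation.leibniz, smul_eq_mul, map_add, map_mul, add_mul, sum_add_distrib, mul_sum,
      pderiv_X, Pi.single_apply, mul_assoc]
    congr 1
    rw [sum_eq_single j] <;> simp +contextual [eq_comm]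

theorem der_ext {D : Dr m} (h : ∀ k, D (io (X k)) = 0) : D = 0 := by
  have h1 : ∀ p, D (io p) = 0 := fun p => by simp [der_io D p, h]
  refine Derivation.ext fun z => ?_
  obtain ⟨a, b, -, rfl⟩ := IsFractionRing.div_surjective (A := RR m) z
  simp [Derivation.leibniz_div, h1]

theorem exists_der (c : Fin m → LL m) : ∃ D : Dr m, ∀ k, D (io (X k)) = c k := by
  classical
  refine ⟨Derivation.mk'
    { toFun := fun z => ∑ k, c k * grad z k
      map_add' := fun u v => by simp [grad_add, mul_add, sum_add_distrib]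
      map_smul' := fun a z => by
        rw [Algebra.smul_def, Algebra.smul_def, RingHom.id_apply, ← io_C, grad_mul, grad_C]
        simp only [smul_zero, add_zero, Pi.smul_apply, smul_eq_mul, mul_sum]
        exact sum_congr rfl fun k _ => by ring } fun u v => ?_, fun k => ?_⟩
  · simp only [LinearMap.coe_mk, AddHom.coe_mk, grad_mul, Pi.add_apply, Pi.smul_apply, smul_eq_mul,
      mul_sum, ← sum_add_distrib]
    exact sum_congr rfl fun k _ => by ring
  · simp [grad_io, pderiv_X, Pi.single_apply, apply_ite io]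

/-- A permutation of the variables. -/
noncomputable def sg (σ : Equiv.Perm (Fin m)) : LL m ≃ₐ[ℂ] LL m :=
  IsFractionRing.algEquivOfAlgEquiv (renameEquiv ℂ σ)

theorem sg_io (σ : Equiv.Perm (Fin m)) (p : RR m) : sg σ (io p) = io (rename σ p) :=
  IsFractionRing.algEquivOfAlgEquiv_algebraMap _ p

theorem exists_conj {K : Type} [Field K] [Algebra ℂ K] (e : K ≃ₐ[ℂ] K) (D : Derivation ℂ K K) :
    ∃ D' : Derivation ℂ K K, ∀ z, D' z = e.symm (D (e z)) :=
  ⟨Derivation.mk'
    { toFun := fun z => e.symm (D (e z))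
      map_add' := fun u v => by simp
      map_smul' := fun a z => by
        rw [map_smul e, D.map_smul, map_smul e.symm, RingHom.id_apply] } fun u v => by simp,
    fun _ => rfl⟩

section

variable {S : Type} [CommRing S] {φ : RR m →+* S} {A : Subring S} {d e : ℕ}

/-- Combinations of polynomials of degree at most `d` with coefficients in `A`. -/
def Lo (φ : RR m →+* S) (A : Subring S) (d : ℕ) : AddSubgroup S :=
  AddSubgroup.closure {z | ∃ a ∈ A, ∃ p : RR m, p.totalDegree ≤ d ∧ z = a * φ p}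

theorem Lo.gen {a : S} {p : RR m} (ha : a ∈ A) (hp : p.totalDegree ≤ d) : a * φ p ∈ Lo φ A d :=
  AddSubgroup.subset_closure ⟨a, ha, p, hp, rfl⟩

theorem Lo.poly {p : RR m} (hp : p.totalDegree ≤ d) : φ p ∈ Lo φ A d := by
  simpa using Lo.gen (φ := φ) A.one_mem hp

theorem Lo.const {a : S} (ha : a ∈ A) : a ∈ Lo φ A d := by
  simpa using Lo.gen (φ := φ) (d := d) (p := 1) ha (by simp)

theorem Lo.ind {P : S → Prop} (h0 : P 0) (h1 : ∀ a ∈ A, ∀ p : RR m, p.totalDegree ≤ d → P (a * φ p))
    (h2 : ∀ x y, P x → P y → P (x + y)) {z : S} (hz : z ∈ Lo φ A d) : P z := by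
  suffices P z ∧ P (-z) from this.1
  induction hz using AddSubgroup.closure_induction with
  | mem z hz =>
    obtain ⟨a, ha, p, hp, rfl⟩ := hz
    exact ⟨h1 a ha p hp, by simpa using h1 _ (A.neg_mem ha) p hp⟩
  | zero => simpa using h0
  | add x y _ _ hx hy => exact ⟨h2 _ _ hx.1 hy.1, by rw [neg_add]; exact h2 _ _ hx.2 hy.2⟩
  | neg x _ hx => exact ⟨hx.2, by simpa using hx.1⟩

theorem Lo.mono {z : S} (hz : z ∈ Lo φ A d) (h : d ≤ e) : z ∈ Lo φ A e :=
  Lo.ind (P := (· ∈ Lo φ A e)) (zero_mem _) (fun _ ha _ hp => Lo.gen ha (hp.trans h))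
    (fun _ _ => add_mem) hz

theorem Lo.mul {y z : S} (hy : y ∈ Lo φ A d) (hz : z ∈ Lo φ A e) : y * z ∈ Lo φ A (d + e) := by
  refine Lo.ind (P := fun y => y * z ∈ Lo φ A (d + e)) (by simp) (fun a ha p hp => ?_)
    (fun _ _ h h' => by simpa only [add_mul] using add_mem h h') hy
  refine Lo.ind (P := fun z => a * φ p * z ∈ Lo φ A (d + e)) (by simp) (fun b hb q hq => ?_)
    (fun _ _ h h' => by simpa only [mul_add] using add_mem h h') hz
  have := Lo.gen (φ := φ) (A.mul_mem ha hb) ((totalDegree_mul p q).trans (add_le_add hp hq))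
  rwa [map_mul, mul_mul_mul_comm] at this

theorem Lo.prod {ι : Type} (s : Finset ι) {f : ι → S} (h : ∀ i ∈ s, f i ∈ Lo φ A d) :
    ∏ i ∈ s, f i ∈ Lo φ A (s.card * d) := by
  classical
  induction s using Finset.induction_on with
  | empty => simpa using Lo.const A.one_mem
  | insert i s hi ih =>
    rw [prod_insert hi, card_insert_of_notMem hi, add_mul, one_mul, add_comm]
    exact Lo.mul (h i (mem_insert_self _ _)) (ih fun j hj => h j (mem_insert_of_mem hj))

theorem Lo.det {n : ℕ} (B : Matrix (Fin n) (Fin n) S) (h : ∀ i j, B i j ∈ Lo φ A d) :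
    B.det ∈ Lo φ A (n * d) := by
  rw [Matrix.det_apply]
  refine sum_mem fun σ _ => ?_
  rw [Units.smul_def]
  exact zsmul_mem (by simpa using Lo.prod univ fun i _ => h (σ i) i) _

theorem Lo.map {S' : Type} [CommRing S'] {φ' : RR m →+* S'} {A' : Subring S'} (ψ : S →+* S')
    (h1 : ∀ a ∈ A, ψ a ∈ A') (h2 : ∀ p : RR m, p.totalDegree ≤ d → ψ (φ p) ∈ Lo φ' A' d) {z : S}
    (hz : z ∈ Lo φ A d) : ψ z ∈ Lo φ' A' d :=
  Lo.ind (P := fun z => ψ z ∈ Lo φ' A' d) (by simp) (fun a ha p hp => by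
    simpa using Lo.mul (Lo.const (d := 0) (h1 a ha)) (h2 p hp))
    (fun _ _ h h' => by simpa only [map_add] using add_mem h h') hz

end

/-- The polynomial case. -/
noncomputable abbrev Lp (A : Subring (RR m)) (d : ℕ) : AddSubgroup (RR m) := Lo (RingHom.id _) A d

/-- The derivation vanishes on `A`. -/
def Kills (A : Subring (RR m)) (D : Dr m) : Prop := ∀ a ∈ A, D (io a) = 0

/-- Invariance under permutations of the variables. -/
def Sym (p : RR m) : Prop := ∀ σ : Equiv.Perm (Fin m), rename σ p = p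

variable {A : Subring (RR m)} {d e : ℕ}

theorem Lp.up {B : Subring (RR m)} (h : A ≤ B) {f : RR m} (hf : f ∈ Lp A d) : f ∈ Lp B d :=
  Lo.map (RingHom.id _) (fun _ ha => h ha) (fun _ hp => Lo.poly hp) hf

theorem Lp.rename (hA : ∀ a ∈ A, Sym a) (σ : Equiv.Perm (Fin m)) {f : RR m} (hf : f ∈ Lp A d) :
    rename σ f ∈ Lp A d :=
  Lo.map (φ := RingHom.id _) (φ' := RingHom.id _) (A := A) (A' := A)
    (MvPolynomial.rename σ : RR m →ₐ[ℂ] RR m).toRingHom
    (fun a ha => show MvPolynomial.rename σ a ∈ A from (hA a ha σ).symm ▸ ha)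
    (fun p hp => Lo.poly (φ := RingHom.id _) (p := MvPolynomial.rename σ p)
      ((totalDegree_rename_le σ p).trans hp)) hf

theorem Lp.grad {f : RR m} (hf : f ∈ Lp A d) : ∃ g : Fin m → RR m, (∀ k, g k ∈ Lp A d) ∧
    ∀ D, Kills A D → D (io f) = ∑ k, io (g k) * D (io (X k)) := by
  refine Lo.ind (P := fun f => ∃ g : Fin m → RR m, (∀ k, g k ∈ Lp A d) ∧
    ∀ D, Kills A D → D (io f) = ∑ k, io (g k) * D (io (X k))) ⟨0, by simp, by simp⟩
    (fun a ha p hp => ⟨fun k => a * pderiv k p,
      fun k => Lo.gen ha ((deg_pderiv k p).trans hp), fun D hD => ?_⟩) ?_ hf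
  · simp only [RingHom.id_apply, map_mul, Derivation.leibniz, hD a ha, smul_eq_mul, mul_zero,
      add_zero, der_io D p, mul_sum, mul_assoc]
  · rintro x y ⟨g, h1, h2⟩ ⟨g', h3, h4⟩
    exact ⟨g + g', fun k => add_mem (h1 k) (h3 k), fun D hD => by
      simp only [map_add, h2 D hD, h4 D hD, Pi.add_apply, add_mul, sum_add_distrib]⟩

/-- A polynomial vector field applied to a polynomial. -/
noncomputable def dl (M : Fin m → RR m) (p : RR m) : RR m := ∑ k, pderiv k p * M k

theorem der_dl {D : Dr m} {M : Fin m → RR m} (h : ∀ k, D (io (X k)) = io (M k)) (p : RR m) :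
    D (io p) = io (dl M p) := by
  simp only [der_io D p, h, dl, map_sum, map_mul]

theorem Lp.dl {D : Dr m} {M : Fin m → RR m} (h : ∀ k, D (io (X k)) = io (M k)) (hD : Kills A D)
    (hM : ∀ k, M k ∈ Lp A e) {f : RR m} (hf : f ∈ Lp A d) : dl M f ∈ Lp A (d + e) := by
  obtain ⟨g, h1, h2⟩ := Lp.grad hf
  have : H4.dl M f = ∑ k, g k * M k :=
    io_inj (by simp only [← der_dl h, h2 D hD, h, map_sum, map_mul])
  rw [this]
  exact sum_mem fun k _ => Lo.mul (h1 k) (hM k)

theorem Lo.der {E : Subring (LL m)} {D : Dr m} (hE : ∀ a ∈ E, D a = 0)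
    (hM : ∀ k, D (io (X k)) ∈ Lo io E e) {z : LL m} (hz : z ∈ Lo io E d) :
    D z ∈ Lo io E (d + e) := by
  refine Lo.ind (P := fun z => D z ∈ Lo io E (d + e)) (by simp) (fun a ha p hp => ?_)
    (fun _ _ h h' => by simpa only [map_add] using add_mem h h') hz
  simp only [Derivation.leibniz, hE a ha, smul_eq_mul, mul_zero, add_zero, der_io D p, mul_sum,
    ← mul_assoc]
  exact sum_mem fun k _ => Lo.mul (Lo.gen ha ((deg_pderiv k p).trans hp)) (hM k)

theorem kernel' {ι S : Type} [CommRing S] [Nontrivial S] (B : ι → Fin m → S) :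
    ∃ (n : ℕ) (β : Fin n → ι) (γ : Fin n → Fin m), Function.Injective β ∧
      (Matrix.of fun a b => B (β a) (γ b)).det ≠ 0 ∧ ∀ c, c ∉ univ.image γ →
      ∃ v : Fin m → S, v c = (Matrix.of fun a b => B (β a) (γ b)).det ∧
        (∀ k, k ∉ insert c (univ.image γ) → v k = 0) ∧ (∀ j, ∑ k, B j k * v k = 0) ∧
        ∀ G : AddSubgroup S, (∀ γ' : Fin n → Fin m,
          (Matrix.of fun a b => B (β a) (γ' b)).det ∈ G) → ∀ k, v k ∈ G := by
  classical
  let Q : ℕ → Prop := fun n => ∃ (β : Fin n → ι) (γ : Fin n → Fin m),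
    (Matrix.of fun a b => B (β a) (γ b)).det ≠ 0
  have hI : ∀ n (β : Fin n → ι) (γ : Fin n → Fin m),
      (Matrix.of fun a b => B (β a) (γ b)).det ≠ 0 → Function.Injective β :=
    fun n β γ hβ a b hab => by
      by_contra hne
      exact hβ (Matrix.det_zero_of_row_eq hne (funext fun r => by simp [hab]))
  have h0 : Q 0 := ⟨Fin.elim0, Fin.elim0, by simp⟩
  obtain ⟨β, γ, hβ⟩ : Q (Nat.findGreatest Q m) := Nat.findGreatest_spec (Nat.zero_le _) h0
  have hmax : ¬ Q (Nat.findGreatest Q m + 1) := fun h =>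
    Nat.findGreatest_is_greatest (Nat.lt_succ_self _) (by
      obtain ⟨β', γ', h'⟩ := h
      simpa using Fintype.card_le_of_injective γ' fun a b hab => by_contra fun hne =>
        h' (Matrix.det_zero_of_column_eq hne fun r => by simp [hab])) h
  generalize Nat.findGreatest Q m = n at β γ hβ hmax
  refine ⟨n, β, γ, hI _ _ _ hβ, hβ, fun i hi => ?_⟩
  let γ' : Fin (n + 1) → Fin m := Fin.cons i γ
  let d : Fin (n + 1) → S := fun b =>
    (-1) ^ (b : ℕ) * (Matrix.of fun a b' => B (β a) (γ' (b.succAbove b'))).det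
  refine ⟨fun k => ∑ b, if γ' b = k then d b else 0, ?_, fun k hk => ?_, fun j => ?_,
    fun G hG k => sum_mem fun b _ => ?_⟩
  · have h1 : ∀ b, ¬ γ b = i := fun b hb => hi (mem_image.2 ⟨b, mem_univ _, hb⟩)
    simp [Fin.sum_univ_succ, d, γ', h1]
  · refine sum_eq_zero fun b _ => if_neg fun h => hk ?_
    rw [← h]
    refine Fin.cases (mem_insert_self _ _) (fun b => mem_insert_of_mem ?_) b
    exact mem_image.2 ⟨b, mem_univ _, rfl⟩
  · have h1 := not_not.1 fun h1 => hmax ⟨Fin.cons j β, γ', h1⟩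
    rw [Matrix.det_succ_row_zero] at h1
    simp only [mul_sum, mul_ite, mul_zero]
    rw [sum_comm]
    simp only [sum_ite_eq, mem_univ, if_true]
    refine Eq.trans (sum_congr rfl fun b _ => ?_) h1
    simp only [d, Matrix.of_apply, Fin.cons_zero]
    rw [mul_left_comm, ← mul_assoc]
    rfl
  · split_ifs
    · rcases neg_one_pow_eq_or S (b : ℕ) with h | h <;> simp only [d, h, one_mul, neg_mul]
      exacts [hG _, neg_mem (hG _)]
    · exact zero_mem _

end Pool.Agent.MP_57f271_lc.H4
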