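import Pool.Agent.MP_57f271_lc.H4.Place
import Pool.Agent.MP_57f271_lc.H4.Der

/-!
Counting parallel hyperplanes along the integral curves of a symmetric vector field.
-/

set_option autoImplicit false

namespace Pool.Agent.MP_57f271_lc.H4

open MvPolynomial Finset Pool.Agent.MP_57f271_lc.H7 WithZero

section

variable {K : Type} [Field K] [Algebra ℂ K]

/-- The constants of a derivation. -/
def kf (ξ : Derivation ℂ K K) : IntermediateField ℂ K where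
  carrier := {x | ξ x = 0}
  mul_mem' := fun {a b} (h : ξ a = 0) (k : ξ b = 0) => show ξ (a * b) = 0 by simp [h, k]
  add_mem' := fun {a b} (h : ξ a = 0) (k : ξ b = 0) => show ξ (a + b) = 0 by simp [h, k]
  algebraMap_mem' := fun c => ξ.map_algebraMap c
  inv_mem' := fun a (h : ξ a = 0) => show ξ a⁻¹ = 0 by simp [Derivation.leibniz_inv, h]

/-- The constants of a derivation, as a ring. -/
def kr (ξ : Derivation ℂ K K) : Subring K := (kf ξ).toSubalgebra.toSubring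

theorem mem_kr {ξ : Derivation ℂ K K} {z : K} : z ∈ kr ξ ↔ ξ z = 0 := Iff.rfl

theorem place [Algebra.EssFiniteType ℂ K] (ξ : Derivation ℂ K K)
    (hu : ∀ D : Derivation ℂ K K, (∀ z, ξ z = 0 → D z = 0) → ∃ a, ∀ z, D z = a * ξ z) {y : K}
    (hy : ξ y ≠ 0) : ∃ (v : Valuation K ℤᵐ⁰) (lam : ℤᵐ⁰), lam ≠ 0 ∧ v y < 1 ∧
      (∀ e, ξ e = 0 → e ≠ 0 → v e = 1) ∧ ∀ z, v z < 1 → v (ξ z) = lam * v z := by
  have : CharZero (kf ξ) := charZero_of_injective_algebraMap (algebraMap ℂ _).injective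
  have : Algebra.EssFiniteType (kf ξ) K := Algebra.EssFiniteType.of_comp ℂ _ _
  let ξ' : Derivation (kf ξ) K K := Derivation.mk'
    { toFun := ξ
      map_add' := map_add ξ
      map_smul' := fun a x => by
        have : ξ a = 0 := a.2
        simp [IntermediateField.smul_def, this] } fun a b => ξ.leibniz a b
  obtain ⟨v, lam, h1, h2, h3, h4⟩ := exists_place ξ' (y := y) hy fun D hD => by
    obtain ⟨a, ha⟩ := hu (D.restrictScalars ℂ) fun z hz => D.map_algebraMap ⟨z, hz⟩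
    have h0 : a = 0 := (mul_eq_zero.1 ((ha y).symm.trans hD)).resolve_right hy
    exact Derivation.ext fun z => (ha z).trans (by simp [h0])
  exact ⟨v, lam, h1, h2, fun e he h0 => h3 ⟨e, he⟩ fun h => h0 (congrArg Subtype.val h), h4⟩

end

variable {m : ℕ}

theorem pi_dvd {i : Fin m} {w : ℂ} {a : RR m} : H7.pi i w ∣ a ↔ res i w a = 0 :=
  ⟨fun ⟨b, hb⟩ => by rw [hb, map_mul, res_pi, zero_mul], fun h => by
    simpa [h] using dvd_sub_res i w a⟩

theorem pi_prime (i : Fin m) (w : ℂ) : Prime (H7.pi i w) :=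
  ⟨fun h => by simpa [H7.pi, pderiv_X] using congrArg (pderiv i) h,
    fun h => (h.map (res i w)).ne_zero (res_pi i w), fun a b h => by
      simpa only [pi_dvd, map_mul, mul_eq_zero] using h⟩

theorem rename_pi (σ : Equiv.Perm (Fin m)) (i : Fin m) (w : ℂ) :
    rename σ (H7.pi i w) = H7.pi (σ i) w := by simp [H7.pi]

theorem pi_dvd_rename (σ : Equiv.Perm (Fin m)) (i : Fin m) (w : ℂ) (a : RR m) :
    H7.pi (σ i) w ∣ rename σ a ↔ H7.pi i w ∣ a := by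
  rw [← rename_pi]
  exact map_dvd_iff (renameEquiv ℂ σ)

theorem der_pi (D : Dr m) (i : Fin m) (w : ℂ) : D (io (H7.pi i w)) = D (io (X i)) := by
  simp [H7.pi, der_C]

variable {ξ : Dr m} {v : Valuation (LL m) ℤᵐ⁰} {h lam : ℤᵐ⁰} {M : Fin m → RR m}

theorem v_const (hE : ∀ e, ξ e = 0 → e ≠ 0 → v e = 1) {e : LL m} (he : ξ e = 0) : v e ≤ 1 := by
  rcases eq_or_ne e 0 with rfl | h0
  · simp
  · exact (hE e he h0).le

theorem v_poly (hE : ∀ e, ξ e = 0 → e ≠ 0 → v e = 1) (h1 : 1 ≤ h) (hx : ∀ k, v (io (X k)) ≤ h)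
    {d : ℕ} {p : RR m} (hp : p.totalDegree ≤ d) : v (io p) ≤ h ^ d := by
  rw [p.as_sum, map_sum]
  refine v.map_sum_le fun s hs => ?_
  rw [monomial_eq, map_mul, map_mul]
  refine mul_le_of_le_one_of_le (v_const hE (der_C ξ _)) ?_
  refine le_trans ?_ (pow_le_pow_right' h1 ((le_totalDegree hs).trans hp))
  simp only [Finsupp.prod, Finsupp.sum, map_prod, map_pow, ← prod_pow_eq_pow_sum]
  exact prod_le_prod' fun k _ => pow_le_pow_left' (hx k) _

theorem v_lo (hE : ∀ e, ξ e = 0 → e ≠ 0 → v e = 1) (h1 : 1 ≤ h) (hx : ∀ k, v (io (X k)) ≤ h)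
    {d : ℕ} {z : LL m} (hz : z ∈ Lo io (kr ξ) d) : v z ≤ h ^ d :=
  Lo.ind (P := fun z => v z ≤ h ^ d) (by simp) (fun a ha p hp => by
    rw [map_mul]
    exact mul_le_of_le_one_of_le (v_const hE ha) (v_poly hE h1 hx hp))
    (fun _ _ => v.map_add_le) hz

theorem darboux (hE : ∀ e, ξ e = 0 → e ≠ 0 → v e = 1) (hx : ∀ k, v (io (X k)) ≤ 1)
    (hM : ∀ k, ξ (io (X k)) = io (M k)) (hl : 1 < lam) (hv : ∀ z, v z < 1 → v (ξ z) = lam * v z)
    {d : ℕ} {z : LL m} (hz : z ∈ Lo io (kr ξ) d) : ∃ P Q, v (io Q) = 1 ∧ z * io Q = io P := by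
  have h1 : ∀ p, v (io p) ≤ 1 := fun p => by simpa using v_poly hE le_rfl hx (le_refl p.totalDegree)
  refine Lo.ind (P := fun z => ∃ P Q, v (io Q) = 1 ∧ z * io Q = io P) ⟨0, 1, by simp, by simp⟩
    (fun a ha p _ => ?_) ?_ hz
  · obtain ⟨P, Q, hc, rfl⟩ := IsFractionRing.exists_reduced_fraction (A := RR m) a
    have hQ : io Q.1 ≠ 0 := io_ne (nonZeroDivisors.ne_zero Q.2)
    have e : IsLocalization.mk' (LL m) P Q * io Q.1 = io P := IsLocalization.mk'_spec _ _ _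
    generalize IsLocalization.mk' (LL m) P Q = a at ha e
    refine ⟨P * p, Q, (h1 _).eq_or_lt.resolve_right fun hlt => ?_, by rw [map_mul, ← e]; ring⟩
    have e1 := congrArg ξ e
    rw [Derivation.leibniz, mem_kr.1 ha, smul_zero, add_zero, smul_eq_mul, der_dl hM,
      der_dl hM] at e1
    have e2 : P * dl M Q = Q * dl M P := io_inj (by rw [map_mul, map_mul, ← e, ← e1]; ring)
    obtain ⟨t, ht⟩ := hc.symm.dvd_of_dvd_mul_left ⟨_, e2⟩
    have e3 := hv _ hlt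
    rw [der_dl hM, ht, map_mul, map_mul, mul_comm lam] at e3
    exact (h1 t).not_gt (mul_left_cancel₀ ((map_ne_zero v).2 hQ) e3 ▸ hl)
  · rintro x y ⟨P, Q, h2, h3⟩ ⟨P', Q', h4, h5⟩
    exact ⟨P * Q' + P' * Q, Q * Q', by simp [h2, h4], by
      simp only [map_add, map_mul, ← h3, ← h5]; ring⟩

theorem loc (hE : ∀ e, ξ e = 0 → e ≠ 0 → v e = 1) (hv : ∀ z, v z < 1 → v (ξ z) = lam * v z)
    {D D₁ : ℕ} (hM1 : ∀ k, ξ (io (X k)) ∈ Lo io (kr ξ) D₁)
    {k₀ : Fin m} (hk : ∀ k, v (io (X k)) ≤ v (io (X k₀))) (i : Fin m) {Z : LL m}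
    (hZ : Z ∈ Lo io (kr ξ) D) (W : Finset ℂ)
    (hW : ∀ w ∈ W, (∀ k, v (io (X k)) ≤ 1) → 1 < lam → 1 ≤ lam * v (io (H7.pi i w)) →
      v Z ≤ v (io (H7.pi i w))) :
    v Z * v (ξ (io (X i))) ^ 2 * max 1 (v (io (X i))) ^ W.card ≤
      max 1 (v (io (X k₀))) ^ (D + 2 * D₁) * ∏ w ∈ W, v (io (H7.pi i w)) := by
  set h := max 1 (v (io (X k₀))) with hh
  have h1 : 1 ≤ h := le_max_left _ _
  have hx : ∀ k, v (io (X k)) ≤ h := fun k => (hk k).trans (le_max_right _ _)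
  have a1 := v_lo hE h1 hx hZ
  have a2 := fun k => v_lo hE h1 hx (hM1 k)
  have a3 : v Z * v (ξ (io (X i))) ^ 2 ≤ h ^ (D + 2 * D₁) := by
    rw [pow_add, mul_comm 2, pow_mul]
    exact mul_le_mul' a1 (pow_le_pow_left' (a2 i) _)
  have hC := fun w => v_const hE (der_C ξ w)
  rcases lt_or_ge 1 (v (io (X i))) with hi | hi
  · rw [max_eq_right hi.le, prod_eq_pow_card (b := v (io (X i))) fun w _ => ?_]
    · exact mul_le_mul' a3 le_rfl
    · rw [H7.pi, map_sub]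
      exact v.map_sub_eq_of_lt_left ((hC w).trans_lt hi)
  rw [max_eq_left hi, one_pow, mul_one]
  have b1 : ∀ w, v (io (H7.pi i w)) ≤ 1 := fun w => by
    rw [H7.pi, map_sub]
    exact v.map_sub_le hi (hC w)
  by_cases hw : ∀ w ∈ W, v (io (H7.pi i w)) = 1
  · rwa [prod_eq_one hw, mul_one]
  obtain ⟨w, hw, b2⟩ : ∃ w ∈ W, v (io (H7.pi i w)) < 1 := by
    push Not at hw
    exact hw.imp fun w h => ⟨h.1, (b1 w).lt_of_ne h.2⟩
  rw [prod_eq_single_of_mem w hw fun w' _ hne => ?_]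
  swap
  · have e : io (H7.pi i w') = io (C (w - w')) + io (H7.pi i w) := by simp [H7.pi]
    have e1 : v (io (C (w - w') : RR m)) = 1 :=
      hE _ (der_C ξ _) (io_ne (by rw [Ne, C_eq_zero, sub_eq_zero]; exact hne.symm))
    rw [e, v.map_add_eq_of_lt_left (e1 ▸ b2), e1]
  have b3 := hv _ b2
  rw [der_pi] at b3
  have fin : lam * v (ξ (io (X i))) ≤ h ^ (2 * D₁) →
      v Z * v (ξ (io (X i))) ^ 2 ≤ h ^ (D + 2 * D₁) * v (io (H7.pi i w)) := fun h2 => by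
    rw [pow_add, mul_assoc, sq]
    refine mul_le_mul' a1 ?_
    nth_rewrite 2 [b3]
    rw [← mul_assoc, mul_comm _ lam]
    exact mul_le_mul' h2 le_rfl
  rcases lt_or_ge (v (ξ (io (X i)))) 1 with hm | hm
  · refine fin ?_
    rw [← hv _ hm, two_mul]
    exact v_lo hE h1 hx (Lo.der (fun _ => mem_kr.1) hM1 (hM1 i))
  rcases lt_or_ge 1 (v (io (X k₀))) with h2 | h2
  · refine fin ?_
    have h0 : v (io (X k₀)) ≠ 0 := (zero_lt_one.trans h2).ne'
    have b4 := hv (io (X k₀))⁻¹ (by rw [map_inv₀]; exact inv_lt_one_of_one_lt₀ h2)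
    rw [Derivation.leibniz_inv, smul_eq_mul, map_mul, Valuation.map_neg, map_pow,
      map_inv₀] at b4
    have b5 : lam * v (io (X k₀)) = v (ξ (io (X k₀))) := by
      field_simp at b4
      rw [b4, mul_comm]
    rw [two_mul, pow_add]
    exact mul_le_mul' ((le_mul_of_one_le_right' h2.le).trans (b5 ▸ a2 k₀)) (a2 i)
  · have h3 : h = 1 := max_eq_left h2
    rw [h3] at a2 hx
    have hl : 1 < lam := by
      by_contra h4
      exact (b3 ▸ hm).not_gt ((mul_le_of_le_one_left' (not_lt.1 h4)).trans_lt b2)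
    rw [h3, one_pow, one_mul]
    exact (mul_le_of_le_one_right' (pow_le_one' (by simpa using a2 i) _)).trans
      (hW w hw hx hl (b3 ▸ hm))

theorem last (hE : ∀ e, ξ e = 0 → e ≠ 0 → v e = 1) (hv : ∀ z, v z < 1 → v (ξ z) = lam * v z)
    {D D₁ D₂ : ℕ} (hM1 : ∀ k, ξ (io (X k)) ∈ Lo io (kr ξ) D₁) {Ψ Z : LL m}
    (hΨ : Ψ ∈ Lo io (kr ξ) D₂) (hZ : Z ∈ Lo io (kr ξ) D)
    (hd : (∀ p, v (io p) ≤ 1) → v Ψ = 1 →
      ∃ (s : RR m) (N : Fin m → RR m), v (io s) = 1 ∧ ∀ k, io s * ξ (io (X k)) = io (N k))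
    {i : Fin m} {w : ℂ} {a b : RR m} (hb : ¬ H7.pi i w ∣ b) (ha : Z * io b = io (H7.pi i w * a))
    (hx : ∀ k, v (io (X k)) ≤ 1) (hl : 1 < lam) (h1 : 1 ≤ lam * v (io (H7.pi i w))) :
    v (Z * Ψ) ≤ v (io (H7.pi i w)) := by
  have hp : ∀ p, v (io p) ≤ 1 := fun p => by simpa using v_poly hE le_rfl hx (le_refl p.totalDegree)
  have a1 : v Ψ ≤ 1 := by simpa using v_lo hE le_rfl hx hΨ
  rw [map_mul]
  rcases a1.eq_or_lt with h2 | h2
  · obtain ⟨s, N, h3, h4⟩ := hd hp h2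
    have h5 : io s ≠ 0 := fun h => by simp [h] at h3
    obtain ⟨P, Q, h6, h7⟩ := darboux (ξ := io s • ξ) (lam := lam) (d := D) (z := Z)
      (fun e he => hE e ((mul_eq_zero.1 he).resolve_left h5)) hx h4 hl
      (fun z hz => by rw [← hv z hz, ← one_mul (v (ξ z)), ← h3, ← map_mul]; rfl)
      (Lo.map (φ := io) (φ' := io) (A := kr ξ) (RingHom.id _) (fun a ha => show io s * ξ a = 0 by
        rw [mem_kr.1 ha, mul_zero]) (fun _ hp => Lo.poly hp) hZ)
    have e : P * b = H7.pi i w * (a * Q) :=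
      io_inj (by rw [map_mul, ← h7, ← mul_assoc, map_mul, ← ha]; ring)
    obtain ⟨P', rfl⟩ := ((pi_prime i w).dvd_or_dvd ⟨_, e⟩).resolve_right hb
    have e1 := congrArg v h7
    rw [map_mul, h6, mul_one, map_mul, map_mul] at e1
    rw [h2, mul_one, e1]
    exact mul_le_of_le_one_right' (hp P')
  · refine mul_le_of_le_one_of_le (by simpa using v_lo hE le_rfl hx hZ)
      (le_of_mul_le_mul_left (le_trans ?_ h1) (zero_lt_one.trans hl))
    rw [← hv _ h2]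
    simpa using v_lo hE le_rfl hx (Lo.der (fun _ => mem_kr.1) hM1 hΨ)

theorem count' {I : Finset (Fin m)} {c : Fin m} (hc : ξ (io (X c)) ≠ 0)
    (hI : ∀ k, k ∉ I → ξ (io (X k)) = 0) {D D₁ D₂ : ℕ}
    (hM1 : ∀ k, ξ (io (X k)) ∈ Lo io (kr ξ) D₁)
    (hu : ∀ D : Dr m, (∀ z, ξ z = 0 → D z = 0) → ∃ a, ∀ z, D z = a * ξ z)
    (hs : ∀ i ∈ I, ∀ z, ξ z = 0 → ξ (sg (Equiv.swap c i) z) = 0) {Ψ : LL m}
    (hΨ : Ψ ∈ Lo io (kr ξ) D₂) (hΨ0 : Ψ ≠ 0)
    (hd : ∀ v : Valuation (LL m) ℤᵐ⁰, (∀ e, ξ e = 0 → e ≠ 0 → v e = 1) → (∀ p, v (io p) ≤ 1) →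
      v Ψ = 1 →
      ∃ (s : RR m) (N : Fin m → RR m), v (io s) = 1 ∧ ∀ k, io s * ξ (io (X k)) = io (N k))
    {Z : LL m} (hZ : Z ∈ Lo io (kr ξ) D) (hZ0 : Z ≠ 0) (W : Finset ℂ)
    (hW : ∀ w ∈ W, ∃ a b, ¬ H7.pi c w ∣ b ∧ Z * io b = io (H7.pi c w * a)) :
    W.card ≤ I.card * (D + D₂ + 2 * D₁) := by
  classical
  have : Algebra.EssFiniteType (RR m) (LL m) :=
    Algebra.EssFiniteType.of_isLocalization _ (nonZeroDivisors (RR m))
  have : Algebra.EssFiniteType ℂ (LL m) := Algebra.EssFiniteType.comp ℂ (RR m) (LL m)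
  by_contra hlt
  rw [not_le] at hlt
  set I' := I.filter fun i => ξ (io (X i)) ≠ 0 with hI'
  set Q : LL m := ∏ i ∈ I', sg (Equiv.swap c i) Z * Ψ * ξ (io (X i)) ^ 2 /
    ∏ w ∈ W, io (H7.pi i w) with hQ
  have hp : ∀ i : Fin m, ∏ w ∈ W, io (H7.pi i w) ≠ 0 := fun i =>
    prod_ne_zero_iff.2 fun w _ => io_ne (pi_prime i w).ne_zero
  have hQ0 : Q ≠ 0 := prod_ne_zero_iff.2 fun i hi => div_ne_zero (mul_ne_zero (mul_ne_zero
    ((map_ne_zero_iff _ (sg _).injective).2 hZ0) hΨ0) (pow_ne_zero _ (mem_filter.1 hi).2)) (hp i)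
  have key : ∀ {y : LL m}, ξ y ≠ 0 → ∃ v : Valuation (LL m) ℤᵐ⁰, v y < 1 ∧
      (∀ e, ξ e = 0 → e ≠ 0 → v e = 1) ∧ v Q ≤ 1 ∧ (1 < v (io (X c)) → v Q < 1) := by
    intro y hy
    obtain ⟨v, lam, h0, h1, hE, hv⟩ := place ξ hu hy
    obtain ⟨k₀, -, hk⟩ := exists_max_image univ (fun k => v (io (X k))) ⟨c, mem_univ _⟩
    set h := max 1 (v (io (X k₀))) with hh
    have h2 : 1 ≤ h := le_max_left _ _
    have a1 : ∀ i ∈ I', v (sg (Equiv.swap c i) Z * Ψ * ξ (io (X i)) ^ 2 /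
        ∏ w ∈ W, io (H7.pi i w)) * max 1 (v (io (X i))) ^ W.card ≤ h ^ (D + D₂ + 2 * D₁) :=
      fun i hi => by
      have a0 : sg (Equiv.swap c i) Z ∈ Lo io (kr ξ) D :=
        Lo.map (φ := io) (φ' := io) (A := kr ξ) (A' := kr ξ) (sg (Equiv.swap c i)).toRingHom
          (hs i (mem_filter.1 hi).1) (fun p hp => by
            rw [show (sg (Equiv.swap c i)).toRingHom (io p) = _ from sg_io _ p]
            exact Lo.poly ((totalDegree_rename_le _ p).trans hp)) hZ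
      have := loc hE hv hM1 (fun k => hk k (mem_univ _)) i (Lo.mul a0 hΨ) W fun w hw => by
        obtain ⟨a, b, h3, h4⟩ := hW w hw
        refine last hE hv hM1 hΨ a0 (hd v hE) (a := rename (Equiv.swap c i) a)
          (b := rename (Equiv.swap c i) b) (fun h5 => h3 ?_) ?_
        · rwa [← pi_dvd_rename (Equiv.swap c i), Equiv.swap_apply_left]
        · have := congrArg (sg (Equiv.swap c i)) h4
          rwa [map_mul, sg_io, sg_io, map_mul, rename_pi, Equiv.swap_apply_left] at this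
      rw [map_div₀, map_mul, map_pow, div_mul_eq_mul_div,
        div_le_iff₀ (zero_lt_iff.2 ((map_ne_zero v).2 (hp i))), map_prod]
      exact this
    have a2 := prod_le_prod' a1
    rw [prod_mul_distrib, ← map_prod, prod_pow, prod_const, ← pow_mul] at a2
    have a3 : h ≤ ∏ i ∈ I', max 1 (v (io (X i))) := by
      rcases lt_or_ge 1 (v (io (X k₀))) with h3 | h3
      · refine single_le_prod' (f := fun i => max 1 (v (io (X i)))) (fun i _ => le_max_left _ _) ?_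
        have b4 := hv (io (X k₀))⁻¹ (by rw [map_inv₀]; exact inv_lt_one_of_one_lt₀ h3)
        have b5 : ξ (io (X k₀)) ≠ 0 := fun h4 => by
          rw [Derivation.leibniz_inv, h4, smul_zero, map_zero, map_inv₀] at b4
          exact mul_ne_zero h0 (inv_ne_zero (zero_lt_one.trans h3).ne') b4.symm
        exact mem_filter.2 ⟨by_contra fun h4 => b5 (hI _ h4), b5⟩
      · rw [hh, max_eq_left h3]
        exact one_le_prod' fun i _ => le_max_left _ _
    have a4 : v Q * h * h ^ (I.card * (D + D₂ + 2 * D₁)) ≤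
        1 * h ^ (I.card * (D + D₂ + 2 * D₁)) := by
      rw [mul_assoc, ← pow_succ', one_mul]
      refine le_trans (mul_le_mul' le_rfl ((pow_le_pow_right' h2 hlt).trans
        (pow_le_pow_left' a3 _))) (a2.trans (pow_le_pow_right' h2 ?_))
      rw [mul_comm]
      exact Nat.mul_le_mul_right _ (card_filter_le _ _)
    have a5 := le_of_mul_le_mul_right a4 (pow_pos (zero_lt_one.trans_le h2) _)
    refine ⟨v, h1, hE, (le_mul_of_one_le_right' h2).trans a5, fun h3 => ?_⟩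
    by_contra h4
    exact (h3.trans_le ((hk c (mem_univ _)).trans (le_max_right 1 _))).not_ge
      ((le_mul_of_one_le_left' (not_lt.1 h4)).trans a5)
  by_cases hq : ξ Q = 0
  · have hx : (io (X c) : LL m) ≠ 0 := io_ne (X_ne_zero c)
    obtain ⟨v, h1, h2, -, h3⟩ := key (y := (io (X c))⁻¹) (by
      rw [Derivation.leibniz_inv, smul_eq_mul]
      exact mul_ne_zero (neg_ne_zero.2 (pow_ne_zero _ (inv_ne_zero hx))) hc)
    rw [map_inv₀, inv_lt_one₀ (zero_lt_iff.2 ((map_ne_zero v).2 hx))] at h1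
    exact (h3 h1).ne (h2 Q hq hQ0)
  · obtain ⟨v, h1, -, h2, -⟩ := key (y := Q⁻¹) (by
      rw [Derivation.leibniz_inv, smul_eq_mul]
      exact mul_ne_zero (neg_ne_zero.2 (pow_ne_zero _ (inv_ne_zero hQ0))) hq)
    rw [map_inv₀, inv_lt_one₀ (zero_lt_iff.2 (by simpa using hQ0))] at h1
    exact h1.not_ge h2

theorem count (hM : ∀ k, ξ (io (X k)) = io (M k)) {I : Finset (Fin m)} {c : Fin m}
    (hc : M c ≠ 0) (hI : ∀ k, k ∉ I → M k = 0) {D D₁ : ℕ}
    (hM1 : ∀ k, io (M k) ∈ Lo io (kr ξ) D₁)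
    (hu : ∀ D : Dr m, (∀ z, ξ z = 0 → D z = 0) → ∃ a, ∀ z, D z = a * ξ z)
    (hs : ∀ i ∈ I, ∀ z, ξ z = 0 → ξ (sg (Equiv.swap c i) z) = 0) {Z : LL m}
    (hZ : Z ∈ Lo io (kr ξ) D) (hZ0 : Z ≠ 0) (W : Finset ℂ)
    (hW : ∀ w ∈ W, ∃ a b, ¬ H7.pi c w ∣ b ∧ Z * io b = io (H7.pi c w * a)) :
    W.card ≤ I.card * (D + 2 * D₁) :=
  count' (D₂ := 0) (hM c ▸ io_ne hc) (fun k hk => by rw [hM, hI k hk, map_zero])
    (fun k => hM k ▸ hM1 k) hu hs (Lo.const (one_mem _)) one_ne_zero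
    (fun v _ _ _ => ⟨1, M, by simp, by simpa using hM⟩) hZ hZ0 W hW

end Pool.Agent.MP_57f271_lc.H4
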