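import Pool.Agent.MP_57f271_lc.H7.Defs

namespace Pool.Agent.MP_57f271_lc.H4

open Pool.Agent.MP_57f271_lc.H18 Pool.Agent.MP_57f271_lc.H7

/-- `n` variables, one polynomial of degree `d` followed by `n` polynomials of degree `2`. -/
def Format (n d : ℕ) (S : System) : Prop :=
  S.n = n ∧ S.k = n + 1 ∧ ∀ i, S.deg i = if i.1 = 0 then d else 2

/-- The machine halts with the right answer on every system of this format. -/
def Decides (M : Machine) (E : Encoding) (n d : ℕ) : Prop :=
  ∀ S, Format n d S → ∃ t b, M.Outputs (E.state S) t b ∧ (b = true ↔ S.Feasible)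

/-- The node and the numerical state after `t` steps on the system `S`. -/
noncomputable def run (M : Machine) (E : Encoding) (S : System) (t : ℕ) : Fin M.m × (ℤ → ℂ) :=
  M.step^[t] (M.start, E.state S)

/-- The instruction branches on the entry `a` or divides by it. -/
def Tested {Q : Type} (I : Instr Q) (a : ℤ) : Prop :=
  (∃ y n, I = .branch a y n) ∨ ∃ i k q, I = .arith .div i a k q

/-- The number of branchings and divisions among the first `t` steps on the system `S`. -/
noncomputable def tests (M : Machine) (E : Encoding) (S : System) (t : ℕ) : ℕ :=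
  Set.ncard {i | i < t ∧ ∃ a, Tested (M.instr (run M E S i).1) a}

/-- Rational functions of the coefficients of systems of the format of `S`. -/
abbrev RF (S : System) : Type := FractionRing (MvPolynomial (Slot S.n S.k S.deg) ℂ)

/-- The value of a polynomial in the coefficients at the system `S`. -/
noncomputable def valAt (S : System) (a : MvPolynomial (Slot S.n S.k S.deg) ℂ) : ℂ :=
  MvPolynomial.eval (fun s => MvPolynomial.coeff s.2.1 (S.f s.1)) a

/-- The rational function `v` has a numerator that does not vanish at `S`. -/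
def NonzeroAt (S : System) (v : RF S) : Prop :=
  ∃ a b, valAt S a ≠ 0 ∧ v * toFrac b = toFrac a

/-- Multiples, by functions defined at `S`, of the entries whose numerical value is `0`. -/
def Null (M : Machine) (E : Encoding) (S : System) : Set (RF S) :=
  {y | ∃ j i a b, (run M E S j).2 i = 0 ∧ valAt S b ≠ 0 ∧
    y * toFrac b = sym M E S j i * toFrac a}

/-- Products of members of `A` and of inverses of members of `A` that do not vanish at `S`. -/
noncomputable def mon (S : System) (A : Set (RF S)) : Submonoid (RF S) :=
  Submonoid.closure {u | u ∈ A ∨ (u⁻¹ ∈ A ∧ NonzeroAt S u⁻¹)}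

/-- The ring `ℂ[G]` generated by `G`. -/
def gen {K : Type} [CommRing K] [Algebra ℂ K] (G : Set K) : Set K := Algebra.adjoin ℂ G

/-- Linear combinations of members of `P` with coefficients in `ℂ[R]`. -/
def comb {K : Type} [CommRing K] [Algebra ℂ K] (R P : Set K) : Set K :=
  Submodule.span (Algebra.adjoin ℂ R) P

/-- The transcendence degree of `ℂ[A]` over `ℂ`. -/
noncomputable def trd {K : Type} [CommRing K] [Algebra ℂ K] (A : Set K) : Cardinal :=
  Algebra.trdeg ℂ (Algebra.adjoin ℂ A)

/-- A polynomial of degree at most `D` in the indeterminates with coefficients in `ℂ[R]`. -/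
def Low {σ : Type} (D : ℕ) (R : Set (FractionRing (MvPolynomial σ ℂ)))
    (v : FractionRing (MvPolynomial σ ℂ)) : Prop :=
  v ∈ comb R {u | ∃ a : MvPolynomial σ ℂ, a.totalDegree ≤ D ∧ u = toFrac a}

/-- `y` is a linear combination of `τ` products of members of `A`. -/
def Wide (S : System) (A : Set (RF S)) (τ : ℕ) (y : RF S) : Prop :=
  ∃ (c : Fin τ → ℂ) (μ : Fin τ → RF S), (∀ u, μ u ∈ mon S A) ∧ y = ∑ u, c u • μ u

/-- Factors `f 0, …, f (l - 1)`, where `f i` has degree at most `D` over the ring generated by
`N` and a set `R i` of products of earlier factors. -/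
def Tower (S : System) (N : Set (RF S)) (D l : ℕ) (f : ℕ → RF S) (R : ℕ → Set (RF S)) : Prop :=
  (∀ i ≤ l, R i ⊆ mon S (f '' Set.Iio i)) ∧ ∀ i < l, Low D (R i ∪ N) (f i)

/-- `v` is a product of members of `A` times a quotient of two elements of the ring generated by
`G`. -/
def Quo (S : System) (A G : Set (RF S)) (v : RF S) : Prop :=
  ∃ u ∈ mon S A, ∃ g ∈ gen G, ∃ h ∈ gen G, NonzeroAt S h ∧ v * h = u * g

/-- `v` is given by a tower of `l` factors, a set `F` of linear combinations of `τ` products of
the factors, and is a product times a quotient of two elements of the ring generated by `N`, `F`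
and the `R i`.  The transcendence degrees of `F`, and of `F` together with the `R i`, are at most
`ν` and `r`. -/
def Rep (S : System) (N : Set (RF S)) (D l τ ν r : ℕ) (v : RF S) : Prop :=
  ∃ (f : ℕ → RF S) (R : ℕ → Set (RF S)) (F : Set (RF S)),
    Tower S N D l f R ∧ (∀ y ∈ F, Wide S (f '' Set.Iio l) τ y) ∧ trd F ≤ ν ∧
    trd ((⋃ i ≤ l, R i) ∪ F) ≤ r ∧ Quo S (f '' Set.Iio l) ((⋃ i ≤ l, R i) ∪ F ∪ N) v

/-- The quotients of the two operands of those additions and subtractions, among the first `t`
steps on `S`, whose result has degree more than `D`. -/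
def ratios (M : Machine) (E : Encoding) (S : System) (D t : ℕ) : Set (RF S) :=
  {y | ∃ s < t, ∃ o i j k q, M.instr (run M E S s).1 = .arith o i j k q ∧
    (o = .add ∨ o = .sub) ∧ ¬ LowDeg D (sym M E S (s + 1) k) ∧ y = sym M E S s i / sym M E S s j}

end Pool.Agent.MP_57f271_lc.H4
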