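import Pool.Agent.MP_57f271_lc.H4.Der
import Pool.Agent.MP_57f271_lc.H7.Main

/-!
A symmetric family of systems that fills almost the whole space of coefficients.
-/

set_option autoImplicit false

namespace Pool.Agent.MP_57f271_lc.H4

open Pool.Agent.MP_57f271_lc.H18 Pool.Agent.MP_57f271_lc.H7 MvPolynomial Finset

theorem card_mon' (n d : ℕ) : Nat.card {e : Fin n →₀ ℕ // e.degree ≤ d} = (n + d).choose d := by
  have h := card_finsuppAntidiag_nat_eq_choose (s := (univ : Finset (Option (Fin n)))) d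
  rw [card_univ, Fintype.card_option, Fintype.card_fin, show n + 1 + d - 1 = n + d by omega,
    ← Fintype.card_coe, ← Nat.card_eq_fintype_card] at h
  rw [← h]
  have h1 : ∀ f : finsuppAntidiag (univ : Finset (Option (Fin n))) d,
      f.1 none + f.1.some.degree = d := fun f => by
    simpa [Finsupp.degree_eq_sum] using (mem_finsuppAntidiag.1 f.2).1
  exact Nat.card_congr
    { toFun e := ⟨e.1.optionElim (d - e.1.degree), mem_finsuppAntidiag.2 ⟨by
        have := e.2
        simp only [Finsupp.degree_eq_sum] at this ⊢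
        simp only [Fintype.sum_option, Finsupp.optionElim_apply_none,
          Finsupp.optionElim_apply_some]
        omega, subset_univ _⟩⟩
      invFun f := ⟨f.1.some, by have := h1 f; omega⟩
      left_inv e := Subtype.ext (Finsupp.some_optionElim _ _)
      right_inv f := Subtype.ext (by
        have := h1 f
        simp only [show d - f.1.some.degree = f.1 none by omega, Finsupp.optionElim_some]) }

theorem vdm_ne {k : ℕ} {ε : Fin k → ℕ} (hε : Function.Injective ε) {w : ℂ} (hw : w ≠ 0) :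
    (Matrix.of fun a j : Fin k => (w * 2 ^ a.1) ^ ε j).det ≠ 0 := by
  have h := Matrix.det_mul_row (fun j => w ^ ε j)
    (Matrix.vandermonde fun j => (2 : ℂ) ^ ε j).transpose
  rw [Matrix.det_transpose] at h
  refine fun h0 => mul_ne_zero (prod_ne_zero_iff.2 fun j _ => pow_ne_zero _ hw)
    (Matrix.det_vandermonde_ne_zero_iff.2 fun a b hab => hε (Nat.pow_right_injective le_rfl
      (by exact_mod_cast hab))) (h.symm.trans (Eq.trans (congrArg _ ?_) h0))
  ext a j
  simp [mul_pow, ← pow_mul, mul_comm]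

variable {m : ℕ}

/-- The maximal minors of a generalised Vandermonde matrix. -/
noncomputable def mnr (ε : Fin (m + 1) → ℕ) (j : Fin (m + 1)) : RR m :=
  (Matrix.of fun a b : Fin m => (X a : RR m) ^ ε (j.succAbove b)).det

theorem coefs {ε : Fin (m + 1) → ℕ} (hε : Function.Injective ε) {B : ℕ} (hB : ∀ j, ε j ≤ B) :
    ∃ c : Fin (m + 1) → RR m, (∀ j, (c j).totalDegree ≤ 2 * m * B ∧ Sym (c j)) ∧
      (∀ p i, ∑ j, eval p (c j) * p i ^ ε j = 0) ∧
      ∀ w, w ≠ 0 → ∃ p, ∑ j, eval p (c j) * w ^ ε j ≠ 0 := by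
  have h1 : ∀ j, (mnr ε j).totalDegree ≤ m * B := fun j =>
    deg_det _ fun a b => by simpa [totalDegree_X_pow] using hB _
  have h2 : ∀ σ : Equiv.Perm (Fin m), ∀ j, rename σ (mnr ε j) =
      ((Equiv.Perm.sign σ : ℤ) : RR m) * mnr ε j := fun σ j => by
    rw [mnr, ← Matrix.det_permute, AlgHom.map_det]
    congr 1
    ext a b
    simp
  have h3 : ∀ (p : Fin m → ℂ) (w : ℂ), ∑ j, eval p (mnr ε 0 * ((-1) ^ j.1 * mnr ε j)) * w ^ ε j =
      eval p (mnr ε 0) * (Matrix.of fun a j => (Fin.cons w p : Fin (m + 1) → ℂ) a ^ ε j).det :=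
    fun p w => by
    rw [Matrix.det_succ_row_zero, mul_sum]
    refine sum_congr rfl fun j _ => ?_
    have : eval p (mnr ε j) = ((Matrix.of fun a j => (Fin.cons w p : Fin (m + 1) → ℂ) a ^
        ε j).submatrix Fin.succ j.succAbove).det := by
      rw [mnr, RingHom.map_det]
      congr 1
      ext a b
      simp
    rw [← this]
    simp only [map_mul, map_pow, map_neg, map_one, Matrix.of_apply, Fin.cons_zero]
    ring
  refine ⟨fun j => mnr ε 0 * ((-1) ^ j.1 * mnr ε j), fun j => ⟨?_, fun σ => ?_⟩, fun p i => ?_,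
    fun w hw => ⟨fun i => w * 2 * 2 ^ i.1, ?_⟩⟩
  · refine (totalDegree_mul _ _).trans ?_
    have := h1 0
    have := h1 j
    rcases neg_one_pow_eq_or (RR m) j.1 with h | h <;> rw [h, mul_assoc] <;>
      simp only [one_mul, neg_mul, totalDegree_neg] <;> omega
  · simp only [map_mul, map_pow, map_neg, map_one, h2]
    rcases Int.units_eq_one_or (Equiv.Perm.sign σ) with h | h <;> simp [h]
  · rw [h3, Matrix.det_zero_of_row_eq (Fin.succ_ne_zero i) (by funext j; simp), mul_zero]
  · rw [h3]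
    refine mul_ne_zero (fun h => vdm_ne (hε.comp (Fin.succ_injective m))
      (mul_ne_zero hw two_ne_zero) (Eq.trans ?_ h)) fun h => vdm_ne hε hw (Eq.trans ?_ h)
    · rw [mnr, RingHom.map_det]
      congr 1
      ext a b
      simp
    · congr 1
      ext a b
      refine Fin.cases (by simp) (fun a => ?_) a
      simp [pow_succ', mul_assoc]

variable {n : ℕ}

/-- The chain of squarings. -/
noncomputable def sq' (j : Fin (n + 1)) : MvPolynomial (Fin (n + 1)) ℂ :=
  X j ^ 2 + -Fin.lastCases 1 (fun i => X i.succ) j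

theorem sq_deg (j : Fin (n + 1)) : (sq' j).totalDegree = 2 := by
  rw [sq', totalDegree_add_eq_left_of_totalDegree_lt, totalDegree_X_pow]
  rw [totalDegree_X_pow, totalDegree_neg]
  refine Fin.lastCases ?_ (fun i => ?_) j <;> simp

theorem sq_iff (z : Fin (n + 1) → ℂ) : (∀ j, eval z (sq' j) = 0) ↔
    ∃ w : ℂ, w ^ 2 ^ (n + 1) = 1 ∧ ∀ j, z j = w ^ 2 ^ j.1 := by
  rw [Fin.forall_fin_succ']
  simp only [sq', Fin.lastCases_last, Fin.lastCases_castSucc, map_add, map_neg, map_pow, eval_X, map_one,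
    add_neg_eq_zero]
  constructor
  · rintro ⟨h1, h2⟩
    have h3 : ∀ j, z j = z 0 ^ 2 ^ j.1 := fun j => by
      induction j using Fin.induction with
      | zero => simp
      | succ i ih => rw [← h1, ih, Fin.val_succ, Fin.val_castSucc, pow_succ 2, pow_mul]
    exact ⟨z 0, by rw [← h2, h3 (Fin.last n), pow_succ 2, pow_mul, Fin.val_last], h3⟩
  · rintro ⟨w, h1, h2⟩
    exact ⟨fun i => by rw [h2, h2, Fin.val_succ, Fin.val_castSucc, pow_succ 2, pow_mul],
      by rw [h2, ← h1, pow_succ 2, pow_mul, Fin.val_last]⟩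

theorem family {G d : ℕ} (hG : G ≤ n + 1) (hm : m + 1 = G.choose (d + 2)) :
    ∃ (F : Fin (n + 1 + 1) → MvPolynomial (Fin (n + 1)) (RR m)) (W : Finset ℂ) (Ψ : RR m),
      W.card = 2 ^ (n + 1) ∧ Ψ ≠ 0 ∧ (∀ p, (sys F p).deg = Fin.cons (d + 2) fun _ => 2) ∧
      (∀ i μ, ((F i).coeff μ).totalDegree ≤ 2 * m * 2 ^ G ∧ Sym ((F i).coeff μ)) ∧
      (∀ p i, p i ∈ W → (sys F p).Feasible) ∧ ∀ p, eval p Ψ ≠ 0 → ¬ (sys F p).Feasible := by
  classical
  let e := (equivFinOfCardEq (s := powersetCard (d + 2) (univ.map (Fin.castLEEmb hG))) (n := m + 1)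
    (by simp [hm])).symm
  have e1 : ∀ j, (∀ i ∈ (e j).1, i.1 < G) ∧ (e j).1.card = d + 2 := fun j => by
    obtain ⟨h1, h2⟩ := mem_powersetCard.1 (e j).2
    refine ⟨fun i hi => ?_, h2⟩
    obtain ⟨a, -, rfl⟩ := mem_map.1 (h1 hi)
    exact a.2
  let ε : Fin (m + 1) → ℕ := fun j => ∑ i ∈ (e j).1.map Fin.valEmbedding, 2 ^ i
  obtain ⟨c, c1, c2, c3⟩ := coefs (ε := ε) (B := 2 ^ G) (fun a b h => e.injective (Subtype.ext
    (map_injective _ (geomSum_injective le_rfl h)))) fun j => (Nat.geomSum_lt le_rfl fun k hk => by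
      obtain ⟨i, hi, rfl⟩ := mem_map.1 hk
      exact (e1 j).1 i hi).le
  let l := Fin.last n
  let q : MvPolynomial (Fin (n + 1)) ℂ := X l ^ (d + 2) - X l ^ d
  let F₀ : MvPolynomial (Fin (n + 1)) (RR m) :=
    ∑ j, C (c j) * map C (∏ i ∈ (e j).1, X i : MvPolynomial (Fin (n + 1)) ℂ) + map C q
  have he : ∀ (p : Fin m → ℂ) (g : MvPolynomial (Fin (n + 1)) ℂ),
      map (eval p) (map (C : ℂ →+* RR m) g) = g := fun p g => by
    rw [MvPolynomial.map_map,
      show (eval p).comp C = RingHom.id ℂ from RingHom.ext fun c => eval_C c, MvPolynomial.map_id]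
  have hF : ∀ p, map (eval p) F₀ = ∑ j, C (eval p (c j)) * ∏ i ∈ (e j).1, X i + q := fun p => by
    simp only [F₀, map_add, map_sum, map_mul, map_C, he]
  have hv : ∀ p (z : Fin (n + 1) → ℂ) (w : ℂ), w ^ 2 ^ (n + 1) = 1 → (∀ j, z j = w ^ 2 ^ j.1) →
      eval z (map (eval p) F₀) = ∑ j, eval p (c j) * w ^ ε j := fun p z w h1 h2 => by
    have h3 : z l ^ 2 = 1 := by rw [h2, ← h1, pow_succ 2, pow_mul, Fin.val_last]
    simp only [hF, q, map_add, map_sum, map_mul, map_sub, map_pow, map_prod, eval_C, eval_X]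
    rw [pow_add, h3]
    simp [h2, ε, prod_pow_eq_pow_sum]
  have hW := fun w => Polynomial.mem_nthRootsFinset (R := ℂ) (n := 2 ^ (n + 1)) (x := w)
    (by positivity) 1
  refine ⟨Fin.cons F₀ fun j => map C (sq' j), Polynomial.nthRootsFinset (2 ^ (n + 1)) 1,
    ∏ w ∈ Polynomial.nthRootsFinset (2 ^ (n + 1)) (1 : ℂ), ∑ j, c j * C (w ^ ε j),
    (Complex.isPrimitiveRoot_exp _ (by positivity)).card_nthRootsFinset,
    prod_ne_zero_iff.2 fun w hw h => ?_, fun p => funext fun i => ?_, fun i μ => ?_,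
    fun p i hi => ⟨fun j => p i ^ 2 ^ j.1, ?_⟩, fun p hp ⟨z, hz⟩ => hp ?_⟩
  · obtain ⟨p, hp⟩ := c3 w fun h0 => by simpa [h0] using (hW w).1 hw
    exact hp (by simpa using congrArg (eval p) h)
  · refine Fin.cases ?_ (fun j => (congrArg totalDegree (he p _)).trans (sq_deg j)) i
    change (map (eval p) F₀).totalDegree = d + 2
    rw [hF]
    refine le_antisymm ((totalDegree_add _ _).trans (max_le (totalDegree_finsetSum_le fun j _ =>
      (totalDegree_mul _ _).trans ?_) ((totalDegree_sub _ _).trans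
        (by simp [totalDegree_X_pow])))) ?_
    · simpa [(e1 j).2] using totalDegree_finsetProd (e j).1
        fun i => (X i : MvPolynomial (Fin (n + 1)) ℂ)
    · have := aeval_natDegree_le (∑ j, C (eval p (c j)) * ∏ i ∈ (e j).1, X i + q) le_rfl
        (Pi.single l (Polynomial.X : Polynomial ℂ)) (n := 1) fun i => by
          rw [Pi.single_apply]; split_ifs <;> simp
      rw [map_add, map_sum, sum_eq_zero fun j _ => ?_] at this
      · simp only [q, map_sub, map_pow, aeval_X, Pi.single_eq_same, zero_add, mul_one] at this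
        rwa [Polynomial.natDegree_sub_eq_left_of_natDegree_lt (by simp),
          Polynomial.natDegree_X_pow] at this
      · obtain ⟨i, h1, h2⟩ := exists_mem_ne (s := (e j).1) (by rw [(e1 j).2]; omega) l
        rw [map_mul, map_prod, prod_eq_zero h1 (by simp [h2]), mul_zero]
  · have h0 : ∀ a : ℂ, (C a : RR m).totalDegree ≤ 2 * m * 2 ^ G ∧ Sym (C a : RR m) := fun a =>
      ⟨by simp, fun σ => rename_C σ a⟩
    refine Fin.cases ?_ (fun j => by simpa only [Fin.cons_succ, coeff_map] using h0 _) i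
    simp only [Fin.cons_zero, F₀, coeff_add, coeff_sum, coeff_C_mul, coeff_map]
    exact ⟨(totalDegree_add _ _).trans (max_le (totalDegree_finsetSum_le fun j _ =>
      (totalDegree_mul _ _).trans (by simpa using (c1 j).1)) (h0 _).1), fun σ => by
        simp only [map_add, map_sum, map_mul, (c1 _).2 σ, rename_C]⟩
  · refine Fin.cases ((hv p _ (p i) ((hW _).1 hi) fun _ => rfl).trans (c2 p i)) fun j => ?_
    exact (congrArg (eval _) (he p _)).trans ((sq_iff _).2 ⟨p i, (hW _).1 hi, fun _ => rfl⟩ j)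
  · obtain ⟨w, h1, h2⟩ := (sq_iff z).1 fun j => (congrArg (eval z) (he p _)).symm.trans (hz j.succ)
    rw [map_prod]
    exact prod_eq_zero ((hW w).2 h1) (by simpa using (hv p z w h1 h2).symm.trans (hz (0 : Fin (n + 2))))

theorem card_slot' (n d : ℕ) : Nat.card (Slot n (n + 1) (Fin.cons d fun _ => 2)) =
    (n + d).choose d + n * (n + 2).choose 2 := by
  have := fun d => (card_mon n d).1
  refine Nat.card_sigma.trans ?_
  simp [Fin.sum_univ_succ, card_mon']

end Pool.Agent.MP_57f271_lc.H4
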