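import Mathlib

/-!
The roots of `X ^ N - X - 1` are in general position for sparse polynomials.
-/

set_option autoImplicit false

namespace Pool.Agent.MP_57f271_lc.H4

open Polynomial NumberField
open scoped Classical

theorem card_inertia (R : Type) {E : Type} (G : Type) [CommRing R] [IsDomain R] [Field E]
    [NumberField E] [Algebra R (𝓞 E)] [Module.Finite R (𝓞 E)] [Module.Flat R (𝓞 E)] [Group G]
    [Finite G] [MulSemiringAction G (𝓞 E)] [IsGaloisGroup G R (𝓞 E)] (P : Ideal (𝓞 E))
    [P.IsPrime] [PerfectField (P.under R).ResidueField] :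
    Nat.card (P.inertia G) = P.ramificationIdx R := by
  rw [Ideal.card_inertia_eq_ramificationIdxIn (P.under R),
    Ideal.ramificationIdxIn_eq_ramificationIdx _ P G]

theorem iSup_inertia (L : Type) [Field L] [NumberField L] [IsGalois ℚ L] :
    ⨆ m : MaximalSpectrum (𝓞 L), m.asIdeal.inertia Gal(L/ℚ) = ⊤ := by
  set H := ⨆ m : MaximalSpectrum (𝓞 L), m.asIdeal.inertia Gal(L/ℚ) with hH
  let F : IntermediateField ℚ L := FixedPoints.intermediateField H
  have hF : IsGaloisGroup H F L := IsGaloisGroup.subgroup Gal(L/ℚ) ℚ L H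
  have h1 : Module.finrank ℚ F = 1 := by
    by_contra h1
    obtain ⟨p, hp, h2⟩ := NumberField.exists_not_isUnramifiedAt_int (𝒪 := 𝓞 F) h1
    obtain ⟨P, hP, h3⟩ := Ideal.exists_maximal_ideal_liesOver_of_isIntegral (S := 𝓞 L) p
    have : IsGaloisGroup Gal(L/ℚ) ℤ (𝓞 L) := IsGaloisGroup.of_isFractionRing _ _ _ ℚ L
    have h4 := card_inertia ℤ Gal(L/ℚ) P
    have : IsGaloisGroup H (𝓞 F) (𝓞 L) := IsGaloisGroup.of_isFractionRing _ _ _ F L
    have h5 := card_inertia (𝓞 F) H P
    have h6 := Ideal.ramificationIdx_tower (R := ℤ) p P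
    have h7 : Nat.card (P.inertia H) = Nat.card (P.inertia Gal(L/ℚ)) := by
      exact Nat.card_congr (Subgroup.subgroupOfEquivOfLe
        (le_iSup (fun m : MaximalSpectrum (𝓞 L) => m.asIdeal.inertia Gal(L/ℚ)) ⟨P, hP⟩)).toEquiv
    rw [← h4, ← h5, h7, right_eq_mul₀ Nat.card_pos.ne'] at h6
    exact h2 (Ideal.ramificationIdx_eq_one_iff.1 h6)
  apply Subgroup.eq_top_of_card_eq
  rw [IsGaloisGroup.card_eq_finrank H F L, IsGaloisGroup.card_eq_finrank Gal(L/ℚ) ℚ L,
    ← Module.finrank_mul_finrank ℚ F L, h1, one_mul]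

theorem sel_deg {k : Type} [Field k] {N : ℕ} (hN : 2 ≤ N) :
    (X ^ N - X - 1 : k[X]).natDegree = N := by
  rw [sub_sub, natDegree_sub_eq_left_of_natDegree_lt, natDegree_X_pow]
  rw [natDegree_X_pow, ← C_1, natDegree_X_add_C]
  omega

theorem few_collisions {k : Type} [Field k] {N : ℕ} (hN : 2 ≤ N)
    (hs : (X ^ N - X - 1 : k[X]).Splits) : N ≤ (X ^ N - X - 1 : k[X]).roots.toFinset.card + 1 := by
  have h1 := sel_deg (k := k) hN
  set f : k[X] := X ^ N - X - 1 with hf
  set g : k[X] := C (1 - N : k) * X - C (N : k) with hg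
  have h0 : g ≠ 0 := fun h => by
    have h2 := congrArg (coeff · 0) h
    have h3 := congrArg (coeff · 1) h
    simp [hg, coeff_one] at h2 h3
    simp [h2] at h3
  have h2 : g = C (N : k) * f - X * derivative f := by
    obtain ⟨n, rfl⟩ : ∃ n, N = n + 1 := ⟨N - 1, by omega⟩
    simp [hg, hf]
    ring
  have h3 : f.roots ≤ f.roots.dedup + g.roots := Multiset.le_iff_count.2 fun a => by
    have h4 := pow_rootMultiplicity_dvd f a
    have h5 := (le_rootMultiplicity_iff h0).2 (h2 ▸ dvd_sub
      (((pow_dvd_pow _ (Nat.sub_le _ 1)).trans h4).mul_left _)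
      ((pow_sub_one_dvd_derivative_of_pow_dvd h4).mul_left _))
    rw [Multiset.count_add, Multiset.count_dedup, count_roots, count_roots]
    split_ifs with h6
    · omega
    · rw [← count_roots, Multiset.count_eq_zero.2 h6]
      omega
  have h4 : g.natDegree ≤ 1 := by
    rw [hg]
    compute_degree
  have h5 := Multiset.card_le_card h3
  rw [Multiset.card_add, ← hs.natDegree_eq_card_roots, h1] at h5
  have := card_roots' g
  rw [Multiset.card_toFinset]
  omega

theorem perm_roots {N : ℕ} (hN : 2 ≤ N) (L : Type) [Field L] [CharZero L]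
    [IsSplittingField ℚ L (X ^ N - X - 1)] {ι : Type} [Finite ι] (x y : ι → L)
    (hx : Function.Injective x) (hy : Function.Injective y) (hx' : ∀ i, x i ^ N = x i + 1)
    (hy' : ∀ i, y i ^ N = y i + 1) : ∃ g : Gal(L/ℚ), ∀ i, g (x i) = y i := by
  have hirr := X_pow_sub_X_sub_one_irreducible_rat (n := N) (by omega)
  have : FiniteDimensional ℚ L := IsSplittingField.finiteDimensional L (X ^ N - X - 1 : ℚ[X])
  have : NumberField L := ⟨⟩
  have : IsGalois ℚ L := IsGalois.of_separable_splitting_field hirr.separable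
  let f : ℤ[X] := X ^ N - X - 1
  have hm : f.Monic := by
    simp only [f, sub_sub]
    exact monic_X_pow_sub (by rw [← C_1, degree_X_add_C]; exact_mod_cast hN)
  have h1 : ∀ z : L, z ^ N = z + 1 → IsIntegral ℤ z := fun z hz =>
    ⟨f, hm, by simp [f, hz]⟩
  have h2 : ∀ z : 𝓞 L, z ∈ f.rootSet (𝓞 L) ↔ (z : L) ^ N = z + 1 := fun z => by
    rw [hm.mem_rootSet]
    simp only [f, map_sub, map_pow, aeval_X, map_one]
    rw [sub_sub, sub_eq_zero, ← (RingOfIntegers.coe_injective (K := L)).eq_iff]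
    simp
  have h3 : (f.map (algebraMap ℤ L)).Splits := by
    have := IsSplittingField.splits L (X ^ N - X - 1 : ℚ[X])
    simp only [f, Polynomial.map_sub, Polynomial.map_pow, map_X, Polynomial.map_one] at this ⊢
    exact this
  have h4 : (f.map (algebraMap ℤ (𝓞 L))).Splits := by
    refine Splits.of_splits_map_of_injective (i := algebraMap (𝓞 L) L)
      RingOfIntegers.coe_injective (by rwa [map_map]) fun z hz => ?_
    have := (mem_roots'.1 hz).2
    simp only [f, Polynomial.map_sub, Polynomial.map_pow, map_X, Polynomial.map_one, IsRoot,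
      eval_sub, eval_pow, eval_X, eval_one] at this
    rw [sub_sub, sub_eq_zero] at this
    exact ⟨⟨z, h1 z this⟩, rfl⟩
  have : MulAction.IsPretransitive Gal(L/ℚ) (f.rootSet (𝓞 L)) := ⟨fun a b => by
    have h5 : ∀ c : f.rootSet (𝓞 L), minpoly ℚ (c.1 : L) = X ^ N - X - 1 := fun c =>
      (minpoly.eq_of_irreducible_of_monic hirr (by simp [(h2 _).1 c.2])
        (by simpa [f] using hm.map (Int.castRingHom ℚ))).symm
    obtain ⟨g, hg⟩ := (Normal.minpoly_eq_iff_mem_orbit L).1 ((h5 b).trans (h5 a).symm)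
    exact ⟨g, Subtype.ext (RingOfIntegers.ext hg)⟩⟩
  have h5 := h4.surjective_toPermHom_of_iSup_inertia_eq_top (G := Gal(L/ℚ)) (fun m => by
    let _ := Ideal.Quotient.field m.asIdeal
    have h6 := few_collisions (k := 𝓞 L ⧸ m.asIdeal) hN (by
      simpa [f] using h4.map (Ideal.Quotient.mk m.asIdeal))
    have h7 := f.ncard_rootSet_le (𝓞 L)
    have h8 : f.natDegree = N := by
      rw [← natDegree_map_eq_of_injective (f := Int.castRingHom ℚ) Int.cast_injective]
      simpa [f] using sel_deg (k := ℚ) hN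
    rw [rootSet_def f (_ ⧸ _), Set.ncard_coe_finset, aroots_def]
    simp only [f, Polynomial.map_sub, Polynomial.map_pow, map_X, Polynomial.map_one]
    exact h7.trans (h8 ▸ h6)) (iSup_inertia L)
  obtain ⟨σ, hσ⟩ := Equiv.Perm.exists_extending_pair
    (f := fun i => (⟨⟨x i, h1 _ (hx' i)⟩, (h2 _).2 (hx' i)⟩ : f.rootSet (𝓞 L)))
    (g := fun i => ⟨⟨y i, h1 _ (hy' i)⟩, (h2 _).2 (hy' i)⟩)
    (fun a b h => hx (congrArg (fun z : f.rootSet (𝓞 L) => (z.1 : L)) h))
    fun a b h => hy (congrArg (fun z : f.rootSet (𝓞 L) => (z.1 : L)) h)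
  obtain ⟨g, rfl⟩ := h5 σ
  exact ⟨g, fun i => congrArg (fun z : f.rootSet (𝓞 L) => (z.1 : L)) (hσ i)⟩

theorem sel_card {N : ℕ} (hN : 2 ≤ N) : (X ^ N - X - 1 : ℂ[X]).roots.toFinset.card = N := by
  have h1 := (X_pow_sub_X_sub_one_irreducible_rat (n := N) (by omega)).separable.map
    (f := algebraMap ℚ ℂ)
  simp only [Polynomial.map_sub, Polynomial.map_pow, map_X, Polynomial.map_one] at h1
  rw [Multiset.toFinset_card_of_nodup (nodup_roots h1),
    ← (IsAlgClosed.splits _).natDegree_eq_card_roots, sel_deg hN]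

theorem sel_mem {N : ℕ} (hN : 2 ≤ N) {w : ℂ} :
    w ∈ (X ^ N - X - 1 : ℂ[X]).roots.toFinset ↔ w ^ N = w + 1 := by
  rw [Multiset.mem_toFinset, mem_roots fun h => by
    have := sel_deg (k := ℂ) hN
    rw [h, natDegree_zero] at this
    omega]
  simp [sub_sub, sub_eq_zero]

theorem genpos {N : ℕ} (hN : 2 ≤ N) {h : ℕ} (ε : Fin h → ℕ) (hε : Function.Injective ε)
    (hlt : ∀ j, ε j < N) (w : Fin h → ℂ) (hw : Function.Injective w)
    (hr : ∀ i, w i ^ N = w i + 1) : (Matrix.of fun i j => w i ^ ε j).det ≠ 0 := by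
  induction h with
  | zero => simp
  | succ h ih =>
    intro h0
    have h1 : ∀ z : ℂ, z ^ N = z + 1 →
        (Matrix.of fun i j => (Fin.cons z (Fin.tail w) : Fin (h + 1) → ℂ) i ^ ε j).det = 0 := by
      intro z hz
      by_cases h2 : Function.Injective (Fin.cons z (Fin.tail w) : Fin (h + 1) → ℂ)
      swap
      · obtain ⟨a, b, h3, h4⟩ := Function.not_injective_iff.1 h2
        exact Matrix.det_zero_of_row_eq h4 (funext fun j => by simp [h3])
      have h3 : ∀ i, (Fin.cons z (Fin.tail w) : Fin (h + 1) → ℂ) i ^ N =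
          (Fin.cons z (Fin.tail w) : Fin (h + 1) → ℂ) i + 1 := Fin.cases hz fun i => hr _
      generalize (Fin.cons z (Fin.tail w) : Fin (h + 1) → ℂ) = y at h2 h3
      let L := IntermediateField.adjoin ℚ ((X ^ N - X - 1 : ℚ[X]).rootSet ℂ)
      have : IsSplittingField ℚ L (X ^ N - X - 1) :=
        IntermediateField.adjoin_rootSet_isSplittingField (IsAlgClosed.splits _)
      have h4 : ∀ z : ℂ, z ^ N = z + 1 → z ∈ L := fun z hz =>
        IntermediateField.subset_adjoin _ _ (mem_rootSet.2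
          ⟨(X_pow_sub_X_sub_one_irreducible_rat (by omega)).ne_zero, by simp [hz]⟩)
      obtain ⟨g, hg⟩ := perm_roots hN L (fun i => ⟨w i, h4 _ (hr i)⟩) (fun i => ⟨y i, h4 _ (h3 i)⟩)
        (fun a b h => hw (congrArg Subtype.val h)) (fun a b h => h2 (congrArg Subtype.val h))
        (fun i => Subtype.ext (hr i)) fun i => Subtype.ext (h3 i)
      have h5 : (Matrix.of fun i j => (⟨w i, h4 _ (hr i)⟩ : L) ^ ε j).det = 0 :=
        (algebraMap L ℂ).injective (by rw [RingHom.map_det, map_zero]; exact h0)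
      have h6 := congrArg (fun u => algebraMap L ℂ (g u)) h5
      simp only [AlgEquiv.map_det, RingHom.map_det, map_zero] at h6
      refine Eq.trans (congrArg _ (Matrix.ext fun i j => ?_)) h6
      exact congrArg (fun u : L => (u : ℂ)) ((map_pow g _ _).trans (congrArg (· ^ ε j) (hg i))).symm
    let c : Fin (h + 1) → ℂ := fun j =>
      (-1) ^ j.1 * (Matrix.of fun i k => Fin.tail w i ^ ε (j.succAbove k)).det
    have h2 : ∑ j, monomial (ε j) (c j) = 0 := by
      refine eq_zero_of_degree_lt_of_eval_finset_eq_zero (X ^ N - X - 1 : ℂ[X]).roots.toFinset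
        ?_ fun z hz => ?_
      · rw [sel_card hN]
        exact (degree_sum_le _ _).trans_lt ((Finset.sup_lt_iff (WithBot.bot_lt_coe _)).2 fun j _ =>
          (degree_monomial_le _ _).trans_lt (by exact_mod_cast hlt j))
      · rw [← h1 z ((sel_mem hN).1 hz), Matrix.det_succ_row_zero, eval_finsetSum]
        exact Finset.sum_congr rfl fun j _ => by
          rw [eval_monomial, mul_right_comm]
          rfl
    have h3 := congrArg (coeff · (ε 0)) h2
    simp only [finsetSum_coeff, coeff_monomial, hε.eq_iff, Finset.sum_ite_eq', Finset.mem_univ,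
      if_true, coeff_zero, c, Fin.val_zero, pow_zero, one_mul] at h3
    exact ih _ (hε.comp (Fin.succAbove_right_injective (p := 0))) (fun j => hlt _) _
      (hw.comp (Fin.succ_injective _)) (fun i => hr _) h3

end Pool.Agent.MP_57f271_lc.H4
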