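import Pool.Agent.MP_57f271_lc.H4.Rep
import Pool.Agent.MP_57f271_lc.H4.Fam

/-!
The run of a machine on a very general member of the family.
-/

set_option autoImplicit false

namespace Pool.Agent.MP_57f271_lc.H4

open Pool.Agent.MP_57f271_lc.H18 Pool.Agent.MP_57f271_lc.H7 MvPolynomial
open Function hiding eval
open scoped Classical

variable {m : ℕ}

theorem exists_generic {ι : Type} [Countable ι] (a : ι → RR m) (h : ∀ i, a i ≠ 0) :
    ∃ p, ∀ i, eval p (a i) ≠ 0 := by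
  refine (dense_iInter_of_isOpen (f := fun i => {p : Fin m → ℂ | eval p (a i) ≠ 0})
    (fun i => isOpen_ne_fun (continuous_eval _) continuous_const) fun i =>
      dense_iff_inter_open.2 fun U hU ⟨x, hx⟩ => ?_).nonempty.imp fun p => Set.mem_iInter.1
  obtain ⟨u, h1, h2⟩ := isOpen_pi_iff'.1 hU x hx
  by_contra h3
  exact h i (funext_set u (fun k => infinite_of_mem_nhds _ ((h1 k).1.mem_nhds (h1 k).2))
    fun y hy => by_contra fun h4 => h3 ⟨y, h2 hy, by simpa using h4⟩)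

theorem symStep_congr {K Q : Type} [Field K] (κ : ℂ → K) {I : Instr Q} (h : ¬ Tested I (cr I))
    (x y : ℤ → ℂ) (v : ℤ → K) : symStep κ I x v = symStep κ I y v := by
  rcases I with ⟨o, i, j, k, q⟩ | ⟨a, i, k, q⟩ | ⟨a, k, q⟩ | ⟨l, q⟩ | ⟨i, y, n⟩ | b
  · cases o
    exacts [rfl, rfl, rfl, (h (.inr ⟨i, k, q, rfl⟩)).elim]
  all_goals rfl

theorem step_fst' (M : Machine) (q : Fin M.m) (x y : ℤ → ℂ)
    (h : ¬ Tested (M.instr q) (cr (M.instr q))) : (M.step (q, x)).1 = (M.step (q, y)).1 := by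
  unfold Machine.step
  rcases hI : M.instr q with ⟨o, i, j, k, q⟩ | ⟨a, i, k, q⟩ | ⟨a, k, q⟩ | ⟨l, q⟩ | ⟨i, y, n⟩ | b <;>
    simp only [hI] at h ⊢
  exact (h (.inl ⟨y, n, rfl⟩)).elim

theorem run_rel' (M : Machine) (p : Fin m → ℂ) {u : ℤ → LL m} {x : ℤ → ℂ}
    (h : ∀ n, Rel (eval p) (u n) (x n)) (t : ℕ) (hg : ∀ s < t,
      Tested (M.instr ((stepL M)^[s] (M.start, u)).1)
        (cr (M.instr ((stepL M)^[s] (M.start, u)).1)) → crit M (M.start, u) s ≠ 0 →
      ∃ a b, eval p a ≠ 0 ∧ crit M (M.start, u) s * io b = io a) :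
    (M.step^[t] (M.start, x)).1 = ((stepL M)^[t] (M.start, u)).1 ∧
      ∀ n, Rel (eval p) (((stepL M)^[t] (M.start, u)).2 n) ((M.step^[t] (M.start, x)).2 n) := by
  induction t with
  | zero => exact ⟨rfl, h⟩
  | succ t ih =>
    obtain ⟨h1, h2⟩ := ih fun s hs => hg s (by omega)
    have h3 := hg t (by omega)
    rw [iterate_succ_apply', iterate_succ_apply']
    unfold crit at h3
    generalize (stepL M)^[t] (M.start, u) = c at h1 h2 h3
    generalize M.step^[t] (M.start, x) = d at h1 h2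
    obtain ⟨q, z⟩ := d
    obtain rfl : q = c.1 := h1
    have h5 := fun y hy n => rel_step (φ := eval p) C (M.instr c.1) (x := y) h2 hy Iff.rfl n
    simp only [eval_C] at h5
    by_cases hT : Tested (M.instr c.1) (cr (M.instr c.1))
    · have h4 : ind c.2 (cr (M.instr c.1)) = 0 ↔ z (cr (M.instr c.1)) = 0 :=
        (ind_iff _ _).trans ⟨(h2 _).zero, fun h => by
          by_contra h5
          obtain ⟨a, b, h6, h7⟩ := h3 hT h5
          exact (h2 _).ne h6 h7 h⟩
      exact ⟨step_fst M _ h4.symm, fun n => step_snd M _ ▸ h5 _ h4 n⟩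
    · refine ⟨step_fst' M _ _ _ hT, fun n => ?_⟩
      rw [step_snd, stepL, symStep_congr _ hT _ z]
      exact h5 z Iff.rfl n

theorem eval_aeval' {σ : Type} (p : Fin m → ℂ) (f : σ → RR m) (x : MvPolynomial σ ℂ) :
    eval p (aeval f x) = eval (fun s => eval p (f s)) x := by
  induction x using MvPolynomial.induction_on with
  | C c => simp
  | add a b ha hb => rw [map_add, map_add, map_add, ha, hb]
  | mul_X a j ha => rw [map_mul, map_mul, map_mul, ha, aeval_X, eval_X]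

theorem rel_null {P B : Type} [CommRing P] [Field B] {φ : P →+* B} {v y : FractionRing P} {a b : P}
    (h : Rel φ v 0) (hb : φ b ≠ 0) (e : y * algebraMap P _ b = v * algebraMap P _ a) :
    Rel φ y 0 := by
  obtain ⟨s, s', h4, h5, h6⟩ := h
  refine ⟨s * a, b * s', by rw [map_mul]; exact mul_ne_zero hb h4, ?_, ?_⟩
  · rw [map_mul, map_mul, ← h5, ← mul_assoc, e, mul_right_comm]
  · rw [map_mul _ s, ← h6, zero_mul, zero_mul, zero_mul]

theorem core (M : Machine) {n k : ℕ} (E : Encoding) (F : Fin k → MvPolynomial (Fin n) (RR m))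
    {d : Fin k → ℕ} {W : Finset ℂ} {e : ℕ} {Ψ : RR m} (hΨ : Ψ ≠ 0) (hd : ∀ p, (sys F p).deg = d)
    (hc : ∀ i μ, ((F i).coeff μ).totalDegree ≤ e ∧ Sym ((F i).coeff μ))
    (hy : ∀ p i, p i ∈ W → (sys F p).Feasible) (hn : ∀ p, eval p Ψ ≠ 0 → ¬ (sys F p).Feasible)
    (hM : ∀ p, ∃ t b, M.Outputs (E.state (sys F p)) t b ∧ (b = true ↔ (sys F p).Feasible)) :
    ∃ p, ∀ t b D l τ ν r, M.Outputs (E.state (sys F p)) t b →
      (∀ i < t, ∀ a, Tested (M.instr (run M E (sys F p) i).1) a → (run M E (sys F p) i).2 a ≠ 0 →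
        Rep (sys F p) (Null M E (sys F p)) D l τ ν r (sym M E (sys F p) i a)) → r + 2 ≤ m →
      W.card ≤ tests M E (sys F p) t * (10 * m ^ 2 * l ^ 2 * (e * D) * ((τ + 1) ^ ν) ^ 3) := by
  have out : ∀ p t b, M.Outputs (E.state (sys F p)) t b → (b = true ↔ (sys F p).Feasible) :=
    fun p t b h => by
      obtain ⟨t', b', h1, h2⟩ := hM p
      rw [M.outputs_unique h h1, h2]
  have h0 : ∀ v : LL m, ∃ a b, a ≠ 0 ∧ (v ≠ 0 → v * io b = io a) := fun v => by
    obtain ⟨a, b, hb, rfl⟩ := IsFractionRing.div_surjective (A := RR m) v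
    rcases eq_or_ne a 0 with rfl | ha
    · exact ⟨1, 1, one_ne_zero, fun h => absurd (by simp) h⟩
    · exact ⟨a, b, ha, fun _ => div_mul_cancel₀ _ (io_ne (nonZeroDivisors.ne_zero hb))⟩
  choose a b ha hb using h0
  set c0 : Fin M.m × (ℤ → LL m) := (M.start, u0 E F d) with hc0
  obtain ⟨p, hp⟩ := exists_generic (fun x : ℕ × ℤ => a (((stepL M)^[x.1] c0).2 x.2) * Ψ)
    fun x => mul_ne_zero (ha _) hΨ
  simp only [map_mul, mul_ne_zero_iff, Prod.forall] at hp
  refine ⟨p, fun t b0 D l τ ν r h hT hm => ?_⟩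
  have hg : ∀ s, crit M c0 s ≠ 0 → ∃ a b, eval p a ≠ 0 ∧ crit M c0 s * io b = io a :=
    fun s h1 => ⟨_, _, (hp s _).1, hb _ h1⟩
  obtain rfl := hd p
  have r1 := fun i => run_rel M _ (rel_state E F p) i fun s _ => hg s
  have r2 := fun i => rel_sym M E F p i fun s _ => hg s
  have r3 : ∀ x, valAt (sys F p) x ≠ 0 → ph F (sys F p).deg x ≠ 0 := fun x h1 h2 => h1 (by
    have := congrArg (eval p) (io_inj (h2.trans (map_zero io).symm))
    rw [map_zero] at this
    exact (congrArg (eval · x) (funext fun s => coeff_map _ _ _)).trans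
      ((eval_aeval' p _ x).symm.trans this))
  have r4 : ∀ y ∈ Null M E (sys F p), Rel (ph F (sys F p).deg) y 0 := by
    rintro y ⟨j, i, x, x', h1, h2, h3⟩
    have h7 : ((stepL M)^[j] c0).2 i = 0 := by_contra fun h7 =>
      ((r1 j).2 i).ne (hp j i).1 (hb _ h7) h1
    exact rel_null (h7 ▸ r2 j i) (r3 _ h2) h3
  let c₀ : Fin m := ⟨0, by omega⟩
  let I := (Finset.range t).filter fun i => ∃ a, Tested (M.instr (run M E (sys F p) i).1) a
  have hI : tests M E (sys F p) t = I.card := by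
    rw [tests, ← Set.ncard_coe_finset]
    congr 1
    ext i
    simp [I]
  rw [hI]
  refine (Finset.card_le_card (t := I.biUnion fun i => W.filter fun w =>
    (crit M c0 i)⁻¹ ∉ Loc (off c₀ w)) fun w hw => ?_).trans
    (Finset.card_biUnion_le_card_mul _ _ _ fun i hi => ?_)
  · by_contra h1
    simp only [Finset.mem_biUnion, Finset.mem_filter, hw, true_and, not_exists, not_and,
      not_not] at h1
    have h2 : ∀ s, ∃ a b, res c₀ w a ≠ 0 ∧
        (s ∈ I → crit M c0 s ≠ 0 → crit M c0 s * io b = io a) := fun s => by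
      by_cases h3 : s ∈ I
      · obtain ⟨x, y, h4, h5⟩ := h1 s h3
        exact ⟨y, x, fun h => h4 (pi_dvd.2 h), fun _ h6 => by
          rw [← h5]; exact mul_inv_cancel_left₀ h6 _⟩
      · exact ⟨1, 1, by simp, fun h4 => absurd h4 h3⟩
    choose x y hx hy' using h2
    obtain ⟨q, hq⟩ := exists_generic _ hx
    simp only [eval_res] at hq
    have h3 := (run_rel' M _ (hd _ ▸ rel_state E F (update q c₀ w)) t fun s hs h1 h2 =>
      ⟨_, _, hq s, hy' s (Finset.mem_filter.2 ⟨Finset.mem_range.2 hs, _, by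
        rw [run, (r1 s).1]; exact h1⟩) h2⟩).1
    exact hn p (hp 0 0).2 ((out p t b0 h).1 ((out (update q c₀ w) t b0
      (by rwa [Machine.Outputs, h3, ← (r1 t).1])).2 (hy _ c₀ (by simpa using hw))))
  · by_cases h1 : crit M c0 i = 0
    · rw [Finset.filter_false_of_mem fun w _ h => h (by rw [h1, inv_zero]; exact zero_mem _)]
      exact Nat.zero_le _
    obtain ⟨h2, a', h3⟩ := Finset.mem_filter.1 hi
    have h4 : a' = cr (M.instr ((stepL M)^[i] c0).1) := by
      rw [← (r1 i).1]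
      rcases h3 with ⟨y, n, h3⟩ | ⟨j, k, q, h3⟩ <;> exact (congrArg cr h3).symm
    exact one (S := sys F p) (c := fun s => coeff s.2.1 (F s.1)) (fun s => hc _ _) (fun _ => rfl)
      (fun v z ⟨x, y, h5, h6⟩ hz => hz.ne (r3 x h5) h6) r4 (hT i (Finset.mem_range.1 h2) a' h3
        (h4 ▸ ((r1 i).2 _).ne (hp i _).1 (hb _ h1))) (h4 ▸ r2 i _) h1 hm c₀ _
      fun w hw => (Finset.mem_filter.1 hw).2

theorem main (n d K : ℕ) (hd : 2 ≤ d) (hn : K + d ≤ n) (M : Machine) (E : Encoding)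
    (hM : Decides M E n d) : ∃ S : System, Format n d S ∧
      S.size = (n + d).choose d + n * (n + 2).choose 2 ∧
      ∀ t b D l τ ν r, M.Outputs (E.state S) t b →
        (∀ i < t, ∀ a, Tested (M.instr (run M E S i).1) a → (run M E S i).2 a ≠ 0 →
          Rep S (Null M E S) D l τ ν r (sym M E S i a)) →
        2 ^ K ≤ 20 * tests M E S t * (n - K).choose d ^ 3 * l ^ 2 * D * (τ + 1) ^ (3 * ν) ∨
          (n - K).choose d ≤ r + 2 := by
  obtain ⟨d, rfl⟩ := Nat.exists_eq_add_of_le' hd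
  obtain ⟨n, rfl⟩ : ∃ n', n = n' + 1 := ⟨n - 1, by omega⟩
  obtain ⟨G, hG⟩ : ∃ G, n + 1 = G + K := ⟨n + 1 - K, by omega⟩
  rw [show n + 1 - K = G by omega]
  obtain ⟨m, hm⟩ : ∃ m, m + 1 = G.choose (d + 2) :=
    ⟨_, Nat.sub_add_cancel (Nat.choose_pos (by omega))⟩
  obtain ⟨F, W, Ψ, h1, h2, h3, h4, h5, h6⟩ := family (n := n) (by omega) hm
  have hF : ∀ p, Format (n + 1) (d + 2) (sys F p) := fun p => ⟨rfl, rfl, fun i => by
    rw [h3]
    exact Fin.cases rfl (fun _ => rfl) i⟩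
  obtain ⟨p, hp⟩ := core M E F h2 h3 h4 h5 h6 fun p => hM _ (hF p)
  refine ⟨sys F p, hF p, by rw [System.size, h3]; exact card_slot' _ _,
    fun t b D l τ ν r h hT => ?_⟩
  refine (le_or_gt (r + 2) m).imp (fun h7 => ?_) fun h7 => by omega
  have := hp t b D l τ ν r h hT h7
  rw [h1, show 2 ^ (n + 1) = 2 ^ G * 2 ^ K by rw [hG, pow_add]] at this
  refine (Nat.le_of_mul_le_mul_left (c := 2 ^ G) (this.trans_eq (c := 2 ^ G * (20 * tests M E (sys F p) t *
    m ^ 3 * l ^ 2 * D * (τ + 1) ^ (3 * ν))) (by ring)) (by positivity)).trans ?_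
  gcongr
  omega

end Pool.Agent.MP_57f271_lc.H4
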