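import Mathlib

/-!
Places of a function field in one variable and the order of a derivation at a place.
-/

set_option autoImplicit false

namespace Pool.Agent.MP_57f271_lc.H4

open Polynomial WithZero

variable {E K : Type} [Field E] [Field K] [CharZero E] [Algebra E K]

theorem trans_of_der (ξ : Derivation E K K) {y : K} (h : ξ y ≠ 0) : Transcendental E y :=
  fun ha => by
  have h1 := ξ.map_aeval (minpoly E y) y
  rw [minpoly.aeval, map_zero, smul_eq_mul] at h1
  exact mul_ne_zero ((minpoly.irreducible ha.isIntegral).separable.aeval_derivative_ne_zero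
    (minpoly.aeval _ _)) h h1.symm

theorem simple_root (v : Valuation K ℤᵐ⁰) (hv : ∀ e : E, e ≠ 0 → v (algebraMap E K e) = 1) (z : K)
    (hz : ∀ f : E[X], v (aeval z f) ≤ 1) (f : E[X]) (h0 : f ≠ 0) (hf : v (aeval z f) < 1) :
    ∃ g : E[X], v (aeval z g) < 1 ∧ v (aeval z (derivative g)) = 1 := by
  induction hn : f.natDegree using Nat.strong_induction_on generalizing f with
  | _ n ih =>
    rcases (hz (derivative f)).eq_or_lt with h | h
    · exact ⟨f, hf, h⟩
    have h1 : f.natDegree ≠ 0 := fun h1 => by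
      rw [eq_C_of_natDegree_eq_zero h1] at h0 hf
      rw [aeval_C, hv _ fun h => h0 (by rw [h, map_zero])] at hf
      exact lt_irrefl _ hf
    exact ih _ (hn ▸ natDegree_derivative_lt h1) _
      (fun h2 => h1 (derivative_eq_zero.1 h2)) h rfl

theorem order (v : Valuation K ℤᵐ⁰) (hv : ∀ e : E, e ≠ 0 → v (algebraMap E K e) = 1)
    (ξ : Derivation E K K) {π : K} (hπ : v π = exp (-1))
    (h : ∀ z, v z ≤ 1 → v (ξ z) ≤ v (ξ π)) (z : K) (hz : v z < 1) :
    v (ξ z) = v (ξ π) / v π * v z := by
  have hπ0 : v π ≠ 0 := by rw [hπ]; exact exp_ne_zero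
  have hπ1 : v π < 1 := by rw [hπ, ← exp_zero, exp_lt_exp]; norm_num
  rcases eq_or_ne z 0 with rfl | h0
  · simp
  have hz0 : v z ≠ 0 := by simpa using h0
  rcases eq_or_ne (v (ξ π)) 0 with h1 | h1
  · rw [h1, zero_div, zero_mul]
    exact le_zero_iff.1 (h1 ▸ h z hz.le)
  obtain ⟨n, hn⟩ : ∃ n : ℕ, v z = v π ^ (n + 1) := by
    have h2 : log (v z) < 0 := by rwa [← exp_log hz0, ← exp_zero, exp_lt_exp] at hz
    refine ⟨(-log (v z) - 1).toNat, ?_⟩
    rw [hπ, ← exp_nsmul, ← exp_log hz0, log_exp]
    congr 1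
    simp only [smul_neg, nsmul_eq_mul, mul_one, Nat.cast_add, Nat.cast_one]
    omega
  obtain ⟨u, rfl⟩ : ∃ u, z = π ^ (n + 1) * u :=
    ⟨z / π ^ (n + 1), by have : π ≠ 0 := by simpa using hπ0
                         field_simp⟩
  have hu : v u = 1 := by
    rw [map_mul, map_pow] at hn
    exact mul_left_cancel₀ (pow_ne_zero _ hπ0) (hn.trans (mul_one _).symm)
  have hc : v ((n + 1 : ℕ) : K) = 1 := by
    rw [← map_natCast (algebraMap E K)]
    exact hv _ (Nat.cast_ne_zero.2 (Nat.succ_ne_zero n))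
  have e : ξ (π ^ (n + 1) * u) = ((n + 1 : ℕ) : K) * π ^ n * u * ξ π + π ^ (n + 1) * ξ u := by
    rw [Derivation.leibniz, Derivation.leibniz_pow]
    simp only [smul_eq_mul, nsmul_eq_mul, Nat.add_sub_cancel]
    ring
  have e1 : v (((n + 1 : ℕ) : K) * π ^ n * u * ξ π) = v π ^ n * v (ξ π) := by
    simp only [map_mul, map_pow, hc, hu, one_mul, mul_one]
  rw [e, v.map_add_eq_of_lt_left, e1, hn, pow_succ]
  · field_simp
  · rw [e1, map_mul, map_pow, pow_succ, mul_assoc]
    refine mul_lt_mul_of_pos_left ?_ (zero_lt_iff.2 (pow_ne_zero _ hπ0))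
    exact (mul_le_mul' le_rfl (h u hu.le)).trans_lt (mul_lt_of_lt_one_left (zero_lt_iff.2 h1) hπ1)

theorem exists_place [Algebra.EssFiniteType E K] (ξ : Derivation E K K) {y : K} (hy : ξ y ≠ 0)
    (hu : ∀ D : Derivation E K K, D y = 0 → D = 0) :
    ∃ (v : Valuation K ℤᵐ⁰) (lam : ℤᵐ⁰), lam ≠ 0 ∧ v y < 1 ∧
      (∀ e : E, e ≠ 0 → v (algebraMap E K e) = 1) ∧ ∀ z, v z < 1 → v (ξ z) = lam * v z := by
  classical
  have inj : Function.Injective (aeval y : E[X] →ₐ[E] K) :=
    transcendental_iff_injective.1 (trans_of_der ξ hy)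
  let φ : RatFunc E →ₐ[E] K :=
    RatFunc.liftAlgHom (aeval y) (nonZeroDivisors_le_comap_nonZeroDivisors_of_injective _ inj)
  have hφ : ∀ p : E[X], φ (algebraMap _ _ p) = aeval y p := fun p => by
    simpa [φ] using RatFunc.liftAlgHom_apply_div (aeval y)
      (nonZeroDivisors_le_comap_nonZeroDivisors_of_injective _ inj) p 1
  let _ := φ.toRingHom.toAlgebra
  let _ : Algebra E[X] K := (aeval y : E[X] →ₐ[E] K).toRingHom.toAlgebra
  have : IsScalarTower E[X] (RatFunc E) K := .of_algebraMap_eq fun p => (hφ p).symm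
  have : IsScalarTower E (RatFunc E) K := .of_algebraMap_eq fun a => (φ.commutes a).symm
  have : CharZero (RatFunc E) := charZero_of_injective_algebraMap (algebraMap E _).injective
  have : Algebra.EssFiniteType (RatFunc E) K := Algebra.EssFiniteType.of_comp E _ _
  have : Algebra.FormallyUnramified (RatFunc E) K := ⟨subsingleton_of_forall_eq 0 fun ω =>
    (Module.forall_dual_apply_eq_zero_iff K ω).1 fun f => by
      have h1 := hu ((KaehlerDifferential.linearMapEquivDerivation (RatFunc E) K f).restrictScalars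
        E) (by
          have : y = algebraMap (RatFunc E) K (algebraMap E[X] _ X) :=
            ((hφ X).trans (aeval_X y)).symm
          rw [this]
          exact (KaehlerDifferential.linearMapEquivDerivation (RatFunc E) K f).map_algebraMap _)
      have h2 : KaehlerDifferential.linearMapEquivDerivation (RatFunc E) K f = 0 :=
        Derivation.ext fun a => DFunLike.congr_fun h1 a
      rw [(LinearEquiv.map_eq_zero_iff _).1 h2]
      rfl⟩
  have : FiniteDimensional (RatFunc E) K := Algebra.FormallyUnramified.finite_of_free _ _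
  let R := FunctionField.ringOfIntegers E K
  have hinj := FunctionField.ringOfIntegers.algebraMap_injective E K
  have : Algebra.IsIntegral E[X] R := IsIntegralClosure.isIntegral_algebra E[X] K
  have : (Ideal.span {X} : Ideal E[X]).IsMaximal :=
    PrincipalIdealRing.isMaximal_of_irreducible irreducible_X
  obtain ⟨Q, hQ, hc⟩ := Ideal.exists_ideal_over_maximal_of_isIntegral (S := R) (Ideal.span {X})
    (by rw [(RingHom.injective_iff_ker_eq_bot _).mp hinj]; exact bot_le)
  have hmem : algebraMap E[X] R X ∈ Q := by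
    rw [← Ideal.mem_comap, hc]
    exact Ideal.mem_span_singleton_self _
  let P : IsDedekindDomain.HeightOneSpectrum R := ⟨Q, hQ.isPrime, by
    rintro rfl
    exact X_ne_zero (hinj (by simpa using hmem))⟩
  have hco : ∀ p : E[X], algebraMap R K (algebraMap E[X] R p) = aeval y p := fun p => rfl
  set v := P.valuation K with hvd
  have hR : ∀ b : R, v (algebraMap R K b) ≤ 1 := fun b => P.valuation_le_one b
  have hE : ∀ e : E, e ≠ 0 → v (algebraMap E K e) = 1 := fun c hc0 => by
    rw [← aeval_C y, ← hco]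
    refine (P.valuation_eq_one_iff_notMem).mpr fun hm => hQ.ne_top ?_
    exact Ideal.eq_top_of_isUnit_mem _ hm ((isUnit_C.mpr (Ne.isUnit hc0)).map _)
  have hy1 : v y < 1 := by
    have : v (algebraMap R K (algebraMap E[X] R X)) < 1 :=
      (P.valuation_lt_one_iff_mem (K := K) _).mpr hmem
    rwa [hco, aeval_X] at this
  obtain ⟨π, hπ⟩ := P.valuation_exists_uniformizer K
  obtain ⟨S, hS⟩ : (⊤ : Submodule E[X] R).FG := Module.Finite.fg_top
  obtain ⟨b, -, hb⟩ := Finset.exists_max_image (insert (algebraMap E[X] R X) S)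
    (fun b => v (ξ (algebraMap R K b))) (Finset.insert_nonempty _ _)
  set μ := v (ξ (algebraMap R K b)) with hμ
  have hyμ : v (ξ y) ≤ μ := by simpa [hco] using hb _ (Finset.mem_insert_self _ _)
  have h1 : ∀ a : R, v (ξ (algebraMap R K a)) ≤ μ := fun a => by
    have ha : a ∈ Submodule.span E[X] (S : Set R) := hS ▸ Submodule.mem_top
    induction ha using Submodule.span_induction with
    | mem a ha => exact hb a (Finset.mem_insert_of_mem ha)
    | zero => simp
    | add a a' _ _ h h' => simpa only [map_add] using v.map_add_le h h'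
    | smul p a _ h =>
      rw [Algebra.smul_def, map_mul, Derivation.leibniz, smul_eq_mul, smul_eq_mul]
      refine v.map_add_le ?_ ?_ <;> rw [map_mul]
      · exact mul_le_of_le_one_of_le (hR _) h
      · refine mul_le_of_le_one_of_le (hR _) ?_
        rw [hco, Derivation.map_aeval, smul_eq_mul, map_mul, ← hco]
        exact mul_le_of_le_one_of_le (hR _) hyμ
  have h2 : ∀ z, v z ≤ 1 → v (ξ z) ≤ μ := fun z hz => by
    obtain ⟨n, d, hd⟩ := P.exists_primeCompl_mul_eq_of_integer z hz
    have h3 : v (algebraMap R K d) = 1 := (P.valuation_eq_one_iff_notMem).mpr d.2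
    have h4 := congrArg ξ hd
    rw [Derivation.leibniz, smul_eq_mul, smul_eq_mul, ← eq_sub_iff_add_eq'] at h4
    have h5 := congrArg v h4
    rw [map_mul, h3, one_mul] at h5
    rw [h5]
    refine v.map_sub_le (h1 n) ?_
    rw [map_mul]
    exact mul_le_of_le_one_of_le hz (h1 d)
  have hb1 : ∀ f : E[X], v (aeval (algebraMap R K b) f) ≤ 1 := fun f => by
    rw [aeval_eq_sum_range]
    refine v.map_sum_le fun i _ => ?_
    rw [Algebra.smul_def, map_mul, map_pow, ← aeval_C y, ← hco]
    exact mul_le_one' (hR _) (pow_le_one' (hR _) _)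
  obtain ⟨p, hp, hpb⟩ : IsIntegral E[X] b := Algebra.IsIntegral.isIntegral b
  obtain ⟨g, hg, hg'⟩ := simple_root v hE _ hb1 (p.map (evalRingHom 0)) (hp.map _).ne_zero (by
    obtain ⟨q, hq⟩ : C X ∣ (p.map (evalRingHom 0)).map C - p := by
      refine (C_dvd_iff_dvd_coeff _ _).2 fun i => X_dvd_iff.2 ?_
      simp [coeff_zero_eq_eval_zero]
    have h3 := congrArg (fun r => algebraMap R K (aeval b r)) hq
    simp only [map_sub, map_mul, aeval_C, hco, aeval_X, show aeval b p = 0 from hpb,
      sub_zero] at h3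
    have h4 : algebraMap R K (aeval b ((p.map (evalRingHom 0)).map C)) =
        aeval (algebraMap R K b) (p.map (evalRingHom 0)) := by
      rw [aeval_def, eval₂_map, hom_eval₂, aeval_def]
      congr 1
      exact RingHom.ext fun e => (hco _).trans (aeval_C y e)
    rw [← h4, h3, map_mul]
    exact mul_lt_one_of_lt_of_le hy1 (hR _))
  have hπ0 : v π ≠ 0 := by rw [hπ]; exact exp_ne_zero
  have hπ1 : v π < 1 := by rw [hπ, ← exp_zero, exp_lt_exp]; norm_num
  have hμ0 : μ ≠ 0 := fun h => hy (by simpa [h] using hyμ)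
  have h3 : μ ≤ v (ξ π) := by
    obtain ⟨z, hz⟩ : ∃ z, aeval (algebraMap R K b) g = π * z :=
      ⟨_, (mul_div_cancel₀ _ (by simpa using hπ0)).symm⟩
    have h4 : v z ≤ 1 := by
      rw [hz, map_mul] at hg
      rcases eq_or_ne (v z) 0 with h | h
      · simp [h]
      rw [hπ, ← exp_log h, ← exp_add, ← exp_zero, exp_lt_exp] at hg
      rw [← exp_log h, ← exp_zero, exp_le_exp]
      omega
    have h5 := congrArg (fun t => v (ξ t)) hz
    simp only [Derivation.map_aeval, smul_eq_mul, map_mul, hg', one_mul, Derivation.leibniz] at h5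
    by_contra hlt
    refine lt_irrefl μ (h5.trans_lt (v.map_add_lt ?_ ?_)) <;> rw [map_mul]
    · exact (mul_le_mul' le_rfl (h2 z h4)).trans_lt (mul_lt_of_lt_one_left (zero_lt_iff.2 hμ0) hπ1)
    · exact (mul_le_of_le_one_left' h4).trans_lt (not_le.1 hlt)
  exact ⟨v, v (ξ π) / v π, div_ne_zero (fun h => hμ0 (le_zero_iff.1 (h ▸ h3))) hπ0, hy1, hE,
    order v hE ξ hπ fun z hz => (h2 z hz).trans h3⟩

end Pool.Agent.MP_57f271_lc.H4
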