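import Pool.Agent.MP_57f271_lc.H4.Tower

/-!
Transcendence degree bounds the Jacobian rank.
-/

set_option autoImplicit false

namespace Pool.Agent.MP_57f271_lc.H4

open MvPolynomial Finset Pool.Agent.MP_57f271_lc.H7
open scoped Classical

variable {m r : ℕ}

theorem der_alg (δ : Dr m) {z : LL m} (h : IsAlgebraic (kf δ) z) : δ z = 0 := by
  have : CharZero (kf δ) := charZero_of_injective_algebraMap (algebraMap ℂ _).injective
  let δ' : Derivation (kf δ) (LL m) (LL m) := Derivation.mk'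
    { toFun := δ
      map_add' := map_add δ
      map_smul' := fun a x => by
        have : δ a = 0 := a.2
        simp [IntermediateField.smul_def, this] } fun a b => δ.leibniz a b
  exact by_contra fun h0 => trans_of_der δ' h0 h

theorem trdeg_le {S : Type} [CommRing S] [Algebra ℂ S] (ψ : S →ₐ[ℂ] LL m) {G : Set (LL m)}
    (h : G ⊆ Set.range ψ) : Algebra.trdeg ℂ (Algebra.adjoin ℂ G) ≤ Algebra.trdeg ℂ S :=
  (trdeg_le_of_injective (Subalgebra.inclusion (Algebra.adjoin_le (S := ψ.range) h))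
    (Subalgebra.inclusion_injective _)).trans
      (trdeg_le_of_surjective ψ.rangeRestrict ψ.rangeRestrict_surjective)

theorem basis {G : Set (LL m)} (hr : Algebra.trdeg ℂ (Algebra.adjoin ℂ G) ≤ r) :
    ∃ B : Finset (LL m), ↑B ⊆ G ∧ B.card ≤ r ∧
      ∀ δ : Dr m, (∀ b ∈ B, δ b = 0) → ∀ z ∈ G, δ z = 0 := by
  set S := Algebra.adjoin ℂ G
  have : Algebra.IsAlgebraic (Algebra.adjoin ℂ (Subtype.val ⁻¹' G : Set S)) S := ⟨fun x =>
    isAlgebraic_algebraMap (R := Algebra.adjoin ℂ (Subtype.val ⁻¹' G : Set S))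
      ⟨x, by rw [Algebra.adjoin_adjoin_coe_preimage]; trivial⟩⟩
  obtain ⟨t, h1, h2⟩ := exists_isTranscendenceBasis_subset (R := ℂ) (Subtype.val ⁻¹' G : Set S)
  rw [← h2.cardinalMk_eq_trdeg] at hr
  have h3 : t.Finite := Cardinal.lt_aleph0_iff_set_finite.1 (hr.trans_lt Cardinal.natCast_lt_aleph0)
  refine ⟨h3.toFinset.image Subtype.val, fun b hb => ?_, card_image_le.trans ?_,
    fun δ hδ z hz => der_alg δ ?_⟩
  · obtain ⟨x, hx, rfl⟩ := mem_image.1 (mem_coe.1 hb)
    exact h1 (h3.mem_toFinset.1 hx)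
  · rw [← Set.ncard_eq_toFinset_card t h3, ← Nat.cast_le (α := Cardinal), Set.cast_ncard h3]
    exact hr
  · have h4 : ∀ x ∈ Algebra.adjoin ℂ (Set.range ((↑) : t → S)), x.1 ∈ kf δ := fun x hx =>
      Algebra.adjoin_le (S := (kf δ).toSubalgebra.comap S.val) (by
        rintro _ ⟨y, rfl⟩
        exact hδ _ (mem_image_of_mem _ (h3.mem_toFinset.2 y.2))) hx
    exact (h2.isAlgebraic.1 ⟨z, Algebra.subset_adjoin hz⟩).ringHom_of_comp_eq
      (RingHom.codRestrict (S.val.comp (Subalgebra.val _)).toRingHom (kf δ) fun x => h4 x.1 x.2)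
      S.val.toRingHom (fun x y h => Subtype.ext (Subtype.ext
        (congrArg (fun u : kf δ => (u : LL m)) h))) rfl

theorem rk_of_trdeg {G : Set (LL m)} (hr : Algebra.trdeg ℂ (Algebra.adjoin ℂ G) ≤ r) :
    Rk (AL G) r := fun J hJ => by
  obtain ⟨B, -, h1, h2⟩ := basis hr
  choose D hD using fun k : Fin m => exists_der (m := m) (Pi.single k 1)
  by_contra hlt
  have h3 : ¬ LinearIndependent (LL m) fun (k : J) (b : B) => D k b := fun h => by
    have := h.fintype_card_le_finrank
    simp only [Fintype.card_coe, Module.finrank_fintype_fun_eq_card] at this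
    omega
  obtain ⟨c, h4, k, h5⟩ := Fintype.not_linearIndependent_iff.1 h3
  have h6 : ∀ z, (∑ k : J, c k • D k) z = ∑ k : J, c k * D k z := fun z => by
    have := congrFun (map_sum (Derivation.coeFnAddMonoidHom (R := ℂ)) (fun k : J => c k • D k)
      univ) z
    rwa [Finset.sum_apply] at this
  have h7 := hJ (∑ k : J, c k • D k) (AL.kr.2 (h2 _ fun b hb => by
    rw [h6]
    simpa using congrFun h4 ⟨b, hb⟩)) fun j hj => by
      rw [h6]
      exact sum_eq_zero fun k _ => by
        rw [hD, Pi.single_eq_of_ne (i := k.1) (i' := j) fun e => hj (e ▸ k.2), mul_zero]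
  have h8 := h6 (io (X k.1))
  rw [h7, sum_eq_single k (fun j _ hj => by
    rw [hD, Pi.single_eq_of_ne fun e => hj (Subtype.ext e.symm), mul_zero]) (by simp), hD] at h8
  exact h5 (by simpa using h8.symm)

end Pool.Agent.MP_57f271_lc.H4
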