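import Pool.Agent.MP_57f271_lc.H4.Wron

/-!
Parallel hyperplanes in the zero set of a function of a tower and of a few wide sums.
-/

set_option autoImplicit false

namespace Pool.Agent.MP_57f271_lc.H4

open MvPolynomial Finset Pool.Agent.MP_57f271_lc.H7
open scoped Classical

variable {m D r : ℕ} {fs : Finset (LL m)} {T : Set (LL m)}

theorem van_of_der {δ : Dr m} {c : Fin m} {w : ℂ} (hv : ∀ k, δ (io (X k)) ∈ Loc (off c w))
    {g : LL m} (h0 : g ≠ 0) (hg : δ g = 0) (h : Van c w g) : Van c w (δ (io (X c))) := by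
  obtain ⟨y, ⟨a, b, h1, h2⟩, rfl⟩ := h
  have hb : io b ≠ 0 := io_ne fun h => h1 (h ▸ dvd_zero _)
  obtain ⟨n, p, hp, rfl⟩ := split c w (a := a) fun h =>
    mul_ne_zero (right_ne_zero_of_mul h0) hb (by rw [h2, h, map_zero])
  have hp' : p ∈ off c w := fun h => hp (pi_dvd.1 h)
  have hπ := io_ne (pi_prime c w).ne_zero
  have h3 : io p ≠ 0 := io_ne fun h => hp (by simp [h])
  have h4 : io p / io b ∈ Loc (off c w) := ⟨p, b, h1, div_mul_cancel₀ _ hb⟩
  have h5 : (io p / io b)⁻¹ ∈ Loc (off c w) :=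
    Loc.inv (div_ne_zero h3 hb) hp' (div_mul_cancel₀ _ hb)
  have h6 : io (H7.pi c w) * y = io (H7.pi c w) ^ (n + 1) * (io p / io b) := by
    rw [(eq_div_iff hb).2 h2, map_mul, map_pow]
    ring
  have h7 := div_ne_zero h3 hb
  generalize io p / io b = u at h4 h5 h6 h7
  have h8 : ((n + 1 : ℕ) : LL m) ≠ 0 := Nat.cast_ne_zero.2 (Nat.succ_ne_zero n)
  refine ⟨-δ u * u⁻¹ * ((n + 1 : ℕ) : LL m)⁻¹, mul_mem (mul_mem (neg_mem (der_loc hv h4)) h5) ?_,
    mul_left_cancel₀ (pow_ne_zero n hπ) ?_⟩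
  · rw [← map_natCast (algebraMap ℂ (LL m)), ← map_inv₀, ← io_C]
    exact Loc.io _ _
  · rw [h6, Derivation.leibniz, Derivation.leibniz_pow, der_pi] at hg
    simp only [smul_eq_mul, nsmul_eq_mul, Nat.add_sub_cancel] at hg
    linear_combination (u⁻¹ * ((n + 1 : ℕ) : LL m)⁻¹) * hg -
      (io (H7.pi c w) ^ n * δ (io (X c))) * (mul_inv_cancel₀ h8) -
      (io (H7.pi c w) ^ n * δ (io (X c)) * ((n + 1 : ℕ) : LL m) * ((n + 1 : ℕ) : LL m)⁻¹) *
        mul_inv_cancel₀ h7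

theorem Van.sg {c : Fin m} {w : ℂ} {z : LL m} (h : Van c w z) (c' : Fin m) :
    Van c' w (sg (Equiv.swap c c') z) := by
  obtain ⟨y, ⟨a, b, h1, h2⟩, rfl⟩ := h
  refine ⟨H4.sg (Equiv.swap c c') y, ⟨rename (Equiv.swap c c') a, rename (Equiv.swap c c') b,
    fun h3 => h1 ?_, by rw [← sg_io, ← sg_io, ← h2, map_mul]⟩, ?_⟩
  · rwa [← pi_dvd_rename (Equiv.swap c c'), Equiv.swap_apply_left]
  · rw [map_mul, sg_io, rename_pi, Equiv.swap_apply_left]

theorem arith {m R j s D : ℕ} (hs : 1 ≤ s) (hR : R + 2 ≤ m) (hj : j ≤ R) :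
    (j + 1) * ((s + 1) * (s * (m * D + s * (D + R * D))) + D + 2 * (R * D)) ≤
      6 * m ^ 2 * D * s ^ 3 := by
  have h1 : D + R * D ≤ m * D := by rw [← one_add_mul]; gcongr; omega
  have h3 : s + 1 ≤ 2 * s := by omega
  have h4 : m * D ≤ s * (m * D) := Nat.le_mul_of_pos_left _ hs
  have h5 : m * D ≤ s ^ 3 * (m * D) := Nat.le_mul_of_pos_left _ (by positivity)
  calc _ ≤ m * (2 * s * (s * (s * (m * D) + s * (m * D))) + 2 * (m * D)) := by
        rw [add_assoc]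
        gcongr <;> omega
    _ = m * (4 * (s ^ 3 * (m * D)) + 2 * (m * D)) := by ring
    _ ≤ m * (4 * (s ^ 3 * (m * D)) + 2 * (s ^ 3 * (m * D))) := by gcongr
    _ = _ := by ring

theorem top (t : Tw D fs T) {τ : ℕ} (B : Finset (LL m))
    (hB : ∀ y ∈ B, ∃ μ : Fin τ → LL m, (∀ u, μ u = 0 ∨ μ u ∈ Mon fs) ∧ y = ∑ u, μ u)
    (hr : Rk (AL (T ∪ B)) r) (hm : r + 2 ≤ m) {g : LL m} (h0 : g ≠ 0)
    (hg : ∀ δ, AL (T ∪ B) ≤ kr δ → δ g = 0) (W : Finset ℂ)
    (hW : ∀ w ∈ W, Good fs w ∧ ∀ c, Van c w g) :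
    W.card ≤ 6 * m ^ 2 * (fs.card * D) * ((τ + 1) ^ B.card) ^ 3 := by
  have hs : 1 ≤ (τ + 1) ^ B.card := Nat.one_le_pow _ _ (Nat.succ_pos τ)
  obtain ⟨ρ, p3, hk⟩ := t.rows
  have q1 : ∏ f ∈ fs, f ≠ 0 := prod_ne_zero_iff.2 fun f hf => (t.fac.1 f hf).1.2
  choose μ q2 q3 using fun y : B => hB y y.2
  have q4 : ∀ y u, ∃ U ∈ Mon fs, ∃ a : Fin m → LL m, (∀ k, a k ∈ Lo io (AL T) (fs.card * D)) ∧
      ∀ δ : Dr m, AL T ≤ kr δ → (∏ f ∈ fs, f) * δ (μ y u) = U * ∑ k, a k * δ (io (X k)) :=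
    fun y u => (q2 y u).elim (fun h => ⟨1, one_mem _, 0, by simp, fun δ _ => by simp [h]⟩)
      fun h => ⟨_, h, (Mon.log (fun f hf => (t.fac.1 f hf).1) h).2⟩
  choose U q4 a q5 q6 using q4
  let S : ρ ⊕ B → Finset (Option (Fin τ)) := Sum.elim (fun _ => {none}) fun _ => univ
  let TT : ρ ⊕ B → Option (Fin τ) → LL m := Sum.elim (fun _ _ => 1) fun j u => u.elim 1 (U j)
  let aa : ρ ⊕ B → Option (Fin τ) → Fin m → LL m :=
    Sum.elim (fun i _ => i.1) fun j u => u.elim 0 (a j)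
  have r1 : ∀ i u, TT i u ∈ Mon fs := by
    rintro (i | j) (_ | u)
    exacts [one_mem _, one_mem _, one_mem _, q4 j u]
  have r2 : ∀ i u k, aa i u k ∈ Lo io (AL T) (fs.card * D) := by
    rintro (i | j) (_ | u) k
    exacts [p3 _ i.2 k, p3 _ i.2 k, zero_mem _, q5 j u k]
  have r3 : ∀ δ : Dr m, AL (T ∪ B) ≤ kr δ ↔
      ∀ i, ∑ k, (∑ u ∈ S i, TT i u * aa i u k) * δ (io (X k)) = 0 := fun δ => by
    have e : AL T ≤ kr δ → ∀ y : B, (∏ f ∈ fs, f) * δ y =
        ∑ k, (∑ u ∈ S (.inr y), TT (.inr y) u * aa (.inr y) u k) * δ (io (X k)) := fun h y => by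
      rw [q3 y, map_sum, mul_sum, sum_congr rfl fun u _ => q6 y u δ h]
      simp only [S, TT, aa, Sum.elim_inr, Fintype.sum_option, Option.elim, Pi.zero_apply, mul_zero,
        zero_add, sum_mul, mul_sum, mul_assoc]
      exact sum_comm
    constructor
    · have h1 : AL T ≤ AL (T ∪ B) := AL.mono Set.subset_union_left
      rintro h (i | j)
      · simpa [S, TT, aa] using (hk δ).1 (h1.trans h) _ i.2
      · rw [← e (h1.trans h), AL.kr.1 h _ (.inr j.2), mul_zero]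
    · intro h
      have h1 := (hk δ).2 fun y hy => by simpa [S, TT, aa] using h (.inl ⟨y, hy⟩)
      exact AL.kr.2 fun z hz => hz.elim (AL.kr.1 h1 z) fun hz =>
        (mul_eq_zero.1 ((e h1 ⟨z, hz⟩).trans (h _))).resolve_left q1
  obtain ⟨n, β, γ, hβ, s0, s1⟩ := kernel' fun i k => ∑ u ∈ S i, TT i u * aa i u k
  obtain ⟨s8, s9⟩ := rig_of_minor (A := AL (T ∪ B)) s0 fun δ hδ x => (r3 δ).1 hδ _
  have hn := hr _ s9
  obtain ⟨c, -, hc⟩ := exists_mem_notMem_of_card_lt_card (s := univ.image γ) (t := univ)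
    (by simp only [card_univ, Fintype.card_fin]; omega)
  obtain ⟨v, s2, -, s3, s4⟩ := s1 c hc
  obtain ⟨δ, hδ⟩ := exists_der v
  have s5 := hg δ ((r3 δ).2 fun i => by simpa only [hδ] using s3 i)
  have s6 : (Matrix.of fun x y => ∑ u ∈ S (β x), TT (β x) u * aa (β x) u (γ y)).det =
      ∑ φ : Fintype.piFinset fun x => S (β x), (∏ x, TT (β x) (φ.1 x)) *
        (Matrix.of fun x y => aa (β x) (φ.1 x) (γ y)).det := by
    have := (Matrix.detRowAlternating (n := Fin n) (R := LL m)).toMultilinearMap.map_sum_finset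
      (fun x u y => TT (β x) u * aa (β x) u (γ y)) fun x => S (β x)
    rw [← sum_coe_sort] at this
    refine Eq.trans (congrArg Matrix.det ?_) (this.trans (sum_congr rfl fun φ _ =>
      Matrix.det_mul_column _ _))
    funext x y
    simp [Finset.sum_apply]
  obtain ⟨J, t1, t2, t3⟩ := t.frame (hr.mono (AL.mono Set.subset_union_left))
  obtain ⟨c₁, -, u1⟩ := exists_mem_notMem_of_card_lt_card (s := J) (t := univ) (by simp; omega)
  obtain ⟨c₂, -, u2⟩ := exists_mem_notMem_of_card_lt_card (s := insert c₁ J) (t := univ)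
    ((card_insert_le _ _).trans_lt (by simp; omega))
  rw [mem_insert, not_or] at u2
  obtain ⟨ξ, v1⟩ := t3 c₁ u1
  obtain ⟨ξ', v2⟩ := t3 c₂ u2.2
  have s7 := congrArg (sg (Equiv.swap c c₁)) s6
  rw [map_sum, sum_congr rfl fun φ _ => by
    rw [map_mul, t.sym (prod_mem fun x _ => r1 (β x) (φ.1 x))]] at s7
  refine (wide t v1 v2 t2 u1 u2.2 (Ne.symm u2.1) (s := (τ + 1) ^ B.card) (D₂ := m * (fs.card * D))
    (ι := Fintype.piFinset fun x => S (β x)) ?_ _ _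
    (fun φ => prod_mem fun x _ => r1 (β x) (φ.1 x))
    (fun φ => Lo.sg t.fac.2 (Equiv.swap c c₁) (Lo.mono (Lo.det
      (Matrix.of fun x y => aa (β x) (φ.1 x) (γ y)) fun x y => r2 _ _ _)
      (Nat.mul_le_mul_right _ (by omega))))
    (s7 ▸ (map_ne_zero_iff _ (sg _).injective).2 s0) W fun w hw => ⟨(hW w hw).1, ?_⟩).trans
    (arith hs hm t1)
  · rw [Fintype.card_coe, Fintype.card_piFinset,
      ← prod_filter_of_ne (p := fun x => (β x).isRight) fun x _ hx => ?_]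
    · refine (prod_le_pow_card _ _ (τ + 1) fun x _ => (card_le_univ _).trans (by simp)).trans
        (Nat.pow_le_pow_right (by omega) (card_le_card_of_injOn
          (fun x => (β x).elim (fun _ => 0) Subtype.val) (fun x hx => ?_) fun x hx y hy h => hβ ?_))
      · obtain ⟨j, e⟩ := Sum.isRight_iff.1 (mem_filter.1 hx).2
        simp [e]
      · obtain ⟨j, e⟩ := Sum.isRight_iff.1 (mem_filter.1 hx).2
        obtain ⟨j', e'⟩ := Sum.isRight_iff.1 (mem_filter.1 hy).2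
        simpa [e, e'] using h
    · rcases e : β x with i | j
      · simp [e, S] at hx
      · rfl
  · rw [← s7, ← s2, ← hδ]
    refine (van_of_der (fun k => ?_) h0 s5 ((hW w hw).2 c)).sg c₁
    rw [hδ]
    exact s4 (Loc (off c w)).toAddSubgroup (fun γ' => det_mem _ fun x y => sum_mem fun u _ =>
      mul_mem ((hW w hw).1.mon c (r1 _ _)) ((hW w hw).1.lo t c (r2 _ _ _))) k

end Pool.Agent.MP_57f271_lc.H4
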