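import Pool.Agent.MP_57f271_lc.H4.Rank
import Pool.Agent.MP_57f271_lc.H4.Top
import Pool.Agent.MP_57f271_lc.H4.Defs
import Pool.Agent.MP_57f271_lc.H7.Run

/-!
Specialisation of a tower to a symmetric family.
-/

set_option autoImplicit false

namespace Pool.Agent.MP_57f271_lc.H4

open Pool.Agent.MP_57f271_lc.H18 Pool.Agent.MP_57f271_lc.H7 MvPolynomial
open scoped Classical

variable {m : ℕ}

section Transfer

variable {σ : Type} {φ : MvPolynomial σ ℂ →+* LL m}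

/-- The value of a rational function at the generic point of the family. -/
noncomputable def val (φ : MvPolynomial σ ℂ →+* LL m) (v : FractionRing (MvPolynomial σ ℂ)) :
    LL m := if h : ∃ z, Rel φ v z then h.choose else 0

theorem rel_val {v : FractionRing (MvPolynomial σ ℂ)} {z : LL m} (h : Rel φ v z) : val φ v = z := by
  have h1 : ∃ z, Rel φ v z := ⟨z, h⟩
  rw [val, dif_pos h1]
  exact sub_eq_zero.1 ((h1.choose_spec.sub h).zero (sub_self _))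

theorem rel_C (hφ : ∀ c, φ (C c) = io (C c)) (c : ℂ) :
    Rel φ (algebraMap ℂ _ c) (io (C c)) := by
  rw [← hφ, IsScalarTower.algebraMap_apply ℂ (MvPolynomial σ ℂ)]
  exact Rel.of _

theorem rel_adjoin (hφ : ∀ c, φ (C c) = io (C c)) {R : Set (FractionRing (MvPolynomial σ ℂ))}
    {O : Subring (LL m)} (h0 : ∀ c, io (C c) ∈ O) (hR : ∀ v ∈ R, ∃ z ∈ O, Rel φ v z)
    {a : FractionRing (MvPolynomial σ ℂ)} (ha : a ∈ Algebra.adjoin ℂ R) : ∃ z ∈ O, Rel φ a z := by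
  induction ha using Algebra.adjoin_induction with
  | mem v hv => exact hR v hv
  | algebraMap c => exact ⟨_, h0 c, rel_C hφ c⟩
  | add x y _ _ h1 h2 =>
    obtain ⟨z, h3, h4⟩ := h1
    obtain ⟨w, h5, h6⟩ := h2
    exact ⟨_, add_mem h3 h5, h4.add h6⟩
  | mul x y _ _ h1 h2 =>
    obtain ⟨z, h3, h4⟩ := h1
    obtain ⟨w, h5, h6⟩ := h2
    exact ⟨_, mul_mem h3 h5, h4.mul h6⟩

theorem trdeg_val (hφ : ∀ c, φ (C c) = io (C c)) {R : Set (FractionRing (MvPolynomial σ ℂ))}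
    (hR : ∀ v ∈ R, ∃ z, Rel φ v z) {G : Set (LL m)} (hG : G ⊆ val φ '' R) :
    Algebra.trdeg ℂ (Algebra.adjoin ℂ G) ≤ Algebra.trdeg ℂ (Algebra.adjoin ℂ R) := by
  choose f h1 h2 using fun a : Algebra.adjoin ℂ R => rel_adjoin hφ (O := ⊤) (fun _ => trivial)
    (fun v hv => (hR v hv).imp fun _ h => ⟨trivial, h⟩) a.2
  have h3 : ∀ (a : Algebra.adjoin ℂ R) z, Rel φ a z → f a = z := fun a z h =>
    (rel_val (h2 a)).symm.trans (rel_val h)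
  let ψ : Algebra.adjoin ℂ R →ₐ[ℂ] LL m :=
    { toFun := f
      map_one' := h3 _ _ (by simpa using rel_C hφ 1)
      map_mul' a b := h3 _ _ ((h2 a).mul (h2 b))
      map_zero' := h3 _ _ (by simpa using rel_C hφ 0)
      map_add' a b := h3 _ _ ((h2 a).add (h2 b))
      commutes' c := h3 _ _ (io_C (m := m) c ▸ rel_C hφ c) }
  refine trdeg_le ψ (hG.trans ?_)
  rintro _ ⟨v, hv, rfl⟩
  exact ⟨⟨v, Algebra.subset_adjoin hv⟩, (rel_val (h2 ⟨v, Algebra.subset_adjoin hv⟩)).symm⟩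

theorem AL.C (T : Set (LL m)) (c : ℂ) : io (C c) ∈ AL T :=
  io_C (m := m) c ▸ Subalgebra.algebraMap_mem (Algebra.adjoin ℂ T) c

theorem rel_low {f : σ → RR m} {e D : ℕ} (hf : ∀ s, (f s).totalDegree ≤ e ∧ Sym (f s))
    (hφ : ∀ a, φ a = io (aeval f a)) {R : Set (FractionRing (MvPolynomial σ ℂ))} {T : Set (LL m)}
    (hT : AL T ≤ (symL m).toSubring) (hR : ∀ v ∈ R, ∃ z ∈ AL T, Rel φ v z)
    {P : FractionRing (MvPolynomial σ ℂ)} (hP : Low D R P) :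
    ∃ z, (z ∈ Lo io (AL T) (e * D) ∧ z ∈ symL m) ∧ Rel φ P z := by
  induction hP using Submodule.span_induction with
  | mem v hv =>
    obtain ⟨a, ha, rfl⟩ := hv
    refine ⟨_, ⟨?_, fun τ => ?_⟩, Rel.of a⟩ <;> rw [hφ]
    · exact Lo.poly ((deg_aeval (fun s => (hf s).1) a).trans (Nat.mul_le_mul_left _ ha))
    · rw [sg_io, ← AlgHom.comp_apply, comp_aeval]
      simp only [(hf _).2 τ]
  | zero => exact ⟨0, ⟨zero_mem _, zero_mem _⟩, by simpa using Rel.of (φ := φ) 0⟩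
  | add x y _ _ h1 h2 =>
    obtain ⟨z, h3, h4⟩ := h1
    obtain ⟨w, h5, h6⟩ := h2
    exact ⟨_, ⟨add_mem h3.1 h5.1, add_mem h3.2 h5.2⟩, h4.add h6⟩
  | smul a x _ h1 =>
    obtain ⟨z, h3, h4⟩ := h1
    obtain ⟨w, h5, h6⟩ := rel_adjoin (fun c => by simp [hφ]) (AL.C T) hR a.2
    exact ⟨_, ⟨by simpa using Lo.mul (Lo.const (d := 0) h5) h3.1, mul_mem (hT h5) h3.2⟩, h6.mul h4⟩

theorem rel_sum {ι : Type} (s : Finset ι) {v : ι → FractionRing (MvPolynomial σ ℂ)}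
    {z : ι → LL m} (h : ∀ i, Rel φ (v i) (z i)) : Rel φ (∑ i ∈ s, v i) (∑ i ∈ s, z i) := by
  induction s using Finset.induction_on with
  | empty => simpa using Rel.of (φ := φ) 0
  | insert a s ha ih =>
    rw [Finset.sum_insert ha, Finset.sum_insert ha]
    exact (h a).add ih

end Transfer

theorem mon0_mul {fs : Finset (LL m)} {y z : LL m} (hy : y = 0 ∨ y ∈ Mon fs)
    (hz : z = 0 ∨ z ∈ Mon fs) : y * z = 0 ∨ y * z ∈ Mon fs := by
  rcases hy with rfl | hy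
  · simp
  · exact hz.imp (by rintro rfl; simp) (mul_mem hy)

theorem arith' {r l k D : ℕ} (hm : r < m) (hk : k ≤ l) :
    k * ((r + 1) * (D + l * D + 2 * (r * (l * D)))) ≤ 4 * m ^ 2 * l ^ 2 * D := by
  rcases Nat.eq_zero_or_pos k with h0 | h0
  · simp [h0]
  have h1 : D ≤ m * (l * D) := by
    rw [← mul_assoc]
    exact Nat.le_mul_of_pos_left _ (Nat.mul_pos (by omega) (by omega))
  have h2 : l * D ≤ m * (l * D) := Nat.le_mul_of_pos_left _ (by omega)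
  have h3 : r * (l * D) ≤ m * (l * D) := Nat.mul_le_mul_right _ hm.le
  calc _ ≤ l * (m * (4 * (m * (l * D)))) := by gcongr <;> omega
    _ = _ := by ring

variable {S : System} {φ : MvPolynomial (Slot S.n S.k S.deg) ℂ →+* LL m}

theorem rel_mon (hS : ∀ v z, NonzeroAt S v → Rel φ v z → z ≠ 0) {A : Set (RF S)}
    {fs : Finset (LL m)} (hA : ∀ a ∈ A, ∃ z, (z = 0 ∨ z ∈ Mon fs) ∧ Rel φ a z) {u : RF S}
    (hu : u ∈ mon S A) : ∃ z, (z = 0 ∨ z ∈ Mon fs) ∧ Rel φ u z := by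
  induction hu using Submonoid.closure_induction with
  | mem x hx =>
    rcases hx with hx | ⟨hx, h1⟩
    · exact hA x hx
    · obtain ⟨z, h2, h3⟩ := hA _ hx
      have h4 := hS _ _ h1 h3
      exact ⟨z⁻¹, .inr (Mon.inv (h2.resolve_left h4)), by simpa using h3.inv h4⟩
  | one => exact ⟨1, .inr (one_mem _), by simpa using Rel.of (φ := φ) 1⟩
  | mul x y _ _ hx hy =>
    obtain ⟨z, h1, h2⟩ := hx
    obtain ⟨w, h3, h4⟩ := hy
    exact ⟨_, mon0_mul h1 h3, h2.mul h4⟩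

theorem rel_tw {c : Slot S.n S.k S.deg → RR m} {e D : ℕ}
    (hc : ∀ s, (c s).totalDegree ≤ e ∧ Sym (c s)) (hφ : ∀ a, φ a = io (aeval c a))
    (hS : ∀ v z, NonzeroAt S v → Rel φ v z → z ≠ 0) {N : Set (RF S)} (hN : ∀ y ∈ N, Rel φ y 0)
    {f : ℕ → RF S} {R : ℕ → Set (RF S)} (l : ℕ) (h1 : ∀ i ≤ l, R i ⊆ mon S (f '' Set.Iio i))
    (h2 : ∀ i < l, Low D (R i ∪ N) (f i)) : ∃ fs T, Tw (e * D) fs T ∧ fs.card ≤ l ∧
      T ⊆ val φ '' (⋃ i ≤ l, R i) ∧ (∀ i ≤ l, ∀ v ∈ R i, ∃ z ∈ AL T, Rel φ v z) ∧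
      ∀ a ∈ f '' Set.Iio l, ∃ z, (z = 0 ∨ z ∈ Mon fs) ∧ Rel φ a z := by
  have step : ∀ l fs T, Tw (e * D) fs T → R l ⊆ mon S (f '' Set.Iio l) →
      (∀ a ∈ f '' Set.Iio l, ∃ z, (z = 0 ∨ z ∈ Mon fs) ∧ Rel φ a z) →
      Tw (e * D) fs (T ∪ Mon fs ∩ val φ '' R l) ∧
        ∀ v ∈ R l, ∃ z ∈ AL (T ∪ Mon fs ∩ val φ '' R l), Rel φ v z := fun l fs T a1 a2 a3 => by
    refine ⟨a1.adj Set.inter_subset_left, fun v hv => ?_⟩
    obtain ⟨z, a4, a5⟩ := rel_mon hS a3 (a2 hv)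
    refine ⟨z, ?_, a5⟩
    rcases a4 with rfl | a4
    exacts [zero_mem _, Algebra.subset_adjoin (.inr ⟨a4, v, hv, rel_val a5⟩)]
  induction l with
  | zero =>
    obtain ⟨a1, a2⟩ := step 0 ∅ ∅ .base (h1 0 le_rfl) (by simp)
    exact ⟨_, _, a1, le_rfl, by simp, fun i hi => Nat.le_zero.1 hi ▸ a2, by simp⟩
  | succ l ih =>
    obtain ⟨fs, T, b1, b2, b3, b4, b5⟩ := ih (fun i hi => h1 i (by omega)) fun i hi => h2 i (by omega)
    obtain ⟨z, ⟨b6, b7⟩, b8⟩ := rel_low hc hφ b1.fac.2 (fun v hv => hv.elim (b4 l le_rfl v)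
      fun hv => ⟨0, zero_mem _, hN v hv⟩) (h2 l (by omega))
    obtain ⟨fs', c1, c2, c3, c4⟩ : ∃ fs', Tw (e * D) fs' T ∧ fs ⊆ fs' ∧ fs'.card ≤ l + 1 ∧
        (z = 0 ∨ z ∈ Mon fs') := by
      by_cases h0 : z = 0
      · exact ⟨fs, b1, subset_rfl, by omega, .inl h0⟩
      · exact ⟨_, b1.low b6 h0 b7, Finset.subset_insert _ _,
          (Finset.card_insert_le _ _).trans (by omega), .inr (Mon.of (by simp))⟩
    have c5 : ∀ a ∈ f '' Set.Iio (l + 1), ∃ z, (z = 0 ∨ z ∈ Mon fs') ∧ Rel φ a z := by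
      rintro _ ⟨i, hi, rfl⟩
      rcases Nat.lt_succ_iff_lt_or_eq.1 hi with hi | rfl
      · exact (b5 _ ⟨i, hi, rfl⟩).imp fun z h => ⟨h.1.imp_right (Mon.mono c2), h.2⟩
      · exact ⟨z, c4, b8⟩
    obtain ⟨a1, a2⟩ := step (l + 1) fs' T c1 (h1 _ le_rfl) c5
    refine ⟨_, _, a1, c3, ?_, fun i hi => ?_, c5⟩
    · rw [Set.biUnion_le_succ, Set.image_union]
      exact Set.union_subset_union b3 Set.inter_subset_right
    · rcases Nat.le_succ_iff.1 hi with hi | rfl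
      · exact fun v hv => (b4 i hi v hv).imp fun z h => ⟨AL.mono Set.subset_union_left h.1, h.2⟩
      · exact a2

theorem one {c : Slot S.n S.k S.deg → RR m} {e D l τ ν r : ℕ}
    (hc : ∀ s, (c s).totalDegree ≤ e ∧ Sym (c s)) (hφ : ∀ a, φ a = io (aeval c a))
    (hS : ∀ v z, NonzeroAt S v → Rel φ v z → z ≠ 0) {N : Set (RF S)} (hN : ∀ y ∈ N, Rel φ y 0)
    {v : RF S} (h : Rep S N D l τ ν r v) {z : LL m} (hz : Rel φ v z) (h0 : z ≠ 0) (hm : r + 2 ≤ m)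
    (c₀ : Fin m) (W : Finset ℂ) (hW : ∀ w ∈ W, z⁻¹ ∉ Loc (off c₀ w)) :
    W.card ≤ 10 * m ^ 2 * l ^ 2 * (e * D) * ((τ + 1) ^ ν) ^ 3 := by
  obtain ⟨f, R, F, ⟨h1, h2⟩, h3, h4, h5, u, h6, g, h7, g', h8, h9, e0⟩ := h
  have hC : ∀ a, φ (C a) = io (C a) := fun a => by simp [hφ]
  obtain ⟨fs, T, b1, b2, b3, b4, b5⟩ := rel_tw hc hφ hS hN l h1 h2
  have a1 : ∀ y ∈ F, ∃ μ : Fin τ → LL m, (∀ u, μ u = 0 ∨ μ u ∈ Mon fs) ∧ Rel φ y (∑ u, μ u) := by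
    intro y hy
    obtain ⟨k, μ, d1, rfl⟩ := h3 y hy
    choose x d2 d3 using fun u => rel_mon hS b5 (d1 u)
    exact ⟨fun u => io (C (k u)) * x u, fun u => mon0_mul
      ((eq_or_ne (k u) 0).imp (fun h => by simp [h]) Mon.C) (d2 u), rel_sum _ fun u => by
        rw [Algebra.smul_def]
        exact (rel_C hC _).mul (d3 u)⟩
  have a2 : ∀ y ∈ F, ∃ z, Rel φ y z := fun y hy => let ⟨_, _, h⟩ := a1 y hy; ⟨_, h⟩
  obtain ⟨B, c1, c2, c3⟩ := basis ((trdeg_val hC a2 subset_rfl).trans h4)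
  have a3 : Rk (AL (T ∪ B)) r := rk_of_trdeg ((trdeg_val hC (fun v hv => hv.elim (fun hv => by
    obtain ⟨i, hi, hv⟩ := Set.mem_iUnion₂.1 hv
    exact (b4 i hi v hv).imp fun _ h => h.2) (a2 v))
    (Set.image_union _ _ _ ▸ Set.union_subset_union b3 c1)).trans h5)
  have a4 : ∀ O : Subring (LL m), AL T ≤ O → (∀ y ∈ F, val φ y ∈ O) →
      val φ g ∈ O ∧ val φ g' ∈ O := fun O d1 d2 => by
    have : ∀ a ∈ Algebra.adjoin ℂ ((⋃ i ≤ l, R i) ∪ F ∪ N), val φ a ∈ O := fun a ha => by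
      obtain ⟨x, d3, d4⟩ := rel_adjoin hC (O := O) (fun c => d1 (AL.C T c)) (by
        rintro v ((hv | hv) | hv)
        · obtain ⟨i, hi, hv⟩ := Set.mem_iUnion₂.1 hv
          exact (b4 i hi v hv).imp fun _ h => ⟨d1 h.1, h.2⟩
        · obtain ⟨x, hx⟩ := a2 v hv
          exact ⟨x, rel_val hx ▸ d2 v hv, hx⟩
        · exact ⟨0, zero_mem _, hN v hv⟩) ha
      exact rel_val d4 ▸ d3
    exact ⟨this g h7, this g' h8⟩
  have a5 : ∀ O : Subring (LL m), AL T ≤ O → (∀ y ∈ Mon fs, y ∈ O) →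
      val φ g ∈ O ∧ val φ g' ∈ O := fun O d1 d2 => a4 O d1 fun y hy => by
    obtain ⟨μ, d3, d4⟩ := a1 y hy
    exact rel_val d4 ▸ sum_mem fun u _ => (d3 u).elim (fun h => h ▸ zero_mem _) (d2 _)
  have a6 : ∀ a ∈ Algebra.adjoin ℂ ((⋃ i ≤ l, R i) ∪ F ∪ N), Rel φ a (val φ a) := fun a ha => by
    obtain ⟨x, -, d4⟩ := rel_adjoin hC (O := ⊤) (fun c => trivial) (by
      rintro v ((hv | hv) | hv)
      · obtain ⟨i, hi, hv⟩ := Set.mem_iUnion₂.1 hv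
        exact (b4 i hi v hv).imp fun _ h => ⟨trivial, h.2⟩
      · exact (a2 v hv).imp fun _ h => ⟨trivial, h⟩
      · exact ⟨0, trivial, hN v hv⟩) ha
    rwa [rel_val d4]
  obtain ⟨u', d1, d2⟩ := rel_mon hS b5 h6
  have e1 : z * val φ g' = u' * val φ g :=
    sub_eq_zero.1 (((hz.mul (a6 _ h8)).sub (d2.mul (a6 _ h7))).zero (sub_eq_zero.2 e0))
  have e2 := mul_ne_zero h0 (hS _ _ h9 (a6 _ h8))
  rw [e1, mul_ne_zero_iff] at e2
  have e3 := (a5 _ b1.fac.2 fun y => b1.sym).1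
  rw [← Finset.card_filter_add_card_filter_not (s := W) fun w => Good fs w]
  refine (add_le_add (top b1 (τ := τ) B (fun y hy => ?_) a3 hm e2.2 (fun δ hδ => ?_) _ fun w hw => ?_)
    ((b1.bad (a3.mono (AL.mono Set.subset_union_left)) (by omega) b2 c₀ _ fun w hw => ?_).trans
      (arith' (m := m) (by omega) b2))).trans ?_
  · obtain ⟨x, hx, rfl⟩ := c1 hy
    obtain ⟨μ, d3, d4⟩ := a1 x hx
    exact ⟨μ, d3, rel_val d4⟩
  · exact (a4 (kr δ) ((AL.mono Set.subset_union_left).trans hδ) fun y hy =>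
      c3 δ (fun b hb => AL.kr.1 hδ b (.inr hb)) _ ⟨y, hy, rfl⟩).1
  · obtain ⟨d3, d4⟩ := Finset.mem_filter.1 hw
    have d5 := fun k => a5 (Loc (off k w))
      (b1.loc (Loc.io _) fun f hf _ => (d4 k f hf).2) fun y => d4.mon k
    refine ⟨d4, fun k => van_of_not_inv (d5 k).1 e2.2 fun d6 => hW w d3 ?_⟩
    rw [show z⁻¹ = val φ g' * u'⁻¹ * (val φ g)⁻¹ by
      rw [mul_assoc, ← mul_inv, ← e1, mul_inv, mul_left_comm,
        mul_inv_cancel₀ (hS _ _ h9 (a6 _ h8)), mul_one]]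
    exact mul_mem (mul_mem (d5 c₀).2 (d4.mon c₀ (Mon.inv (d1.resolve_left e2.1))))
      (off_sym (inv_mem e3) d6 c₀)
  · by_contra d3
    push Not at d3
    exact (Finset.mem_filter.1 hw).2 fun k f hf => ⟨off_sym (b1.fac.1 f hf).2 (d3 f hf).1 k,
      off_sym (inv_mem (b1.fac.1 f hf).2) (d3 f hf).2 k⟩
  · have d3 : 1 ≤ ((τ + 1) ^ ν) ^ 3 := Nat.one_le_pow _ _ (by positivity)
    have d4 : fs.card ≤ l ^ 2 := b2.trans (Nat.le_self_pow two_ne_zero l)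
    calc _ ≤ 6 * m ^ 2 * (l ^ 2 * (e * D)) * ((τ + 1) ^ ν) ^ 3 +
          4 * m ^ 2 * l ^ 2 * (e * D) * ((τ + 1) ^ ν) ^ 3 :=
          add_le_add (by gcongr; omega) (Nat.le_mul_of_pos_right _ d3)
      _ = _ := by ring

end Pool.Agent.MP_57f271_lc.H4
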