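import Pool.Agent.MP_57f271_lc.H7.Defs

namespace Pool.Agent.MP_57f271_lc.H4S

open Pool.Agent.MP_57f271_lc.H18 Pool.Agent.MP_57f271_lc.H7 MvPolynomial

/-- The quadrics `x j ^ 2 - x (j + 1)` for `j + 1 < n`, and `x (n - 1) ^ 2 - x 0 - 1`. -/
noncomputable def quad (n : ℕ) (j : Fin n) : MvPolynomial (Fin n) ℂ :=
  X j ^ 2 - if h : j.1 + 1 < n then X ⟨j.1 + 1, h⟩ else X ⟨0, j.pos⟩ + 1

/-- The system that consists of `f` and the `n` quadrics. -/
noncomputable def chain {n : ℕ} (f : MvPolynomial (Fin n) ℂ) : System :=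
  ⟨n, n + 1, Fin.cons f (quad n)⟩

/-- The entries after `t` steps on the system `S`, along the path that `S` takes, as rational
functions of the coefficients of the first polynomial; all other input entries are numbers. -/
noncomputable def symF (M : Machine) (E : Encoding) (S : System) :
    ℕ → ℤ → FractionRing (MvPolynomial (Fin S.n →₀ ℕ) ℂ) :=
  symRun M (E.state S) (Function.extend (E.pos S.n S.k S.deg)
    (fun s => toFrac (if s.1.1 = 0 then X s.2.1 else C (coeff s.2.1 (S.f s.1))))
    fun j => toFrac (C (E.rest S.n S.k S.deg j)))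

/-- The quotients of the two operands of those additions and subtractions, among the first `t`
steps on `S`, whose result has degree more than `D`. -/
def quots (M : Machine) (E : Encoding) (S : System) (D t : ℕ) :
    Set (FractionRing (MvPolynomial (Fin S.n →₀ ℕ) ℂ)) :=
  {y | ∃ s < t, ∃ o i j k q, M.instr (M.step^[s] (M.start, E.state S)).1 = .arith o i j k q ∧
    (o = .add ∨ o = .sub) ∧ ¬ LowDeg D (symF M E S (s + 1) k) ∧
    y = symF M E S s i / symF M E S s j}

/-- The transcendence degree of `ℂ[A]` over `ℂ`. -/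
noncomputable def tdeg {K : Type} [CommRing K] [Algebra ℂ K] (A : Set K) : Cardinal :=
  Algebra.trdeg ℂ (Algebra.adjoin ℂ A)

end Pool.Agent.MP_57f271_lc.H4S
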