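import Pool.Agent.MP_57f271_lc.H4.Arr
import Pool.Agent.MP_57f271_lc.H4.Rank

/-!
Towers of rational functions: zeros and poles along hyperplanes in general position.
-/

set_option autoImplicit false

namespace Pool.Agent.MP_57f271_lc.H4

open MvPolynomial Finset Pool.Agent.MP_57f271_lc.H7 WithZero
open scoped Classical

variable {m : ℕ} {J : Finset (Fin m)} {D D₁ d r : ℕ} {fs : Finset (LL m)} {T : Set (LL m)}
  {c : Fin m} {ξ : Dr m}

/-- Towers: factors of low degree over the ring so far, and new generators that are products. -/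
inductive Tv (D : ℕ) : Finset (LL m) → Set (LL m) → Prop
  | base : Tv D ∅ ∅
  | low {fs T f} : Tv D fs T → f ∈ Lo io (AL T) D → f ≠ 0 → Tv D (insert f fs) T
  | adj {fs T u} : Tv D fs T → u ∈ Mon fs → Tv D fs (insert u T)

theorem Tv.fac (h : Tv D fs T) : ∀ f ∈ fs, f ∈ Lo io (AL T) D ∧ f ≠ 0 := by
  induction h with
  | base => simp
  | low _ h1 h2 ih => exact forall_mem_insert _ _ _ |>.2 ⟨⟨h1, h2⟩, ih⟩
  | adj _ _ ih => exact fun f hf => ⟨Lo.up (AL.mono (Set.subset_insert _ _)) (ih f hf).1, (ih f hf).2⟩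

theorem Tv.rows (h : Tv D fs T) : ∃ ρ : Set (Fin m → LL m),
    (∀ y ∈ ρ, ∀ k, y k ∈ Lo io (AL T) (fs.card * D)) ∧
      ∀ δ : Dr m, AL T ≤ kr δ ↔ ∀ y ∈ ρ, ∑ k, y k * δ (io (X k)) = 0 := by
  induction h with
  | base => exact ⟨∅, by simp, fun δ => by simp [AL.kr]⟩
  | low _ _ _ ih =>
    obtain ⟨ρ, h1, h2⟩ := ih
    exact ⟨ρ, fun y hy k => Lo.mono (h1 y hy k)
      (Nat.mul_le_mul_right _ (card_le_card (subset_insert _ _))), h2⟩
  | @adj fs T u h h0 ih =>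
    obtain ⟨ρ, h1, h2⟩ := ih
    obtain ⟨h3, a, h4, h5⟩ := Mon.log h.fac h0
    have h6 : ∏ f ∈ fs, f ≠ 0 := prod_ne_zero_iff.2 fun f hf => (h.fac f hf).2
    have h7 : AL T ≤ AL (insert u T) := AL.mono (Set.subset_insert _ _)
    refine ⟨insert a ρ, ?_, fun δ => ⟨fun hδ => ?_, fun hδ => AL.kr.2 fun z hz => ?_⟩⟩
    · rintro y (rfl | hy) k
      exacts [Lo.up h7 (h4 k), Lo.up h7 (h1 y hy k)]
    · rintro y (rfl | hy)
      · have := h5 δ (h7.trans hδ)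
        rw [AL.kr.1 hδ u (.inl rfl), mul_zero] at this
        exact (mul_eq_zero.1 this.symm).resolve_left h3
      · exact (h2 δ).1 (h7.trans hδ) y hy
    · have h8 := (h2 δ).2 fun y hy => hδ y (.inr hy)
      rcases hz with rfl | hz
      · have := h5 δ h8
        rw [hδ _ (.inl rfl), mul_zero] at this
        exact (mul_eq_zero.1 this).resolve_left h6
      · exact AL.kr.1 h8 z hz

theorem Mon.le {O : Subring (LL m)} (h0 : ∀ p, io p ∈ O) (h1 : ∀ f ∈ fs, f ∈ O ∧ f⁻¹ ∈ O)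
    {u : LL m} (hu : u ∈ Mon fs) : u ∈ O :=
  Mon.ind (P := (· ∈ O)) (fun _ _ => h0 _) h1 (fun _ _ => mul_mem) hu

theorem Tv.loc (h : Tv D fs T) {O : Subring (LL m)} (h0 : ∀ p, io p ∈ O)
    (h1 : ∀ f ∈ fs, f ∈ O → f⁻¹ ∈ O) : AL T ≤ O := by
  induction h with
  | base => exact AL.le (fun c => h0 _) (by simp)
  | low _ _ _ ih => exact ih fun f hf => h1 f (mem_insert_of_mem hf)
  | adj h h2 ih =>
    refine AL.le (fun c => h0 _) ?_
    have := fun f hf => Lo.le (ih h1) h0 (h.fac f hf).1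
    rintro z (rfl | hz)
    exacts [Mon.le h0 (fun f hf => ⟨this f hf, h1 f hf (this f hf)⟩) h2,
      ih h1 (Algebra.subset_adjoin hz)]

theorem Tv.frame (h : Tv D fs T) (hr : Rk (AL T) r) : ∃ J : Finset (Fin m), J.card ≤ r ∧
    Rig (AL T) J ∧ ∀ c, c ∉ J → ∃ ξ, VL (AL T) J (r * (fs.card * D)) c ξ := by
  obtain ⟨ρ, h1, h2⟩ := h.rows
  obtain ⟨n, β, γ, -, h3, h4⟩ := kernel' fun (y : ρ) k => y.1 k
  obtain ⟨h5, hJ⟩ := rig_of_minor (A := AL T) h3 fun δ hδ a => (h2 δ).1 hδ _ (β a).2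
  refine ⟨_, hr _ hJ, hJ, fun c hc => ?_⟩
  obtain ⟨M, a1, a2, a3, a4⟩ := h4 c hc
  obtain ⟨ξ, hξ⟩ := exists_der M
  exact ⟨ξ, (h2 ξ).2 fun y hy => by simpa only [hξ] using a3 ⟨y, hy⟩, by rwa [hξ, a1],
    fun k hk => by rw [hξ, a2 k hk], fun k => hξ k ▸ a4 _ (fun γ' => Lo.mono
      (Lo.det _ fun a b => h1 _ (β a).2 _) (Nat.mul_le_mul_right _ (h5 ▸ hr _ hJ))) k⟩

/-- The polynomials that are not divisible by a prime. -/
def ofp {p : RR m} (hp : Prime p) : Submonoid (RR m) where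
  carrier := {b | ¬ p ∣ b}
  mul_mem' ha hb h := (hp.dvd_or_dvd h).elim ha hb
  one_mem' := hp.not_dvd_one

variable {ι : Type} {a : ι → Fin (m + 1) → ℂ}

theorem Tv.count (h : Tv D fs T) (hJ : Rig (AL T) J) (b : VL (AL T) J D₁ c ξ) {Z : LL m}
    (hZ : Z ∈ Lo io (kr ξ) d) (hZ0 : Z ≠ 0) (W : Finset ι) (hp : ∀ w, Prime (lf (a w)))
    (hg : ∀ g : Fin (m + 1) → ι, Function.Injective g → (∀ i, g i ∈ W) →
      (Matrix.of fun i j => a (g i) j).det ≠ 0)
    (hW : ∀ w ∈ W, Z ∈ Loc (ofp (hp w)) ∧ Z⁻¹ ∉ Loc (ofp (hp w))) :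
    W.card ≤ m * (d + ((m + 1) * (1 + m * D₁) + m * (fs.card * D + D₁)) + 1) := by
  refine countG b.ne (fun k => Lo.up b.kills (b.low k))
    (fun δ hδ => b.mult hJ (fun a ha => hδ _ (b.kills ha)) fun k hk => hδ _ (b.supp k hk))
    (Lo.up b.kills (Lo.prod fs fun f hf => (h.fac f hf).1))
    (prod_ne_zero_iff.2 fun f hf => (h.fac f hf).2) (fun v hE hp hΨ => ?_) hZ hZ0 W
    (fun w _ => hp w) hg fun w hw => ?_
  · let S : Submonoid (RR m) :=
      { carrier := {b | v (io b) = 1}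
        mul_mem' := fun {a b} (ha : v (io a) = 1) (hb : v (io b) = 1) =>
          show v (io (a * b)) = 1 by rw [map_mul, map_mul, ha, hb, mul_one]
        one_mem' := by simp }
    have c1 : ∀ f ∈ fs, v f ≤ 1 := fun f hf => by
      simpa using v_lo hE le_rfl (fun k => hp _) (Lo.up b.kills (h.fac f hf).1)
    rw [map_prod, prod_eq_one_iff_of_le_one' c1] at hΨ
    have c2 := h.loc (Loc.io S) fun f hf ⟨a, b, c3, c4⟩ => Loc.inv (h.fac f hf).2
      (show v (io a) = 1 by rw [← c4, map_mul, hΨ f hf, c3, mul_one]) c4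
    choose a b c3 c4 using fun k => Lo.le c2 (Loc.io S) (b.low k)
    refine ⟨∏ k, b k, fun k => (∏ j ∈ univ.erase k, b j) * a k, prod_mem fun k _ => c3 k,
      fun k => ?_⟩
    rw [← prod_erase_mul univ b (mem_univ k), map_mul, map_mul, ← c4]
    ring
  · obtain ⟨⟨x, y, h1, h2⟩, h3⟩ := hW w hw
    obtain ⟨x, rfl⟩ : lf (a w) ∣ x := by_contra fun h4 => h3 (Loc.inv hZ0 h4 h2)
    exact ⟨x, y, h1, h2⟩

theorem Tv.bad (h : Tv D fs T) (hr : Rk (AL T) r) (hm : r < m) {l : ℕ} (hl : fs.card ≤ l)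
    (W : Finset ι) (hp : ∀ w, Prime (lf (a w)))
    (hg : ∀ g : Fin (m + 1) → ι, Function.Injective g → (∀ i, g i ∈ W) →
      (Matrix.of fun i j => a (g i) j).det ≠ 0)
    (hW : ∀ w ∈ W, ∃ f ∈ fs, ¬ (f ∈ Loc (ofp (hp w)) ∧ f⁻¹ ∈ Loc (ofp (hp w)))) :
    W.card ≤ fs.card *
      (m * (D + ((m + 1) * (1 + m * (r * (l * D))) + m * (l * D + r * (l * D))) + 1)) := by
  induction h generalizing W with
  | base => simpa [eq_empty_iff_forall_notMem] using hW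
  | adj h _ ih => exact ih (hr.mono (AL.mono (Set.subset_insert _ _))) hl W hg hW
  | @low fs T f h h1 h2 ih =>
    by_cases hf : f ∈ fs
    · rw [insert_eq_of_mem hf] at hl hW ⊢
      exact ih hr hl W hg hW
    rw [card_insert_of_notMem hf] at hl ⊢
    obtain ⟨J, a1, a2, a3⟩ := h.frame hr
    obtain ⟨c, -, hc⟩ := exists_mem_notMem_of_card_lt_card (s := J) (t := univ)
      (by simp only [card_univ, Fintype.card_fin]; omega)
    obtain ⟨ξ, a4⟩ := a3 c hc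
    rw [← card_filter_add_card_filter_not (s := W) fun w =>
      ∃ f ∈ fs, ¬ (f ∈ Loc (ofp (hp w)) ∧ f⁻¹ ∈ Loc (ofp (hp w))), add_one_mul]
    refine add_le_add (ih hr (by omega) _ (fun g h3 h4 => hg g h3 fun i => (mem_filter.1 (h4 i)).1)
      fun w hw => (mem_filter.1 hw).2) ((h.count a2 a4 (Lo.up a4.kills h1) h2 _ hp
        (fun g h3 h4 => hg g h3 fun i => (mem_filter.1 (h4 i)).1) fun w hw => ?_).trans
          (by gcongr <;> omega))
    obtain ⟨h4, h5⟩ := mem_filter.1 hw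
    have h6 := Lo.le (h.loc (Loc.io (ofp (hp w))) fun g hg _ =>
      (not_not.1 fun h7 => h5 ⟨g, hg, h7⟩).2) (Loc.io _) h1
    obtain ⟨g, h7, h8⟩ := hW w h4
    obtain rfl : g = f := (mem_insert.1 h7).resolve_right fun h9 => h5 ⟨g, h9, h8⟩
    exact ⟨h6, fun h9 => h8 ⟨h6, h9⟩⟩

end Pool.Agent.MP_57f271_lc.H4
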