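import Pool.Agent.MP_57f271_lc.H4.Mach
import Pool.Agent.MP_57f271_lc.H4.Tv
import Pool.Agent.MP_57f271_lc.H4.Gp
import Pool.Agent.MP_57f271_lc.H4.SDefs

/-!
The run of a machine on a very general multilinear polynomial and the chain of quadrics.
-/

set_option autoImplicit false

namespace Pool.Agent.MP_57f271_lc.H4

open Pool.Agent.MP_57f271_lc.H18 Pool.Agent.MP_57f271_lc.H7 Pool.Agent.MP_57f271_lc.H4S
open MvPolynomial
open Function hiding eval
open scoped Classical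

variable {m : ℕ}

/-- Restriction to the zero set of an affine form. -/
noncomputable def rs (a : Fin (m + 1) → ℂ) (c : Fin m) : RR m →ₐ[ℂ] RR m :=
  aeval fun k => X k - C (if k = c then (a c.succ)⁻¹ else 0) * lf a

theorem rs_lf {a : Fin (m + 1) → ℂ} {c : Fin m} (h : a c.succ ≠ 0) : rs a c (lf a) = 0 := by
  have h1 : lf a = C (a 0) + ∑ k : Fin m, C (a k.succ) * X k := by
    simp [lf, bb, Fin.sum_univ_succ]
  have h2 : ∀ k : Fin m, rs a c (C (a k.succ) * X k) =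
      C (a k.succ) * X k - if k = c then lf a else 0 := fun k => by
    simp only [rs, map_mul, aeval_C, algebraMap_eq, aeval_X, mul_sub]
    split_ifs with h3
    · rw [h3, ← mul_assoc, ← map_mul, mul_inv_cancel₀ h, map_one, one_mul]
    · simp
  refine (congrArg (rs a c) h1).trans ?_
  rw [map_add, map_sum, Finset.sum_congr rfl fun k _ => h2 k, Finset.sum_sub_distrib,
    ← add_sub_assoc, ← algebraMap_eq, AlgHom.commutes, algebraMap_eq, ← h1]
  simp

theorem lf_dvd {a : Fin (m + 1) → ℂ} {c : Fin m} (h : a c.succ ≠ 0) {p : RR m} :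
    lf a ∣ p ↔ rs a c p = 0 := by
  refine ⟨fun ⟨b, hb⟩ => by rw [hb, map_mul, rs_lf h, zero_mul], fun h1 => ?_⟩
  suffices lf a ∣ p - rs a c p by simpa [h1] using this
  clear h1
  induction p using MvPolynomial.induction_on with
  | C c => simp [rs]
  | add a b ha hb => simpa only [map_add, add_sub_add_comm] using dvd_add ha hb
  | mul_X p j ha =>
    rw [map_mul, show p * X j - rs a c p * rs a c (X j) =
      (p - rs a c p) * X j + rs a c p * (X j - rs a c (X j)) by ring]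
    exact dvd_add (ha.mul_right _) (Dvd.dvd.mul_left (by simp [rs]) _)

theorem lf_ne {a : Fin (m + 1) → ℂ} (h : a 0 ≠ 0) : lf a ≠ 0 := fun h1 => h (by
  simpa [lf, bb, Fin.sum_univ_succ] using congrArg (eval 0) h1)

theorem lf_prime {a : Fin (m + 1) → ℂ} (c : Fin m) (h : ∀ j, a j ≠ 0) : Prime (lf a) :=
  ⟨lf_ne (h 0), fun h1 => (h1.map (rs a c)).ne_zero (rs_lf (h _)), fun x y h1 => by
    simpa only [lf_dvd (c := c) (h _), map_mul, mul_eq_zero] using h1⟩

variable {e : ℕ} {fs : Finset (LL m)} {T T₀ : Set (LL m)}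

theorem Tv.ins (h : Tv e fs T) {y : LL m} (h1 : y ∈ Lo io (AL T) e) (h2 : y ≠ 0) :
    ∃ fs', Tv e fs' T ∧ fs ⊆ fs' ∧ fs'.card ≤ fs.card + 1 ∧ y ∈ Mon fs' :=
  ⟨_, h.low h1 h2, Finset.subset_insert _ _, Finset.card_insert_le _ _, Mon.of (by simp)⟩

theorem Tv.conv (h : Tv e fs T) {v : LL m} (hv : Base e v ∨ v ∈ Mon fs) :
    ∃ fs', Tv e fs' T ∧ fs ⊆ fs' ∧ fs'.card ≤ fs.card + 2 ∧ (v ≠ 0 → v ∈ Mon fs') := by
  by_cases h0 : v = 0
  · exact ⟨fs, h, subset_rfl, by omega, fun h => absurd h0 h⟩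
  rcases hv with ⟨a, b, h1, h2, rfl⟩ | hv
  · obtain ⟨f1, a1, a2, a3, a4⟩ := h.ins (Lo.poly h1) (div_ne_zero_iff.1 h0).1
    obtain ⟨f2, b1, b2, b3, b4⟩ := a1.ins (Lo.poly h2) (div_ne_zero_iff.1 h0).2
    exact ⟨f2, b1, a2.trans b2, by omega, fun _ =>
      div_eq_mul_inv (io a) (io b) ▸ mul_mem (Mon.mono b2 a4) (Mon.inv b4)⟩
  · exact ⟨fs, h, subset_rfl, by omega, fun _ => hv⟩

theorem step_tv {Q : Type} (I : Instr Q) (x : ℤ → ℂ) {u : ℤ → LL m} (h : Tv e fs T) (hT : T ⊆ T₀)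
    (hQ : ∀ n, Base e (u n) ∨ u n ∈ Mon fs)
    (hq : ∀ o i j k q, I = .arith o i j k q → (o = .add ∨ o = .sub) →
      ¬ Base e (symStep (fun a => io (C a)) I x u k) → u j ≠ 0 → u i / u j ∈ T₀) :
    ∃ fs' T', Tv e fs' T' ∧ fs ⊆ fs' ∧ fs'.card ≤ fs.card + 5 ∧ T' ⊆ T₀ ∧
      (u (cr I) ≠ 0 → u (cr I) ∈ Mon fs') ∧ ∀ n, Base e (symStep (fun a => io (C a)) I x u n) ∨
        symStep (fun a => io (C a)) I x u n ∈ Mon fs' := by
  obtain ⟨f1, a1, a2, a3, a4⟩ := h.conv (hQ I.r1)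
  obtain ⟨f2, b1, b2, b3, b4⟩ := a1.conv ((hQ (cr I)).imp_right (Mon.mono a2))
  have b5 := fun h => Mon.mono b2 (a4 h)
  have upd : ∀ (k : ℤ) (w : LL m), (w ≠ 0 → ¬ Base e w → w ∈ Mon f2 ∨
      ∃ fs' T', Tv e fs' T' ∧ f2 ⊆ fs' ∧ fs'.card ≤ f2.card + 1 ∧ T' ⊆ T₀ ∧ w ∈ Mon fs') →
      ∃ fs' T', Tv e fs' T' ∧ fs ⊆ fs' ∧ fs'.card ≤ fs.card + 5 ∧ T' ⊆ T₀ ∧
        (u (cr I) ≠ 0 → u (cr I) ∈ Mon fs') ∧
        ∀ n, Base e (update u k w n) ∨ update u k w n ∈ Mon fs' := by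
    intro k w hw
    obtain ⟨fs', T', c1, c2, c3, c4, c5⟩ : ∃ fs' T', Tv e fs' T' ∧ f2 ⊆ fs' ∧
        fs'.card ≤ f2.card + 1 ∧ T' ⊆ T₀ ∧ (Base e w ∨ w ∈ Mon fs') := by
      by_cases h1 : Base e w
      · exact ⟨f2, T, b1, subset_rfl, by omega, hT, .inl h1⟩
      rcases hw (by rintro rfl; exact h1 ⟨0, 0, by simp, by simp, by simp⟩) h1 with
        h2 | ⟨fs', T', c1, c2, c3, c4, c5⟩
      exacts [⟨f2, T, b1, subset_rfl, by omega, hT, .inr h2⟩, ⟨fs', T', c1, c2, c3, c4, .inr c5⟩]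
    refine ⟨fs', T', c1, (a2.trans b2).trans c2, by omega, c4, fun h => Mon.mono c2 (b4 h),
      fun n => ?_⟩
    by_cases hn : n = k
    · subst hn
      rwa [update_self]
    · rw [update_of_ne hn]
      exact (hQ n).imp_right (Mon.mono ((a2.trans b2).trans c2))
  have sum : ∀ (y z : LL m) (ε : ℂ), ε ≠ 0 → (y ≠ 0 → y ∈ Mon f2) → (z ≠ 0 → z ∈ Mon f2) →
      (z ≠ 0 → y / z ∈ T₀) → y + io (C ε) * z ≠ 0 → y + io (C ε) * z ∈ Mon f2 ∨
      ∃ fs' T', Tv e fs' T' ∧ f2 ⊆ fs' ∧ fs'.card ≤ f2.card + 1 ∧ T' ⊆ T₀ ∧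
        y + io (C ε) * z ∈ Mon fs' := by
    intro y z ε h0 h1 h2 h3 h4
    rcases eq_or_ne z 0 with rfl | h5
    · exact .inl (by simpa using h1 (by simpa using h4))
    rcases eq_or_ne y 0 with rfl | h6
    · exact .inl (by simpa using mul_mem (Mon.C h0) (h2 h5))
    have h7 : y + io (C ε) * z = (y / z + io (C ε)) * z := by field_simp
    rw [h7] at h4 ⊢
    obtain ⟨f3, c1, c2, c3, c4⟩ := (b1.adj (u := y / z) (div_eq_mul_inv y z ▸
      mul_mem (h1 h6) (Mon.inv (h2 h5)))).ins (Lo.const (add_mem (Algebra.subset_adjoin (.inl rfl))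
        (AL.C _ ε))) (left_ne_zero_of_mul h4)
    exact .inr ⟨f3, _, c1, c2, c3, Set.insert_subset (h3 h5) hT,
      mul_mem c4 (Mon.mono c2 (h2 h5))⟩
  have h0 := fun n => (hQ n).imp_right (Mon.mono (a2.trans b2))
  rcases I with ⟨o, i, j, k, q⟩ | ⟨a, i, k, q⟩ | ⟨a, k, q⟩ | ⟨l, q⟩ | ⟨i, y, n⟩ | b
  · refine upd _ _ fun h1 h2 => ?_
    have h3 := fun h => hq o i j k q rfl h (by rwa [symStep, update_self])
    cases o <;> simp only [symOp] at h1 ⊢
    · simpa using sum (u i) (u j) 1 one_ne_zero b5 b4 (h3 (.inl rfl)) (by simpa using h1)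
    · simpa [sub_eq_add_neg] using sum (u i) (u j) (-1) (by simp) b5 b4 (h3 (.inr rfl))
        (by simpa [← sub_eq_add_neg] using h1)
    · exact .inl (mul_mem (b5 (left_ne_zero_of_mul h1)) (b4 (right_ne_zero_of_mul h1)))
    · split_ifs at h1 ⊢
      · exact absurd rfl h1
      · exact .inl (div_eq_mul_inv (u i) (u j) ▸
          mul_mem (b5 (div_ne_zero_iff.1 h1).1) (Mon.inv (b4 (div_ne_zero_iff.1 h1).2)))
  · exact upd _ _ fun h1 _ => .inl (mul_mem (Mon.C fun h => by simp [h] at h1)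
      (b5 (right_ne_zero_of_mul h1)))
  · exact upd _ _ fun h1 _ => .inl (Mon.C fun h => by simp [h] at h1)
  all_goals exact ⟨f2, T, b1, a2.trans b2, by omega, hT, b4, fun _ => h0 _⟩

theorem run_tv (M : Machine) (c0 : Fin M.m × (ℤ → LL m)) (h : ∀ n, Base e (c0.2 n)) (t : ℕ)
    (hq : ∀ s < t, ∀ o i j k q, M.instr ((stepL M)^[s] c0).1 = .arith o i j k q →
      (o = .add ∨ o = .sub) → ¬ Base e (((stepL M)^[s + 1] c0).2 k) →
      ((stepL M)^[s] c0).2 j ≠ 0 → ((stepL M)^[s] c0).2 i / ((stepL M)^[s] c0).2 j ∈ T₀) :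
    ∃ fs T, Tv e fs T ∧ fs.card ≤ 5 * t ∧ T ⊆ T₀ ∧
      (∀ s < t, crit M c0 s ≠ 0 → crit M c0 s ∈ Mon fs) ∧
      ∀ n, Base e (((stepL M)^[t] c0).2 n) ∨ ((stepL M)^[t] c0).2 n ∈ Mon fs := by
  induction t with
  | zero => exact ⟨∅, ∅, .base, le_rfl, by simp, by simp, fun n => .inl (h n)⟩
  | succ t ih =>
    obtain ⟨fs, T, h1, h2, h3, h4, h5⟩ := ih fun s hs => hq s (by omega)
    have h6 := hq t (by omega)
    rw [iterate_succ_apply'] at h6 ⊢
    obtain ⟨fs', T', a1, a2, a3, a4, a5, a6⟩ := step_tv _ _ h1 h3 h5 h6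
    refine ⟨fs', T', a1, by omega, a4, fun s hs => ?_, a6⟩
    rcases Nat.lt_succ_iff_lt_or_eq.1 hs with hs | rfl
    exacts [fun h => Mon.mono a2 (h4 s hs h), a5]

theorem arithS {r l e : ℕ} (hm : r < m) :
    l * (m * (e + ((m + 1) * (1 + m * (r * (l * e))) + m * (l * e + r * (l * e))) + 1)) ≤
      5 * (m + 1) ^ 4 * l ^ 2 * (e + 1) := by
  rcases Nat.eq_zero_or_pos l with rfl | h0
  · simp
  obtain ⟨l, rfl⟩ : ∃ l', l = l' + 1 := ⟨l - 1, by omega⟩
  calc _ ≤ (l + 1) * (m * (e + ((m + 1) * (1 + m * (m * ((l + 1) * e))) +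
        m * ((l + 1) * e + m * ((l + 1) * e))) + 1)) := by gcongr
    _ ≤ _ := by
      refine Nat.le.intro (k := (l + 1) * (5 * (m + 1) ^ 4 * (l + 1) * (e + 1) -
        m * (e + ((m + 1) * (1 + m * (m * ((l + 1) * e))) +
        m * ((l + 1) * e + m * ((l + 1) * e))) + 1))) ?_
      rw [← mul_add, Nat.add_sub_cancel' (by ring_nf; omega)]
      ring

theorem coreS (M : Machine) {n k : ℕ} (E : Encoding) (F : Fin (k + 1) → MvPolynomial (Fin n) (RR m))
    {d : Fin (k + 1) → ℕ} {ι : Type} [Fintype ι] {a : ι → Fin (m + 1) → ℂ}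
    (hd : ∀ p, (sys F p).deg = d) (hc : ∀ μ, ((F 0).coeff μ).totalDegree ≤ 1)
    (hq : ∀ i, i.1 ≠ 0 → ∀ μ, ∃ z, coeff μ (F i) = C z) (ha : ∀ w j, a w j ≠ 0)
    (hg : ∀ g : Fin (m + 1) → ι, Injective g → (Matrix.of fun i j => a (g i) j).det ≠ 0)
    (hf : ∀ p, (sys F p).Feasible ↔ ∃ w, eval p (lf (a w)) = 0)
    (hM : ∀ p, ∃ t b, M.Outputs (E.state (sys F p)) t b ∧ (b = true ↔ (sys F p).Feasible)) :
    ∃ p, ∀ t b D, M.Outputs (E.state (sys F p)) t b →
      tdeg (quots M E (sys F p) D t) + 2 ≤ (m + 1 : ℕ) →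
      Fintype.card ι ≤ 5 * (m + 1) ^ 4 * (5 * t) ^ 2 * (D + 2) := by
  have out : ∀ p t b, M.Outputs (E.state (sys F p)) t b → (b = true ↔ (sys F p).Feasible) :=
    fun p t b h => by
      obtain ⟨t', b', h1, h2⟩ := hM p
      rw [M.outputs_unique h h1, h2]
  have h0 : ∀ v : LL m, ∃ a b, a ≠ 0 ∧ (v ≠ 0 → v * io b = io a) := fun v => by
    obtain ⟨a, b, hb, rfl⟩ := IsFractionRing.div_surjective (A := RR m) v
    rcases eq_or_ne a 0 with rfl | ha
    · exact ⟨1, 1, one_ne_zero, fun h => absurd (by simp) h⟩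
    · exact ⟨a, b, ha, fun _ => div_mul_cancel₀ _ (io_ne (nonZeroDivisors.ne_zero hb))⟩
  choose x y hx hy using h0
  set c0 : Fin M.m × (ℤ → LL m) := (M.start, u0 E F d) with hc0
  obtain ⟨p, hp⟩ := exists_generic (fun s : ℕ => x (crit M c0 s) * ∏ w, lf (a w))
    fun s => mul_ne_zero (hx _) (Finset.prod_ne_zero_iff.2 fun w _ => lf_ne (ha w 0))
  simp only [map_mul, mul_ne_zero_iff, map_prod, Finset.prod_ne_zero_iff] at hp
  refine ⟨p, fun t b0 D h hr => ?_⟩
  obtain ⟨r, hr'⟩ := Cardinal.lt_aleph0.1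
    ((le_self_add.trans hr).trans_lt Cardinal.natCast_lt_aleph0)
  have hm : r < m := by
    rw [hr'] at hr
    have : r + 2 ≤ m + 1 := by exact_mod_cast hr
    omega
  have hg' : ∀ s, crit M c0 s ≠ 0 → ∃ a b, eval p a ≠ 0 ∧ crit M c0 s * io b = io a :=
    fun s h1 => ⟨_, _, (hp s).1, hy _ h1⟩
  obtain rfl := hd p
  have r1 := fun i => run_rel M _ (rel_state E F p) i fun s _ => hg' s
  let φ := io.comp (aeval fun μ => coeff μ (F 0) :
    MvPolynomial (Fin n →₀ ℕ) ℂ →ₐ[ℂ] RR m).toRingHom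
  have hφ : ∀ c, φ (C c) = io (C c) := fun c => by simp [φ]
  have r2 : ∀ s j, Rel φ (symF M E (sys F p) s j) (((stepL M)^[s] c0).2 j) := fun s => by
    induction s with
    | zero =>
      intro j
      have := Rel.ext (φ := φ) (E.inj n (k + 1) (sys F p).deg) (fun s => if s.1.1 = 0 then X s.2.1
        else C (coeff s.2.1 ((sys F p).f s.1))) (E.rest n (k + 1) (sys F p).deg) j
      rw [show (fun s : Slot n (k + 1) (sys F p).deg => φ (if s.1.1 = 0 then X s.2.1 else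
          C (coeff s.2.1 ((sys F p).f s.1)))) = fun s => io (coeff s.2.1 (F s.1)) from
        funext fun s => by
          split_ifs with h1
          · simp [φ, Fin.ext_iff.2 (h1.trans (Fin.val_zero _).symm)]
          · obtain ⟨z, hz⟩ := hq s.1 h1 s.2.1
            simp [hφ, sys, coeff_map, hz]] at this
      simp only [symF, symRun, toFrac, map_natCast]
      exact this
    | succ s ih =>
      intro j
      have := rel_step (φ := φ) C (M.instr ((stepL M)^[s] c0).1) ih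
        (x := (M.step^[s] (M.start, E.state (sys F p))).2) ⟨fun h => by
          by_contra h5
          obtain ⟨a, b, h6, h7⟩ := hg' s h5
          exact ((r1 s).2 _).ne h6 h7 h, ((r1 s).2 _).zero⟩ (ind_iff _ _) j
      simp only [hφ] at this
      rw [iterate_succ_apply', symF, symRun, (r1 s).1]
      exact this
  obtain ⟨fs, T, a1, a2, a3, a4, -⟩ := run_tv (e := 1 * (D + 1)) (T₀ := val φ ''
    {v ∈ quots M E (sys F p) D t | ∃ z, Rel φ v z}) M c0 (fun j => by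
      by_cases hj : ∃ s, E.pos n (k + 1) (sys F p).deg s = j
      · obtain ⟨s, rfl⟩ := hj
        refine ⟨coeff s.2.1 (F s.1), 1, ?_, by simp, by simp [hc0, u0, (E.inj _ _ _).extend_apply]⟩
        by_cases h1 : s.1.1 = 0
        · exact (Fin.ext_iff.2 (h1.trans (Fin.val_zero _).symm) ▸ hc _).trans (by omega)
        · obtain ⟨z, hz⟩ := hq s.1 h1 s.2.1
          simp [hz]
      · exact ⟨C (E.rest n (k + 1) (sys F p).deg j), 1, by rw [totalDegree_C]; omega, by simp,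
          by simp [hc0, u0, extend_apply' _ _ _ hj]⟩) t fun s hs o i j k q h1 h2 h3 h4 => by
      have h5 := (r2 s i).mul ((r2 s j).inv h4)
      rw [← div_eq_mul_inv, ← div_eq_mul_inv] at h5
      exact ⟨_, ⟨⟨s, hs, o, i, j, k, q, (r1 s).1 ▸ h1, h2,
        fun h6 => h3 (base_of_low hc (r2 _ k) h6), rfl⟩, _, h5⟩, rel_val h5⟩
  have a5 : Rk (AL T) r := rk_of_trdeg ((trdeg_val hφ (fun _ h => h.2) a3).trans
    ((trdeg_le_of_injective (Subalgebra.inclusion (Algebra.adjoin_mono fun _ h => h.1))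
      (Subalgebra.inclusion_injective _)).trans hr'.le))
  let c₀ : Fin m := ⟨0, by omega⟩
  refine (a1.bad a5 hm a2 Finset.univ (fun w => lf_prime c₀ (ha w)) (fun g h _ => hg g h)
    fun w _ => ?_).trans ((Nat.mul_le_mul_right _ a2).trans ((arithS hm).trans_eq (by ring)))
  by_contra h1
  push Not at h1
  have h2 : ∀ s, ∃ x y, rs (a w) c₀ x ≠ 0 ∧
      (s < t → crit M c0 s ≠ 0 → crit M c0 s * io y = io x) := fun s => by
    by_cases h3 : s < t ∧ crit M c0 s ≠ 0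
    · obtain ⟨x, y, h4, h5⟩ := Mon.le (Loc.io _) h1 (Mon.inv (a4 s h3.1 h3.2))
      exact ⟨y, x, fun h => h4 ((lf_dvd (ha w _)).2 h), fun _ h6 => by
        rw [← h5]; exact mul_inv_cancel_left₀ h6 _⟩
    · exact ⟨1, 1, by simp, fun h4 h5 => absurd ⟨h4, h5⟩ h3⟩
  choose x' y' hx' hy' using h2
  obtain ⟨q, hq'⟩ := exists_generic _ hx'
  simp only [rs, eval_aeval'] at hq'
  have h3 := (run_rel M _ (hd _ ▸ rel_state E F _) t fun s hs h1 =>
    ⟨_, _, hq' s, hy' s hs h1⟩).1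
  obtain ⟨w', hw'⟩ := (hf p).1 ((out p t b0 h).1 ((out _ t b0
    (by rwa [Machine.Outputs, h3, ← (r1 t).1])).2 ((hf _).2 ⟨w, by
      rw [← eval_aeval']
      exact (congrArg (eval q) (rs_lf (ha w _))).trans (map_zero _)⟩)))
  exact (hp 0).2 w' (Finset.mem_univ _) hw'

theorem quad_iff {n : ℕ} (z : Fin (n + 1) → ℂ) : (∀ j, eval z (quad (n + 1) j) = 0) ↔
    ∃ w : ℂ, w ^ 2 ^ (n + 1) = w + 1 ∧ ∀ j, z j = w ^ 2 ^ j.1 := by
  have h1 : ∀ j : Fin n, eval z (quad (n + 1) j.castSucc) = z j.castSucc ^ 2 - z j.succ :=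
    fun j => by simp [quad]; rfl
  have h2 : eval z (quad (n + 1) (Fin.last n)) = z (Fin.last n) ^ 2 - (z 0 + 1) := by simp [quad]
  rw [Fin.forall_fin_succ']
  simp only [h1, h2, sub_eq_zero]
  constructor
  · rintro ⟨h1, h2⟩
    have h3 : ∀ j, z j = z 0 ^ 2 ^ j.1 := fun j => by
      induction j using Fin.induction with
      | zero => simp
      | succ i ih => rw [← h1, ih, Fin.val_succ, Fin.val_castSucc, pow_succ 2, pow_mul]
    exact ⟨z 0, by rw [← h2, h3 (Fin.last n), pow_succ 2, pow_mul, Fin.val_last], h3⟩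
  · rintro ⟨w, h1, h2⟩
    exact ⟨fun i => by rw [h2, h2, Fin.val_succ, Fin.val_castSucc, pow_succ 2, pow_mul],
      by rw [h2, h2, Fin.val_last, ← pow_mul, ← pow_succ, h1]; simp⟩

theorem card_small (n d : ℕ) : (Finset.univ.filter fun T : Finset (Fin n) => T.card ≤ d).card =
    ∑ j ∈ Finset.range (d + 1), n.choose j := by
  rw [Finset.card_eq_sum_card_fiberwise (f := Finset.card) (t := Finset.range (d + 1))
    fun T hT => by simpa [Nat.lt_succ_iff] using hT]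
  refine Finset.sum_congr rfl fun j hj => ?_
  refine Eq.trans (congrArg Finset.card (a₂ := Finset.univ.powersetCard j) ?_) (by simp)
  ext T
  have := Finset.mem_range.1 hj
  simp only [Finset.mem_filter, Finset.mem_univ, true_and, Finset.mem_powersetCard_univ]
  omega

theorem mainS (n d : ℕ) (hd : d ≤ n) (M : Machine) (E : Encoding)
    (hM : ∀ f : MvPolynomial (Fin n) ℂ, f.totalDegree = d →
      ∃ t b, M.Outputs (E.state (chain f)) t b ∧ (b = true ↔ (chain f).Feasible)) :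
    ∃ f : MvPolynomial (Fin n) ℂ, f.totalDegree = d ∧
      ∀ t b D, M.Outputs (E.state (chain f)) t b →
        tdeg (quots M E (chain f) D t) + 2 ≤ (∑ j ∈ Finset.range (d + 1), n.choose j : ℕ) →
        2 ^ n ≤ 125 * (∑ j ∈ Finset.range (d + 1), n.choose j) ^ 4 * t ^ 2 * (D + 2) := by
  rcases n with _ | n
  · obtain rfl := Nat.le_zero.1 hd
    exact ⟨1, by simp, fun t b D _ h => absurd (le_add_self.trans h) (by simp)⟩
  obtain ⟨T₀, -, h0⟩ := Finset.exists_subset_card_eq (s := (Finset.univ : Finset (Fin (n + 1))))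
    (n := d) (by simpa using hd)
  have h1 := card_small (n + 1) d
  obtain ⟨m, hm⟩ : ∃ m, ∑ j ∈ Finset.range (d + 1), (n + 1).choose j = m + 1 :=
    ⟨_, (Nat.succ_pred_eq_of_pos (h1 ▸ Finset.card_pos.2 ⟨T₀, by simp [h0]⟩)).symm⟩
  rw [hm] at h1 ⊢
  let e' := Finset.equivFinOfCardEq h1
  let e := (Equiv.swap 0 (e' ⟨T₀, by simp [h0]⟩)).trans e'.symm
  have e0 : (e 0).1 = T₀ := by simp [e]
  let ε : Fin (m + 1) → ℕ := fun j => ∑ i ∈ (e j).1.map Fin.valEmbedding, 2 ^ i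
  let μ : Fin (m + 1) → Fin (n + 1) →₀ ℕ := fun j => ∑ i ∈ (e j).1, Finsupp.single i 1
  have hμ : Injective μ := fun a b h => e.injective (Subtype.ext (Finset.ext fun i => by
    have := DFunLike.congr_fun h i
    simp only [μ, Finsupp.finsetSum_apply, Finsupp.single_apply, Finset.sum_ite_eq'] at this
    split_ifs at this <;> simp_all))
  have hμ' : ∀ j, (μ j).sum (fun _ k => k) = (e j).1.card := fun j => by
    change (μ j).degree = _
    simp [μ]
  let F₀ : MvPolynomial (Fin (n + 1)) (RR m) := ∑ j, monomial (μ j) (bb m j)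
  have he : ∀ (p : Fin m → ℂ) (g : MvPolynomial (Fin (n + 1)) ℂ),
      map (eval p) (map (C : ℂ →+* RR m) g) = g := fun p g => by
    rw [MvPolynomial.map_map,
      show (eval p).comp C = RingHom.id ℂ from RingHom.ext fun c => eval_C c, MvPolynomial.map_id]
  have hF : ∀ p, map (eval p) F₀ = ∑ j, monomial (μ j) (eval p (bb m j)) := fun p => by
    simp only [F₀, map_sum, map_monomial]
  have hD : ∀ p, (map (eval p) F₀).totalDegree = d := fun p => by
    rw [hF]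
    refine le_antisymm (totalDegree_finsetSum_le fun j _ => (totalDegree_monomial_le _ _).trans
      ((hμ' j).trans_le (Finset.mem_filter.1 (e j).2).2)) ?_
    rw [← h0, ← e0, ← hμ']
    exact le_totalDegree (by simp [coeff_sum, coeff_monomial, hμ.eq_iff, bb])
  let F : Fin (n + 1 + 1) → MvPolynomial (Fin (n + 1)) (RR m) :=
    Fin.cons F₀ fun j => map C (quad (n + 1) j)
  have hS : ∀ p, sys F p = chain (map (eval p) F₀) := fun p =>
    congrArg (System.mk _ _) (funext (Fin.cases rfl fun j => he p _))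
  have hN : 2 ≤ 2 ^ (n + 1) := Nat.le_self_pow (by omega) 2
  obtain ⟨p, hp⟩ := coreS M E F (d := Fin.cons d fun j => (quad (n + 1) j).totalDegree)
    (ι := (Polynomial.X ^ 2 ^ (n + 1) - Polynomial.X - 1 : Polynomial ℂ).roots.toFinset)
    (a := fun w j => w.1 ^ ε j)
    (fun p => funext (Fin.cases (hD p) fun j => congrArg totalDegree (he p _)))
    (fun ν => by
      simp only [F, F₀, Fin.cons_zero, coeff_sum, coeff_monomial]
      exact totalDegree_finsetSum_le fun j _ => by split_ifs; exacts [bb_deg j, by simp])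
    (Fin.cases (fun h => absurd rfl h) fun j _ ν => ⟨_, coeff_map _ _ _⟩)
    (fun w j => pow_ne_zero _ fun h => by simpa [h] using (sel_mem hN).1 w.2)
    (fun g hg => genpos hN ε (fun a b h => e.injective (Subtype.ext
      (Finset.map_injective _ (Finset.geomSum_injective le_rfl h))))
      (fun j => Nat.geomSum_lt le_rfl fun k hk => by
        obtain ⟨i, -, rfl⟩ := Finset.mem_map.1 hk
        exact i.2) _ (Subtype.val_injective.comp hg) fun i => (sel_mem hN).1 (g i).2)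
    (fun p => by
      have hv : ∀ (z : Fin (n + 1) → ℂ) (w : ℂ), (∀ j, z j = w ^ 2 ^ j.1) →
          eval z (map (eval p) F₀) = eval p (lf fun j => w ^ ε j) := fun z w h => by
        simp only [hF, lf, map_sum, map_mul, eval_C, μ, ε, monomial_sum_index, ← X.eq_1, map_prod,
          eval_X, h, Finset.prod_pow_eq_pow_sum, Finset.sum_map, Fin.valEmbedding_apply, mul_comm]
      rw [hS]
      refine ⟨fun ⟨z, hz⟩ => ?_, fun ⟨w, hw⟩ => ⟨fun j => w.1 ^ 2 ^ j.1, Fin.cases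
        ((hv _ w fun _ => rfl).trans hw)
        ((quad_iff _).2 ⟨w, (sel_mem hN).1 w.2, fun _ => rfl⟩)⟩⟩
      obtain ⟨w, h1, h2⟩ := (quad_iff z).1 fun j => hz j.succ
      exact ⟨⟨w, (sel_mem hN).2 h1⟩, (hv z w h2).symm.trans (hz (0 : Fin (n + 2)))⟩)
    fun p => hS p ▸ hM _ (hD p)
  rw [hS, Fintype.card_coe, sel_card hN] at hp
  exact ⟨_, hD p, fun t b D h1 h2 => (hp t b D h1 h2).trans_eq (by ring)⟩

end Pool.Agent.MP_57f271_lc.H4
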