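import Pool.Agent.MP_57f271_lc.H4.Curve

/-!
Towers of symmetric rational functions: zeros and poles along parallel hyperplanes.
-/

set_option autoImplicit false

namespace Pool.Agent.MP_57f271_lc.H4

open MvPolynomial Finset Pool.Agent.MP_57f271_lc.H7 WithZero
open scoped Classical

variable {m : ℕ} {A : Subring (LL m)} {J : Finset (Fin m)} {D d r : ℕ} {fs : Finset (LL m)}
  {T : Set (LL m)}

/-- The ring generated by a set and the constants. -/
noncomputable def AL (T : Set (LL m)) : Subring (LL m) := (Algebra.adjoin ℂ T).toSubring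

theorem AL.mono {T' : Set (LL m)} (h : T ⊆ T') : AL T ≤ AL T' := fun _ ha =>
  Algebra.adjoin_mono h ha

theorem AL.le {O : Subring (LL m)} (h0 : ∀ c, io (C c) ∈ O) (h : ∀ z ∈ T, z ∈ O) : AL T ≤ O :=
  fun a ha => by
  induction (show a ∈ Algebra.adjoin ℂ T from ha) using Algebra.adjoin_induction with
  | mem s hs => exact h s hs
  | algebraMap c => exact io_C (m := m) c ▸ h0 c
  | add x y hx hy h1 h2 => exact add_mem (h1 hx) (h2 hy)
  | mul x y hx hy h1 h2 => exact mul_mem (h1 hx) (h2 hy)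

theorem AL.kr {δ : Dr m} : AL T ≤ kr δ ↔ ∀ z ∈ T, δ z = 0 :=
  ⟨fun h _ hz => h (Algebra.subset_adjoin hz), fun h => AL.le (O := H4.kr δ) (der_C δ) h⟩

/-- The symmetric rational functions. -/
def symL (m : ℕ) : Subfield (LL m) where
  carrier := {z | ∀ σ, sg σ z = z}
  mul_mem' ha hb σ := by rw [map_mul, ha σ, hb σ]
  one_mem' σ := map_one _
  add_mem' ha hb σ := by rw [map_add, ha σ, hb σ]
  zero_mem' σ := map_zero _
  neg_mem' ha σ := by rw [map_neg, ha σ]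
  inv_mem' _ ha σ := by rw [map_inv₀, ha σ]

theorem symL_C (c : ℂ) : io (C c) ∈ symL m := fun σ => by rw [sg_io, rename_C]

theorem Lo.le {O : Subring (LL m)} (h : A ≤ O) (h0 : ∀ p, io p ∈ O) {z : LL m}
    (hz : z ∈ Lo io A d) : z ∈ O :=
  Lo.ind (P := (· ∈ O)) O.zero_mem (fun _ ha p _ => mul_mem (h ha) (h0 p)) (fun _ _ => add_mem) hz

theorem Lo.up {B : Subring (LL m)} (h : A ≤ B) {z : LL m} (hz : z ∈ Lo io A d) : z ∈ Lo io B d :=
  Lo.map (RingHom.id _) (fun _ ha => h ha) (fun _ hp => Lo.poly hp) hz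

theorem Lo.grad {f : LL m} (hf : f ∈ Lo io A d) : ∃ g : Fin m → LL m, (∀ k, g k ∈ Lo io A d) ∧
    ∀ δ : Dr m, A ≤ kr δ → δ f = ∑ k, g k * δ (io (X k)) := by
  refine Lo.ind (P := fun f => ∃ g : Fin m → LL m, (∀ k, g k ∈ Lo io A d) ∧
    ∀ δ : Dr m, A ≤ kr δ → δ f = ∑ k, g k * δ (io (X k))) ⟨0, by simp, by simp⟩
    (fun a ha p hp => ⟨fun k => a * io (pderiv k p),
      fun k => Lo.gen ha ((deg_pderiv k p).trans hp), fun δ hδ => ?_⟩) ?_ hf
  · rw [Derivation.leibniz, mem_kr.1 (hδ ha), smul_zero, add_zero, smul_eq_mul, der_io, mul_sum]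
    simp only [mul_assoc]
  · rintro x y ⟨g, h1, h2⟩ ⟨g', h3, h4⟩
    exact ⟨g + g', fun k => add_mem (h1 k) (h3 k), fun δ hδ => by
      simp only [map_add, h2 δ hδ, h4 δ hδ, Pi.add_apply, add_mul, sum_add_distrib]⟩

/-- Products of constants, members of `fs` and their inverses. -/
noncomputable def Mon (fs : Finset (LL m)) : Submonoid (LL m) :=
  Submonoid.closure {u | (∃ c : ℂ, c ≠ 0 ∧ u = io (C c)) ∨ ∃ f ∈ fs, u = f ∨ u = f⁻¹}

theorem Mon.ind {P : LL m → Prop} (h0 : ∀ c : ℂ, c ≠ 0 → P (io (C c)))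
    (h1 : ∀ f ∈ fs, P f ∧ P f⁻¹) (h2 : ∀ x y, P x → P y → P (x * y)) {u : LL m}
    (hu : u ∈ Mon fs) : P u := by
  induction hu using Submonoid.closure_induction with
  | mem x hx =>
    rcases hx with ⟨c, hc, rfl⟩ | ⟨f, hf, rfl | rfl⟩
    exacts [h0 c hc, (h1 _ hf).1, (h1 _ hf).2]
  | one => simpa using h0 1 one_ne_zero
  | mul x y _ _ hx hy => exact h2 x y hx hy

theorem Mon.C {c : ℂ} (hc : c ≠ 0) : io (C c) ∈ Mon fs :=
  Submonoid.subset_closure (.inl ⟨c, hc, rfl⟩)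

theorem Mon.of {f : LL m} (hf : f ∈ fs) : f ∈ Mon fs :=
  Submonoid.subset_closure (.inr ⟨f, hf, .inl rfl⟩)

theorem Mon.inv {u : LL m} (hu : u ∈ Mon fs) : u⁻¹ ∈ Mon fs :=
  Mon.ind (P := fun u => u⁻¹ ∈ Mon fs)
    (fun c hc => by rw [io_C, ← map_inv₀, ← io_C]; exact Mon.C (inv_ne_zero hc))
    (fun f hf => ⟨Submonoid.subset_closure (.inr ⟨f, hf, .inr rfl⟩), by
      rw [inv_inv]; exact Mon.of hf⟩) (fun x y hx hy => by rw [mul_inv]; exact mul_mem hx hy) hu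

theorem Mon.mono {fs' : Finset (LL m)} (h : fs ⊆ fs') {u : LL m} (hu : u ∈ Mon fs) :
    u ∈ Mon fs' :=
  Mon.ind (P := (· ∈ Mon fs')) (fun _ => Mon.C)
    (fun _ hf => ⟨Mon.of (h hf), Mon.inv (Mon.of (h hf))⟩) (fun _ _ => mul_mem) hu

theorem Mon.log (h : ∀ f ∈ fs, f ∈ Lo io A D ∧ f ≠ 0) {u : LL m} (hu : u ∈ Mon fs) :
    u ≠ 0 ∧ ∃ a : Fin m → LL m, (∀ k, a k ∈ Lo io A (fs.card * D)) ∧ ∀ δ : Dr m, A ≤ kr δ →
      (∏ f ∈ fs, f) * δ u = u * ∑ k, a k * δ (io (X k)) := by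
  refine Mon.ind (P := fun u => u ≠ 0 ∧ ∃ a : Fin m → LL m, (∀ k, a k ∈ Lo io A (fs.card * D)) ∧
    ∀ δ : Dr m, A ≤ kr δ → (∏ f ∈ fs, f) * δ u = u * ∑ k, a k * δ (io (X k)))
    (fun c hc => ⟨io_ne (C_ne_zero.2 hc), 0, by simp, fun δ _ => by simp [der_C]⟩)
    (fun f hf => ?_) ?_ hu
  · obtain ⟨g, h1, h2⟩ := Lo.grad (h f hf).1
    have h0 := (h f hf).2
    have h3 : ∀ k, (∏ f' ∈ fs.erase f, f') * g k ∈ Lo io A (fs.card * D) := fun k => by
      rw [← card_erase_add_one hf, add_one_mul]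
      exact Lo.mul (Lo.prod _ fun f' hf' => (h f' (mem_of_mem_erase hf')).1) (h1 k)
    refine ⟨⟨h0, _, h3, fun δ hδ => ?_⟩, inv_ne_zero h0, _, fun k => neg_mem (h3 k),
      fun δ hδ => ?_⟩
    · rw [← mul_prod_erase fs (fun f => f) hf, h2 δ hδ]
      simp only [mul_sum, mul_assoc]
    · rw [← mul_prod_erase fs (fun f => f) hf, Derivation.leibniz_inv, h2 δ hδ]
      simp only [neg_mul, mul_assoc, sum_neg_distrib, ← mul_sum, smul_eq_mul]
      field_simp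
  · rintro x y ⟨h1, a, h2, h3⟩ ⟨h4, b, h5, h6⟩
    refine ⟨mul_ne_zero h1 h4, a + b, fun k => add_mem (h2 k) (h5 k), fun δ hδ => ?_⟩
    simp only [Derivation.leibniz, smul_eq_mul, Pi.add_apply, add_mul, sum_add_distrib]
    linear_combination y * h3 δ hδ + x * h6 δ hδ

/-- Towers: factors of low degree over the ring so far, and new generators that are products. -/
inductive Tw (D : ℕ) : Finset (LL m) → Set (LL m) → Prop
  | base : Tw D ∅ ∅
  | low {fs T f} : Tw D fs T → f ∈ Lo io (AL T) D → f ≠ 0 → f ∈ symL m → Tw D (insert f fs) T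
  | adj {fs T T'} : Tw D fs T → T' ⊆ (Mon fs : Set (LL m)) → Tw D fs (T ∪ T')

theorem Tw.fac (h : Tw D fs T) : (∀ f ∈ fs, (f ∈ Lo io (AL T) D ∧ f ≠ 0) ∧ f ∈ symL m) ∧
    AL T ≤ (symL m).toSubring := by
  induction h with
  | base => exact ⟨by simp, AL.le symL_C (by simp)⟩
  | low _ h1 h2 h3 ih => exact ⟨forall_mem_insert _ _ _ |>.2 ⟨⟨⟨h1, h2⟩, h3⟩, ih.1⟩, ih.2⟩
  | adj _ h1 ih =>
    refine ⟨fun f hf => ⟨⟨Lo.up (AL.mono Set.subset_union_left) (ih.1 f hf).1.1, (ih.1 f hf).1.2⟩,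
      (ih.1 f hf).2⟩, AL.le symL_C fun z hz => hz.elim
        (fun hz => ih.2 (Algebra.subset_adjoin hz)) fun hz => ?_⟩
    exact Mon.ind (P := (· ∈ symL m)) (fun c _ => symL_C c)
      (fun f hf => ⟨(ih.1 f hf).2, inv_mem (ih.1 f hf).2⟩) (fun _ _ => mul_mem) (h1 hz)

theorem Tw.rows (h : Tw D fs T) : ∃ ρ : Set (Fin m → LL m),
    (∀ y ∈ ρ, ∀ k, y k ∈ Lo io (AL T) (fs.card * D)) ∧
      ∀ δ : Dr m, AL T ≤ kr δ ↔ ∀ y ∈ ρ, ∑ k, y k * δ (io (X k)) = 0 := by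
  induction h with
  | base => exact ⟨∅, by simp, fun δ => by simp [AL.kr]⟩
  | low _ _ _ _ ih =>
    obtain ⟨ρ, h1, h2⟩ := ih
    exact ⟨ρ, fun y hy k => Lo.mono (h1 y hy k)
      (Nat.mul_le_mul_right _ (card_le_card (subset_insert _ _))), h2⟩
  | @adj fs T T' h h0 ih =>
    obtain ⟨ρ, h1, h2⟩ := ih
    choose h3 a h4 h5 using fun u : T' => Mon.log (fun f hf => (h.fac.1 f hf).1) (h0 u.2)
    have h6 : ∏ f ∈ fs, f ≠ 0 := prod_ne_zero_iff.2 fun f hf => (h.fac.1 f hf).1.2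
    have h7 : AL T ≤ AL (T ∪ T') := AL.mono Set.subset_union_left
    refine ⟨ρ ∪ Set.range a, ?_, fun δ => ⟨fun hδ => ?_, fun hδ => AL.kr.2 fun z hz => ?_⟩⟩
    · rintro y (hy | ⟨u, rfl⟩) k
      exacts [Lo.up h7 (h1 y hy k), Lo.up h7 (h4 u k)]
    · rintro y (hy | ⟨u, rfl⟩)
      · exact (h2 δ).1 (h7.trans hδ) y hy
      · have := h5 u δ (h7.trans hδ)
        rw [AL.kr.1 hδ u (.inr u.2), mul_zero] at this
        exact (mul_eq_zero.1 this.symm).resolve_left (h3 u)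
    · have h8 := (h2 δ).2 fun y hy => hδ y (.inl hy)
      rcases hz with hz | hz
      · exact AL.kr.1 h8 z hz
      · have := h5 ⟨z, hz⟩ δ h8
        rw [hδ _ (.inr ⟨_, rfl⟩), mul_zero] at this
        exact (mul_eq_zero.1 this).resolve_left h6

theorem Tw.loc (h : Tw D fs T) {O : Subring (LL m)} (h0 : ∀ p, io p ∈ O)
    (h1 : ∀ f ∈ fs, f ∈ O → f⁻¹ ∈ O) : AL T ≤ O := by
  induction h with
  | base => exact AL.le (fun c => h0 _) (by simp)
  | low _ _ _ _ ih => exact ih fun f hf => h1 f (mem_insert_of_mem hf)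
  | adj h h2 ih =>
    refine AL.le (fun c => h0 _) fun z hz => hz.elim
      (fun hz => ih h1 (Algebra.subset_adjoin hz)) fun hz => ?_
    have := fun f hf => Lo.le (ih h1) h0 (h.fac.1 f hf).1.1
    exact Mon.ind (P := (· ∈ O)) (fun c _ => h0 _) (fun f hf => ⟨this f hf, h1 f hf (this f hf)⟩)
      (fun _ _ => mul_mem) (h2 hz)

/-- Fractions with denominators in `S`. -/
def Loc (S : Submonoid (RR m)) : Subring (LL m) where
  carrier := {z | ∃ a, ∃ b ∈ S, z * io b = io a}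
  mul_mem' := by
    rintro x y ⟨a, b, h1, h2⟩ ⟨c, d, h3, h4⟩
    exact ⟨a * c, b * d, mul_mem h1 h3, by simp only [map_mul, ← h2, ← h4]; ring⟩
  one_mem' := ⟨1, 1, one_mem _, by simp⟩
  add_mem' := by
    rintro x y ⟨a, b, h1, h2⟩ ⟨c, d, h3, h4⟩
    exact ⟨a * d + c * b, b * d, mul_mem h1 h3, by simp only [map_add, map_mul, ← h2, ← h4]; ring⟩
  zero_mem' := ⟨0, 1, one_mem _, by simp⟩
  neg_mem' := by
    rintro x ⟨a, b, h1, h2⟩
    exact ⟨-a, b, h1, by rw [map_neg, ← h2, neg_mul]⟩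

theorem Loc.io (S : Submonoid (RR m)) (p : RR m) : io p ∈ Loc S := ⟨p, 1, one_mem _, by simp⟩

theorem Loc.inv {S : Submonoid (RR m)} {z : LL m} (hz : z ≠ 0) {a b : RR m} (ha : a ∈ S)
    (h : z * H7.io b = H7.io a) : z⁻¹ ∈ Loc S := ⟨b, a, ha, by rw [← h, inv_mul_cancel_left₀ hz]⟩

/-- The polynomials that do not vanish on a hyperplane. -/
def off (c : Fin m) (w : ℂ) : Submonoid (RR m) where
  carrier := {b | ¬ H7.pi c w ∣ b}
  mul_mem' ha hb h := ((pi_prime c w).dvd_or_dvd h).elim ha hb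
  one_mem' := (pi_prime c w).not_dvd_one

theorem off_sym {z : LL m} (hz : z ∈ symL m) {c : Fin m} {w : ℂ} (h : z ∈ Loc (off c w))
    (c' : Fin m) : z ∈ Loc (off c' w) := by
  obtain ⟨a, b, h1, h2⟩ := h
  refine ⟨rename (Equiv.swap c c') a, rename (Equiv.swap c c') b, fun h3 => h1 ?_, ?_⟩
  · rwa [← pi_dvd_rename (Equiv.swap c c'), Equiv.swap_apply_left]
  · rw [← sg_io, ← sg_io, ← h2, map_mul, hz]

/-- No vector field is supported on `J`. -/
def Rig (A : Subring (LL m)) (J : Finset (Fin m)) : Prop :=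
  ∀ δ : Dr m, A ≤ kr δ → (∀ k, k ∉ J → δ (io (X k)) = 0) → δ = 0

/-- The Jacobian rank is at most `r`. -/
def Rk (A : Subring (LL m)) (r : ℕ) : Prop := ∀ J, Rig A J → J.card ≤ r

theorem Rk.mono {B : Subring (LL m)} (h : Rk B r) (hA : A ≤ B) : Rk A r :=
  fun J hJ => h J fun δ h1 => hJ δ (hA.trans h1)

theorem rig_of_minor {n : ℕ} {ρ : Fin n → Fin m → LL m} {γ : Fin n → Fin m}
    (h0 : (Matrix.of fun a b => ρ a (γ b)).det ≠ 0)
    (hk : ∀ δ : Dr m, A ≤ kr δ → ∀ a, ∑ k, ρ a k * δ (io (X k)) = 0) :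
    (univ.image γ).card = n ∧ Rig A (univ.image γ) := by
  have hγ : Function.Injective γ := fun a b hab => by
    by_contra hne
    exact h0 (Matrix.det_zero_of_column_eq hne fun r => by simp [hab])
  refine ⟨by simp [card_image_of_injective _ hγ], fun δ h2 h3 => ?_⟩
  have h5 := Matrix.eq_zero_of_mulVec_eq_zero h0 (v := fun b => δ (io (X (γ b))))
    (funext fun a => by
      have := hk δ h2 a
      rw [← sum_subset (subset_univ (univ.image γ)) fun k _ hk => by rw [h3 k hk, mul_zero],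
        sum_image fun a _ b _ hab => hγ hab] at this
      simpa [Matrix.mulVec, dotProduct] using this)
  refine der_ext fun k => by_contra fun h6 => ?_
  obtain ⟨b, -, rfl⟩ := mem_image.1 (by_contra fun h7 => h6 (h3 k h7))
  exact h6 (congrFun h5 b)

/-- A vector field of low degree with small support. -/
structure VL (A : Subring (LL m)) (J : Finset (Fin m)) (D₁ : ℕ) (c : Fin m) (ξ : Dr m) : Prop where
  kills : A ≤ kr ξ
  ne : ξ (io (X c)) ≠ 0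
  supp : ∀ k, k ∉ insert c J → ξ (io (X k)) = 0
  low : ∀ k, ξ (io (X k)) ∈ Lo io A D₁

variable {D₁ : ℕ} {c c' : Fin m} {ξ ξ' : Dr m}

theorem VL.mult (h : VL A J D₁ c ξ) (hJ : Rig A J) {δ : Dr m} (h1 : A ≤ kr δ)
    (h2 : ∀ k, k ∉ insert c J → δ (io (X k)) = 0) : ∃ a, ∀ z, δ z = a * ξ z := by
  have h3 := hJ (δ - (δ (io (X c)) / ξ (io (X c))) • ξ)
    (fun a ha => by simp [mem_kr, mem_kr.1 (h1 ha), mem_kr.1 (h.kills ha)]) fun k hk => by
      rcases eq_or_ne k c with rfl | hne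
      · simp [div_mul_cancel₀ _ h.ne]
      · have : k ∉ insert c J := by simp [hne, hk]
        simp [h2 k this, h.supp k this]
  exact ⟨_, fun z => by simpa [sub_eq_zero] using DFunLike.congr_fun h3 z⟩

theorem VL.swap (h : VL A J D₁ c ξ) (h' : VL A J D₁ c' ξ') (hJ : Rig A J)
    (hA : A ≤ (symL m).toSubring) (σ : Equiv.Perm (Fin m))
    (hσ : ∀ k, k ∉ insert c' J → σ k ∉ insert c J) {z : LL m} (hz : ξ' z = 0) :
    ξ (sg σ z) = 0 := by
  obtain ⟨δ, hδ⟩ := exists_conj (sg σ) ξ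
  obtain ⟨a, ha⟩ := h'.mult hJ (δ := δ)
    (fun a ha => by rw [mem_kr, hδ, hA ha, mem_kr.1 (h.kills ha), map_zero]) fun k hk => by
      rw [hδ, sg_io, rename_X, h.supp _ (hσ k hk), map_zero]
  have := ha z
  rwa [hz, mul_zero, hδ, map_eq_zero_iff _ (sg σ).symm.injective] at this

theorem Tw.frame (h : Tw D fs T) (hr : Rk (AL T) r) : ∃ J : Finset (Fin m), J.card ≤ r ∧
    Rig (AL T) J ∧ ∀ c, c ∉ J → ∃ ξ, VL (AL T) J (r * (fs.card * D)) c ξ := by
  obtain ⟨ρ, h1, h2⟩ := h.rows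
  obtain ⟨n, β, γ, -, h3, h4⟩ := kernel' fun (y : ρ) k => y.1 k
  obtain ⟨h5, hJ⟩ := rig_of_minor (A := AL T) h3 fun δ hδ a => (h2 δ).1 hδ _ (β a).2
  refine ⟨_, hr _ hJ, hJ, fun c hc => ?_⟩
  obtain ⟨M, a1, a2, a3, a4⟩ := h4 c hc
  obtain ⟨ξ, hξ⟩ := exists_der M
  exact ⟨ξ, (h2 ξ).2 fun y hy => by simpa only [hξ] using a3 ⟨y, hy⟩, by rwa [hξ, a1],
    fun k hk => by rw [hξ, a2 k hk], fun k => hξ k ▸ a4 _ (fun γ' => Lo.mono
      (Lo.det _ fun a b => h1 _ (β a).2 _) (Nat.mul_le_mul_right _ (h5 ▸ hr _ hJ))) k⟩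

/-- Vanishing along a hyperplane. -/
def Van (c : Fin m) (w : ℂ) (z : LL m) : Prop := ∃ y ∈ Loc (off c w), z = io (H7.pi c w) * y

theorem Tw.count (h : Tw D fs T) (hJ : Rig (AL T) J) (b : VL (AL T) J D₁ c ξ) {Z : LL m}
    (hZ : Z ∈ Lo io (kr ξ) d) (hZ0 : Z ≠ 0) (W : Finset ℂ) (hW : ∀ w ∈ W, Van c w Z) :
    W.card ≤ (J.card + 1) * (d + fs.card * D + 2 * D₁) := by
  refine (count' b.ne b.supp (fun k => Lo.up b.kills (b.low k))
    (fun δ hδ => b.mult hJ (fun a ha => hδ _ (b.kills ha)) fun k hk => hδ _ (b.supp k hk))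
    (fun i hi z hz => b.swap b hJ h.fac.2 _ (fun k hk => ?_) hz)
    (Lo.up b.kills (Lo.prod fs fun f hf => (h.fac.1 f hf).1.1))
    (prod_ne_zero_iff.2 fun f hf => (h.fac.1 f hf).1.2) (fun v hE hp hΨ => ?_) hZ hZ0 W
    fun w hw => ?_).trans (Nat.mul_le_mul_right _ (card_insert_le _ _))
  · rwa [Equiv.swap_apply_of_ne_of_ne (x := k) (a := c) (b := i)
      (fun e => hk (e ▸ mem_insert_self _ _)) fun e => hk (e ▸ hi)]
  · let S : Submonoid (RR m) :=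
      { carrier := {b | v (io b) = 1}
        mul_mem' := fun {a b} (ha : v (io a) = 1) (hb : v (io b) = 1) =>
          show v (io (a * b)) = 1 by rw [map_mul, map_mul, ha, hb, mul_one]
        one_mem' := by simp }
    have c1 : ∀ f ∈ fs, v f ≤ 1 := fun f hf => by
      simpa using v_lo hE le_rfl (fun k => hp _) (Lo.up b.kills (h.fac.1 f hf).1.1)
    rw [map_prod, prod_eq_one_iff_of_le_one' c1] at hΨ
    have c2 := h.loc (Loc.io S) fun f hf ⟨a, b, c3, c4⟩ => Loc.inv (h.fac.1 f hf).1.2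
      (show v (io a) = 1 by rw [← c4, map_mul, hΨ f hf, c3, mul_one]) c4
    choose a b c3 c4 using fun k => Lo.le c2 (Loc.io S) (b.low k)
    refine ⟨∏ k, b k, fun k => (∏ j ∈ univ.erase k, b j) * a k, prod_mem fun k _ => c3 k,
      fun k => ?_⟩
    rw [← prod_erase_mul univ b (mem_univ k), map_mul, map_mul, ← c4]
    ring
  · obtain ⟨y, ⟨a, b, h1, h2⟩, rfl⟩ := hW w hw
    exact ⟨a, b, h1, by rw [mul_assoc, h2, map_mul]⟩

theorem van_of_not_inv {w : ℂ} {z : LL m} (h : z ∈ Loc (off c w)) (h0 : z ≠ 0)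
    (h1 : z⁻¹ ∉ Loc (off c w)) : Van c w z := by
  obtain ⟨a, b, h2, e⟩ := h
  obtain ⟨a', rfl⟩ : H7.pi c w ∣ a := by_contra fun h3 => h1 (Loc.inv h0 h3 e)
  have h3 : io b ≠ 0 := io_ne fun h => h2 (h ▸ dvd_zero _)
  exact ⟨io a' / io b, ⟨a', b, h2, div_mul_cancel₀ _ h3⟩, by
    rw [← mul_div_assoc, ← map_mul, ← e, mul_div_cancel_right₀ _ h3]⟩

theorem Tw.bad (h : Tw D fs T) (hr : Rk (AL T) r) (hm : r < m) {l : ℕ} (hl : fs.card ≤ l)
    (c₀ : Fin m) (W : Finset ℂ)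
    (hW : ∀ w ∈ W, ∃ f ∈ fs, ¬ (f ∈ Loc (off c₀ w) ∧ f⁻¹ ∈ Loc (off c₀ w))) :
    W.card ≤ fs.card * ((r + 1) * (D + l * D + 2 * (r * (l * D)))) := by
  induction h generalizing W with
  | base => simpa [eq_empty_iff_forall_notMem] using hW
  | adj h _ ih => exact ih (hr.mono (AL.mono Set.subset_union_left)) hl W hW
  | @low fs T f h h1 h2 h3 ih =>
    by_cases hf : f ∈ fs
    · rw [insert_eq_of_mem hf] at hl hW ⊢
      exact ih hr hl W hW
    rw [card_insert_of_notMem hf] at hl ⊢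
    obtain ⟨J, a1, a2, a3⟩ := h.frame hr
    obtain ⟨c, -, hc⟩ := exists_mem_notMem_of_card_lt_card (s := J) (t := univ)
      (by simp only [card_univ, Fintype.card_fin]; omega)
    obtain ⟨ξ, a4⟩ := a3 c hc
    rw [← card_filter_add_card_filter_not (s := W) fun w =>
      ∃ f ∈ fs, ¬ (f ∈ Loc (off c₀ w) ∧ f⁻¹ ∈ Loc (off c₀ w)), add_one_mul]
    refine add_le_add (ih hr (by omega) _ fun w hw => (mem_filter.1 hw).2)
      ((h.count a2 a4 (Lo.up a4.kills h1) h2 _ fun w hw => ?_).trans (by gcongr <;> omega))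
    obtain ⟨h4, h5⟩ := mem_filter.1 hw
    have h6 := Lo.le (h.loc (Loc.io (off c₀ w)) fun g hg _ =>
      (not_not.1 fun h7 => h5 ⟨g, hg, h7⟩).2) (Loc.io _) h1
    obtain ⟨g, h7, h8⟩ := hW w h4
    obtain rfl : g = f := (mem_insert.1 h7).resolve_right fun h9 => h5 ⟨g, h9, h8⟩
    exact van_of_not_inv (off_sym h3 h6 c) h2 fun h9 => h8 ⟨h6, off_sym (inv_mem h3) h9 c₀⟩

end Pool.Agent.MP_57f271_lc.H4
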