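import Pool.Agent.MP_57f271_lc.H4.Tower

/-!
Sums of symmetric power products with coefficients of low degree.
-/

set_option autoImplicit false

namespace Pool.Agent.MP_57f271_lc.H4

open MvPolynomial Finset Pool.Agent.MP_57f271_lc.H7

theorem wronski {K ι : Type} [Field K] [Algebra ℂ K] [Fintype ι] (η : Derivation ℂ K K)
    (h : ℕ → ι → K) (hh : ∀ k j, h (k + 1) j = η (h k j)) :
    ∃ (r : ℕ) (γ : Fin r → ι) (lam : ι → Fin r → K), r ≤ Fintype.card ι ∧
      (Matrix.of fun k i : Fin r => h k (γ i)).det ≠ 0 ∧ (∀ j i, η (lam j i) = 0) ∧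
      ∀ j k, k ≤ r → h k j = ∑ i, lam j i * h k (γ i) := by
  classical
  let Q : ℕ → Prop := fun n => ∃ γ : Fin n → ι, (Matrix.of fun k i : Fin n => h k (γ i)).det ≠ 0
  have hQ : ∀ n, Q n → n ≤ Fintype.card ι := fun n ⟨γ, hγ⟩ => by
    have : Function.Injective γ := fun a b hab => by
      by_contra hne
      exact hγ (Matrix.det_zero_of_column_eq hne fun r => by simp [hab])
    simpa using Fintype.card_le_of_injective γ this
  have h0 : Q 0 := ⟨Fin.elim0, by simp⟩
  obtain ⟨γ, hγ⟩ : Q (Nat.findGreatest Q (Fintype.card ι)) :=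
    Nat.findGreatest_spec (Nat.zero_le _) h0
  have hmax : ¬ Q (Nat.findGreatest Q (Fintype.card ι) + 1) := fun h =>
    Nat.findGreatest_is_greatest (Nat.lt_succ_self _) (hQ _ h) h
  generalize Nat.findGreatest Q (Fintype.card ι) = r at γ hγ hmax
  have h1 : ∀ j, ∃ lam : Fin r → K, ∀ k, k ≤ r → h k j = ∑ i, lam i * h k (γ i) := fun j => by
    obtain ⟨v, hv0, hv⟩ := Matrix.exists_mulVec_eq_zero_iff.2
      (not_not.1 fun h1 => hmax ⟨Fin.cons j γ, h1⟩)
    have h2 : ∀ k, k ≤ r → h k j * v 0 + ∑ i, h k (γ i) * v i.succ = 0 := fun k hk => by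
      simpa [Matrix.mulVec, dotProduct, Fin.sum_univ_succ] using congrFun hv ⟨k, by omega⟩
    have h3 : v 0 ≠ 0 := fun h3 => hv0 (by
      have := Matrix.eq_zero_of_mulVec_eq_zero hγ (v := fun i => v i.succ) (funext fun k => by
        simpa [Matrix.mulVec, dotProduct, h3] using h2 k k.2.le)
      exact funext (Fin.cases h3 (congrFun this)))
    refine ⟨fun i => -v i.succ / v 0, fun k hk => mul_right_cancel₀ h3 ?_⟩
    rw [eq_neg_of_add_eq_zero_left (h2 k hk), sum_mul, ← sum_neg_distrib]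
    exact sum_congr rfl fun i _ => by field_simp
  choose lam hl using h1
  refine ⟨r, γ, lam, hQ _ ⟨γ, hγ⟩, hγ, fun j => congrFun
    (Matrix.eq_zero_of_mulVec_eq_zero hγ (v := fun i => η (lam j i)) (funext fun k => ?_)), hl⟩
  have h2 := congrArg η (hl j k k.2.le)
  simp only [map_sum, Derivation.leibniz, smul_eq_mul, sum_add_distrib, ← hh] at h2
  rw [← hl j (k + 1) k.2] at h2
  simpa [Matrix.mulVec, dotProduct] using h2

variable {m : ℕ} {A : Subring (LL m)} {J : Finset (Fin m)} {D D₁ D₂ d : ℕ} {c c' : Fin m}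
  {ξ ξ' : Dr m} {fs : Finset (LL m)} {T : Set (LL m)}

theorem Lo.sg (hA : A ≤ (symL m).toSubring) (σ : Equiv.Perm (Fin m)) {z : LL m}
    (hz : z ∈ Lo io A d) : sg σ z ∈ Lo io A d :=
  Lo.map (φ := io) (φ' := io) (A := A) (A' := A) (H4.sg σ).toRingHom
    (fun a ha => show H4.sg σ a ∈ A from (hA ha σ).symm ▸ ha) (fun p hp => by
      rw [show (H4.sg σ).toRingHom (io p) = _ from sg_io _ p]
      exact Lo.poly ((totalDegree_rename_le _ p).trans hp)) hz

theorem det_mem {n : ℕ} {O : Subring (LL m)} (B : Matrix (Fin n) (Fin n) (LL m))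
    (h : ∀ i j, B i j ∈ O) : B.det ∈ O := by
  rw [Matrix.det_apply']
  exact sum_mem fun σ _ => mul_mem (intCast_mem _ _) (prod_mem fun i _ => h _ _)

theorem der_loc {w : ℂ} {δ : Dr m} (h : ∀ k, δ (io (X k)) ∈ Loc (off c w)) {z : LL m}
    (hz : z ∈ Loc (off c w)) : δ z ∈ Loc (off c w) := by
  have h1 : ∀ p, δ (io p) ∈ Loc (off c w) := fun p =>
    der_io δ p ▸ sum_mem fun k _ => mul_mem (Loc.io _ _) (h k)
  obtain ⟨a, b, h2, e⟩ := id hz
  have h3 : io b ≠ 0 := io_ne fun h => h2 (h ▸ dvd_zero _)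
  have h4 := congrArg δ e
  rw [Derivation.leibniz, smul_eq_mul, smul_eq_mul] at h4
  rw [show δ z = (δ (io a) - z * δ (io b)) * (io b)⁻¹ by rw [← h4]; field_simp; ring]
  exact mul_mem (sub_mem (h1 a) (mul_mem hz (h1 b)))
    (Loc.inv h3 (b := 1) h2 (by rw [map_one, mul_one]))

theorem Van.mul {w : ℂ} {z y : LL m} (h : Van c w z) (hy : y ∈ Loc (off c w)) : Van c w (z * y) :=
  let ⟨x, h1, h2⟩ := h
  ⟨x * y, mul_mem h1 hy, by rw [h2, mul_assoc]⟩

/-- All factors are units along the hyperplanes. -/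
def Good (fs : Finset (LL m)) (w : ℂ) : Prop :=
  ∀ c, ∀ f ∈ fs, f ∈ Loc (off c w) ∧ f⁻¹ ∈ Loc (off c w)

theorem Good.mon {w : ℂ} (h : Good fs w) (c : Fin m) {u : LL m} (hu : u ∈ Mon fs) :
    u ∈ Loc (off c w) :=
  Mon.ind (P := (· ∈ Loc (off c w))) (fun _ _ => Loc.io _ _) (h c) (fun _ _ => mul_mem) hu

theorem Good.lo {w : ℂ} (h : Good fs w) (t : Tw D fs T) (c : Fin m) {z : LL m}
    (hz : z ∈ Lo io (AL T) d) : z ∈ Loc (off c w) :=
  Lo.le (t.loc (Loc.io _) fun f hf _ => (h c f hf).2) (Loc.io _) hz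

theorem Tw.sym (t : Tw D fs T) {u : LL m} (hu : u ∈ Mon fs) : u ∈ symL m :=
  Mon.ind (P := (· ∈ symL m)) (fun c _ => symL_C c)
    (fun f hf => ⟨(t.fac.1 f hf).2, inv_mem (t.fac.1 f hf).2⟩) (fun _ _ => mul_mem) hu

theorem wide (t : Tw D fs T) (h : VL (AL T) J D₁ c ξ) (h' : VL (AL T) J D₁ c' ξ')
    (hJ : Rig (AL T) J) (hc : c ∉ J) (hc' : c' ∉ J) (hne : c ≠ c') {ι : Type} [Fintype ι] {s : ℕ}
    (hs : Fintype.card ι ≤ s) (U a : ι → LL m) (hU : ∀ j, U j ∈ Mon fs)
    (ha : ∀ j, a j ∈ Lo io (AL T) D₂) (hG : ∑ j, U j * a j ≠ 0) (W : Finset ℂ)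
    (hW : ∀ w ∈ W, Good fs w ∧ Van c w (∑ j, U j * a j)) :
    W.card ≤ (J.card + 1) *
      ((s + 1) * (s * (D₂ + s * (fs.card * D + D₁))) + fs.card * D + 2 * D₁) := by
  classical
  choose hU0 l hl hl' using fun j => Mon.log (fun f hf => (t.fac.1 f hf).1) (hU j)
  have hA := t.fac.2
  have hΦ := Lo.prod fs fun f hf => (t.fac.1 f hf).1.1
  have hΦ0 : ∏ f ∈ fs, f ≠ 0 := prod_ne_zero_iff.2 fun f hf => (t.fac.1 f hf).1.2
  generalize ∏ f ∈ fs, f = Φ at hl' hΦ hΦ0
  let η : Dr m := Φ • ξ'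
  have hη : ∀ z, η z = Φ * ξ' z := fun z => rfl
  have hN : ∀ k, η (io (X k)) ∈ Lo io (AL T) (fs.card * D + D₁) := fun k => Lo.mul hΦ (h'.low k)
  let B : ℕ → ι → LL m := fun k j => Nat.rec (a j)
    (fun _ b => η b + b * ∑ k, l j k * ξ' (io (X k))) k
  have hB0 : ∀ j, B 0 j = a j := fun j => rfl
  have hB1 : ∀ k j, B (k + 1) j = η (B k j) + B k j * ∑ k, l j k * ξ' (io (X k)) := fun k j => rfl
  have hB : ∀ k j, B k j ∈ Lo io (AL T) (D₂ + k * (fs.card * D + D₁)) := fun k j => by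
    induction k with
    | zero => simpa [hB0] using ha j
    | succ k ih =>
      rw [hB1, add_mul, one_mul, ← add_assoc]
      exact add_mem (Lo.der (fun a ha => by rw [hη, mem_kr.1 (h'.kills ha), mul_zero]) hN ih)
        (Lo.mul ih (sum_mem fun k _ => Lo.mul (hl j k) (h'.low k)))
  have hd : ∀ k j, U j * B (k + 1) j = η (U j * B k j) := fun k j => by
    rw [Derivation.leibniz, hη (U j), hl' j ξ' h'.kills, hB1]
    simp only [smul_eq_mul]
    ring
  clear_value B
  obtain ⟨r, γ, lam, hr, h0, h1, h2⟩ := wronski η (fun k j => U j * B k j) hd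
  let B₀ : Matrix (Fin r) (Fin r) (LL m) := Matrix.of fun k i => B k (γ i)
  have hN0 : B₀.det ≠ 0 := fun h3 => h0 (by
    have := Matrix.det_mul_row (fun i => U (γ i)) B₀
    rwa [h3, mul_zero] at this)
  obtain ⟨i, hi⟩ : ∃ i, ∑ j, lam j i ≠ 0 := by
    by_contra h3
    refine hG ?_
    simp only [← hB0]
    rw [sum_congr rfl fun j _ => h2 j 0 (Nat.zero_le _), sum_comm]
    exact sum_eq_zero fun i _ => by rw [← sum_mul, not_not.1 (not_exists.1 h3 i), zero_mul]
  let N : ι → LL m := fun j => B₀.cramer (fun k => B k j) i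
  have hcr : ∀ j, U j * N j = B₀.det * lam j i * U (γ i) := fun j => by
    refine sub_eq_zero.1 (congrFun (Matrix.eq_zero_of_mulVec_eq_zero hN0 (v := fun i =>
      U j * B₀.cramer (fun k => B k j) i - B₀.det * lam j i * U (γ i)) (funext fun k => ?_)) i)
    have e1 := congrFun (B₀.mulVec_cramer fun k => B k j) k
    have e2 := h2 j k k.2.le
    simp only [Matrix.mulVec, dotProduct, Pi.smul_apply, smul_eq_mul, B₀,
      Matrix.of_apply, Pi.zero_apply] at e1 e2 ⊢
    simp only [mul_sub, sum_sub_distrib, mul_left_comm _ (U j), ← mul_sum, e1]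
    rw [mul_left_comm, e2, mul_sum, sub_eq_zero]
    exact sum_congr rfl fun i _ => by ring
  have hr' := hr.trans hs
  have hB' : ∀ (k : Fin r) j, B k j ∈ Lo io (AL T) (D₂ + s * (fs.card * D + D₁)) := fun k j =>
    Lo.mono (hB k j) (by gcongr; omega)
  set D₃ := s * (D₂ + s * (fs.card * D + D₁)) with hD₃
  have a1 : B₀.det ∈ Lo io (AL T) D₃ :=
    Lo.mono (Lo.det _ fun k i => hB' k _) (Nat.mul_le_mul_right _ hr')
  have a2 : ∀ j, N j ∈ Lo io (AL T) D₃ := fun j => Lo.mono (Lo.det (B₀.updateCol i _) fun k i' => by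
    rw [Matrix.updateCol_apply]
    split_ifs <;> exact hB' k _) (Nat.mul_le_mul_right _ hr')
  have a3 : ∀ w ∈ W, Van c w (∑ j, U j * N j) := fun w hw => by
    have b1 : ∀ k, Van c w (∑ j, U j * B k j) := fun k => by
      induction k with
      | zero => simpa only [hB0] using (hW w hw).2
      | succ k ih =>
        obtain ⟨g, h3, hg⟩ := ih
        refine ⟨η g, der_loc (fun k => (hW w hw).1.lo t c (hN k)) h3, ?_⟩
        rw [sum_congr rfl fun j _ => hd k j, ← map_sum, hg, Derivation.leibniz, der_pi,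
          hη (io (X c)), h'.supp c (by simp [hne, hc])]
        simp
    choose g h3 hg using b1
    have b2 := congrFun (congrArg B₀.cramer (show ∑ j, U j • (fun k : Fin r => B k j) =
      io (H7.pi c w) • fun k : Fin r => g k from funext fun k => by simpa using hg k)) i
    rw [map_sum, map_smul] at b2
    refine ⟨B₀.cramer (fun k => g k) i, det_mem (B₀.updateCol i fun k => g k) fun k i' => ?_,
      by simpa using b2⟩
    rw [Matrix.updateCol_apply]
    split_ifs
    exacts [h3 _, (hW w hw).1.lo t c (hB' k _)]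
  let σ := Equiv.swap c c'
  let N' : ι → LL m := fun j => if N j = 0 then 1 else sg σ (N j)
  have a4 : ∀ j, N' j ∈ Lo io (AL T) D₃ := fun j => by
    simp only [N']
    split_ifs
    exacts [Lo.const (one_mem _), Lo.sg hA σ (a2 j)]
  have a5 : ∀ j, N' j ≠ 0 := fun j => by
    simp only [N']
    split_ifs with h3
    exacts [one_ne_zero, (map_ne_zero_iff _ (sg σ).injective).2 h3]
  let Z : LL m := sg σ B₀.det * ∑ j, sg σ (lam j i) * (N j * ∏ j' ∈ univ.erase j, N' j')
  have a6 : Z * U (γ i) = (∑ j, U j * N j) * ∏ j, N' j := by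
    simp only [Z, mul_sum, sum_mul]
    refine sum_congr rfl fun j _ => ?_
    rw [← mul_prod_erase univ N' (mem_univ j)]
    have := congrArg (sg σ) (hcr j)
    simp only [map_mul, t.sym (hU _) σ] at this
    by_cases h3 : N j = 0
    · simp [h3]
    · simp only [show N' j = sg σ (N j) from if_neg h3]
      linear_combination (-(N j * ∏ j' ∈ univ.erase j, N' j')) * this
  have a7 : Z ≠ 0 := fun h3 => by
    rw [h3, zero_mul] at a6
    simp only [hcr, ← sum_mul, ← mul_sum] at a6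
    exact mul_ne_zero (mul_ne_zero (mul_ne_zero hN0 hi) (hU0 _))
      (prod_ne_zero_iff.2 fun j _ => a5 j) a6.symm
  have a8 : Z ∈ Lo io (kr ξ) ((s + 1) * D₃) := by
    rw [add_mul, one_mul, add_comm]
    refine Lo.mul (Lo.up h.kills (Lo.sg hA σ a1)) (sum_mem fun j _ => ?_)
    have b1 : ξ (sg σ (lam j i)) = 0 := h.swap h' hJ hA σ (fun k hk => ?_)
      ((mul_eq_zero.1 ((hη _).symm.trans (h1 j i))).resolve_left hΦ0)
    · refine Lo.mono (Lo.mul (Lo.const (d := 0) (mem_kr.2 b1)) (Lo.up h.kills (Lo.mul (a2 j)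
        (Lo.prod _ fun j' _ => a4 j')))) ?_
      have := card_erase_add_one (mem_univ j)
      rw [card_univ] at this
      rw [zero_add, add_comm, ← add_one_mul]
      exact Nat.mul_le_mul_right _ (by omega)
    · rw [mem_insert, not_or] at hk ⊢
      rcases eq_or_ne k c with rfl | h3
      · simpa [σ, hc'] using hne.symm
      · rw [Equiv.swap_apply_of_ne_of_ne h3 hk.1]
        exact ⟨h3, hk.2⟩
  refine t.count hJ h a8 a7 W fun w hw => ?_
  rw [(eq_mul_inv_iff_mul_eq₀ (hU0 _)).2 a6]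
  exact ((a3 w hw).mul (prod_mem fun j _ => (hW w hw).1.lo t c (a4 j))).mul
    ((hW w hw).1.mon c (Mon.inv (hU _)))

end Pool.Agent.MP_57f271_lc.H4
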